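import Pool.Agent.Lib.MP_4a593f_gt.EU.CoreEven

/-!
Weitzenböck curvature term on 3-forms of `ℝ^(2m+2)` (final form).
-/

namespace Pool.Hopf3

open Finset

namespace EU

theorem bochner_ge_even {m : ℕ} (hm : 1 ≤ m)
    {R : Fin (2 * m + 1 + 1) → Fin (2 * m + 1 + 1) → Fin (2 * m + 1 + 1) → Fin (2 * m + 1 + 1) → ℝ}
    (hR : IsCurvature R) {lo hi : ℝ} (hlh : lo < hi) (hs : SecIn R lo hi)
    {φ : Fin (2 * m + 1 + 1) → Fin (2 * m + 1 + 1) → Fin (2 * m + 1 + 1) → ℝ} (hφ : Form3 φ) :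
    6 * (2 * (m : ℝ) - 1) * ((33 * lo - 8 * hi) / 25) * ip3 φ φ ≤ bochner R φ := by
  have h := bochner_ge_of_eu (24 / 25 * (2 * (m : ℝ) - 1))
    (fun R hR hs χ μ lam htop heig => lam_ge_even hm hR hs htop heig) hR hlh hs hφ
  refine le_trans (le_of_eq ?_) h
  push_cast
  ring

end EU

end Pool.Hopf3
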