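import Mathlib

/-!
Euclidean test form, part C: the operator inequality for the e-planes used by the coupling.
`J` is the involution `x_a ↔ y_a` of the basis of `e^⊥` (kernel = fixed points), `s` the signed
singular values (`A e_z = s_z e_{Jz}`), `ψ` the remaining 3-form, `x` a cut factor.
-/

namespace Pool.HopfEU

open Finset

variable {N : ℕ}

/-- Cauchy–Schwarz for one entry. -/
private theorem entry {L h g b x s lam nu : ℝ} (hL : 0 ≤ L) (hh : L ≤ h) (hs : s ^ 2 = L ^ 2)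
    (hlam : 0 < lam) (hnu : 0 < nu) (hg : 2 / nu + L * h / lam ≤ g) :
    (b + s * x) ^ 2 ≤ g * (nu / 2 * b ^ 2 + lam * L / h * x ^ 2) := by
  have hh0 : 0 ≤ h := hL.trans hh
  have hR : 0 ≤ nu / 2 * b ^ 2 + lam * L / h * x ^ 2 := by positivity
  refine le_trans ?_ (mul_le_mul_of_nonneg_right hg hR)
  rcases hL.eq_or_lt with h0 | h0
  · have hs0 : s = 0 := by
      rw [← h0] at hs
      nlinarith [sq_nonneg s]
    rw [← h0, hs0]
    apply le_of_eq
    field_simp
    ring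
  · have hh1 : 0 < h := lt_of_lt_of_le h0 hh
    have e : (2 / nu + L * h / lam) * (nu / 2 * b ^ 2 + lam * L / h * x ^ 2)
        - (b + s * x) ^ 2
        = (nu * L * h / (2 * lam)) * (b - s * (2 * lam / (nu * L * h)) * x) ^ 2
          + (L ^ 2 - s ^ 2) * (1 + 2 * lam / (nu * L * h)) * x ^ 2 := by
      field_simp
      ring
    have h1 : 0 ≤ (nu * L * h / (2 * lam)) * (b - s * (2 * lam / (nu * L * h)) * x) ^ 2 := by
      positivity
    rw [hs, sub_self, zero_mul, zero_mul, add_zero] at e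
    linarith

/-- **Operator inequality**, for two arrays `b`, `c` (`c` skew). -/
theorem op_ineq (J : Fin N → Fin N) (hJ : ∀ i, J (J i) = i) (s : Fin N → ℝ)
    (hs : ∀ i, s (J i) = - s i) {lam nu : ℝ} (hlam : 0 < lam) (hnu : 0 < nu)
    (g : Fin N → Fin N → ℝ)
    (hg : ∀ y z, z ≠ J y → 2 / nu + |s z| * (|s y| + |s z|) / lam ≤ g y z)
    (hgJ : ∀ y, 2 / nu ≤ g y (J y))
    (b c : Fin N → Fin N → ℝ) (hc : ∀ y z, c y z = - c z y) :
    ∑ y, ∑ z, (b y z + s z * c y (J z)) ^ 2 / g y z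
      ≤ 1 / 2 * ∑ y, ∑ z, (lam * c y z ^ 2 + nu * b y z ^ 2) := by
  have habs : ∀ i, |s (J i)| = |s i| := fun i => by rw [hs, abs_neg]
  set w : Fin N → Fin N → ℝ := fun y z => lam * |s z| / (|s y| + |s z|) with hw
  have hw0 : ∀ y z, 0 ≤ w y z := fun y z => by
    simp only [hw]
    positivity
  have hws : ∀ y z, w y z + w z y ≤ lam := by
    intro y z
    simp only [hw]
    rw [add_comm |s z| |s y|, ← add_div]
    have h0 : 0 ≤ |s y| + |s z| := by positivity
    rcases h0.eq_or_lt with h1 | h1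
    · rw [← h1, div_zero]
      exact hlam.le
    · rw [div_le_iff₀ h1]
      apply le_of_eq
      ring
  have hcc : ∀ y, c y y = 0 := fun y => by have := hc y y; linarith
  have h2nu : 0 < 2 / nu := by positivity
  have gpos : ∀ y z, 0 < g y z := by
    intro y z
    by_cases h : z = J y
    · rw [h]
      exact lt_of_lt_of_le h2nu (hgJ y)
    · refine lt_of_lt_of_le ?_ (hg y z h)
      have : 0 ≤ |s z| * (|s y| + |s z|) / lam := by positivity
      linarith
  have key : ∀ y z, (b y z + s z * c y (J z)) ^ 2 / g y z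
      ≤ nu / 2 * b y z ^ 2 + w y z * c y (J z) ^ 2 := by
    intro y z
    rw [div_le_iff₀ (gpos y z)]
    by_cases h2 : z = J y
    · have h3 : c y (J z) = 0 := by rw [h2, hJ, hcc]
      rw [h3, h2]
      have h4 : 0 ≤ (g y (J y) - 2 / nu) * (nu / 2 * b y (J y) ^ 2) := by
        have := hgJ y
        have h5 : 0 ≤ g y (J y) - 2 / nu := by linarith
        positivity
      have h6 : 2 / nu * (nu / 2 * b y (J y) ^ 2) = b y (J y) ^ 2 := by
        field_simp
      nlinarith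
    · have h3 := entry (b := b y z) (x := c y (J z)) (s := s z) (abs_nonneg (s z))
        (h := |s y| + |s z|) (by linarith [abs_nonneg (s y)]) (by rw [sq_abs]) hlam hnu
        (hg y z h2)
      linarith
  have e1 : ∑ y, ∑ z, w y z * c y (J z) ^ 2 = ∑ y, ∑ z, w y z * c y z ^ 2 := by
    refine Finset.sum_congr rfl fun y _ => ?_
    refine Finset.sum_bij' (fun z _ => J z) (fun z _ => J z) ?_ ?_ ?_ ?_ ?_
    · intros; exact Finset.mem_univ _
    · intros; exact Finset.mem_univ _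
    · intro z _; exact hJ z
    · intro z _; exact hJ z
    · intro z _
      simp only [hw, habs]
  have e2 : ∑ y, ∑ z, w y z * c y z ^ 2 ≤ 1 / 2 * ∑ y, ∑ z, lam * c y z ^ 2 := by
    have e3 : ∑ y, ∑ z, w y z * c y z ^ 2 = ∑ y, ∑ z, w z y * c y z ^ 2 := by
      rw [Finset.sum_comm]
      refine Finset.sum_congr rfl fun y _ => Finset.sum_congr rfl fun z _ => ?_
      rw [hc z y]
      ring
    have e4 : ∑ y, ∑ z, w y z * c y z ^ 2
        = 1 / 2 * ∑ y, ∑ z, (w y z + w z y) * c y z ^ 2 := by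
      have : ∑ y, ∑ z, (w y z + w z y) * c y z ^ 2
          = ∑ y, ∑ z, w y z * c y z ^ 2 + ∑ y, ∑ z, w z y * c y z ^ 2 := by
        simp only [add_mul, Finset.sum_add_distrib]
      rw [this, ← e3]
      ring
    rw [e4]
    refine mul_le_mul_of_nonneg_left ?_ (by norm_num)
    refine Finset.sum_le_sum fun y _ => Finset.sum_le_sum fun z _ => ?_
    exact mul_le_mul_of_nonneg_right (hws y z) (sq_nonneg _)
  calc _ ≤ ∑ y, ∑ z, (nu / 2 * b y z ^ 2 + w y z * c y (J z) ^ 2) :=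
        Finset.sum_le_sum fun y _ => Finset.sum_le_sum fun z _ => key y z
    _ = ∑ y, ∑ z, nu / 2 * b y z ^ 2 + ∑ y, ∑ z, w y z * c y (J z) ^ 2 := by
        simp only [Finset.sum_add_distrib]
    _ ≤ ∑ y, ∑ z, nu / 2 * b y z ^ 2 + 1 / 2 * ∑ y, ∑ z, lam * c y z ^ 2 := by
        rw [e1]
        linarith
    _ = _ := by
        rw [Finset.mul_sum, Finset.mul_sum, ← Finset.sum_add_distrib]
        refine Finset.sum_congr rfl fun y _ => ?_
        rw [Finset.mul_sum, Finset.mul_sum, ← Finset.sum_add_distrib]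
        refine Finset.sum_congr rfl fun z _ => ?_
        ring

/-- **Operator inequality** for a 3-form `ψ` whose Gram form is at most `2 D`, with coupling
weights `t` (second part, `c`) and `r` (first part, `b`):
`b_yz = Σ_v w_v r_v ψ(Jv,y,z)`, `c_yz = Σ_v w_v ψ(v,y,z)`. -/
theorem op_ineq_gen (J : Fin N → Fin N) (hJ : ∀ i, J (J i) = i) (t r D : Fin N → ℝ)
    (ht : ∀ i, t (J i) = - t i) (hD : ∀ i, D (J i) = D i)
    {lam nu : ℝ} (hlam : 0 < lam) (hnu : 0 < nu)
    (g : Fin N → Fin N → ℝ)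
    (hg : ∀ y z, z ≠ J y → 2 / nu + |t z| * (|t y| + |t z|) / lam ≤ g y z)
    (hgJ : ∀ y, 2 / nu ≤ g y (J y))
    (ψ : Fin N → Fin N → Fin N → ℝ) (hψ : ∀ i j k, ψ i j k = - ψ i k j)
    (hG : ∀ u : Fin N → ℝ, ∑ y, ∑ z, (∑ v, u v * ψ v y z) ^ 2 ≤ 2 * ∑ v, D v * u v ^ 2)
    (w : Fin N → ℝ) :
    ∑ y, ∑ z, ((∑ v, w v * r v * ψ (J v) y z) + t z * ∑ v, w v * ψ v y (J z)) ^ 2 / g y z
      ≤ ∑ v, (lam + nu * r v ^ 2) * D v * w v ^ 2 := by
  have h1 := op_ineq J hJ t ht hlam hnu g hg hgJ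
    (fun y z => ∑ v, w v * r v * ψ (J v) y z) (fun y z => ∑ v, w v * ψ v y z)
    (fun y z => by
      rw [← Finset.sum_neg_distrib]
      exact Finset.sum_congr rfl fun v _ => by rw [hψ v y z]; ring)
  refine h1.trans ?_
  have h2 := hG w
  have h3 := hG (fun v => w (J v) * r (J v))
  have e3 : ∀ y z, ∑ v, w (J v) * r (J v) * ψ v y z = ∑ v, w v * r v * ψ (J v) y z := by
    intro y z
    refine Finset.sum_bij' (fun v _ => J v) (fun v _ => J v) ?_ ?_ ?_ ?_ ?_
    · intros; exact Finset.mem_univ _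
    · intros; exact Finset.mem_univ _
    · intro v _; exact hJ v
    · intro v _; exact hJ v
    · intro v _
      rw [hJ]
  have e4 : ∑ v, D v * (w (J v) * r (J v)) ^ 2 = ∑ v, D v * (w v * r v) ^ 2 := by
    refine Finset.sum_bij' (fun v _ => J v) (fun v _ => J v) ?_ ?_ ?_ ?_ ?_
    · intros; exact Finset.mem_univ _
    · intros; exact Finset.mem_univ _
    · intro v _; exact hJ v
    · intro v _; exact hJ v
    · intro v _
      rw [hD]
  simp only [e3] at h3
  rw [e4] at h3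
  have e5 : ∑ y, ∑ z, (lam * (∑ v, w v * ψ v y z) ^ 2
      + nu * (∑ v, w v * r v * ψ (J v) y z) ^ 2)
      = lam * ∑ y, ∑ z, (∑ v, w v * ψ v y z) ^ 2
        + nu * ∑ y, ∑ z, (∑ v, w v * r v * ψ (J v) y z) ^ 2 := by
    simp only [Finset.sum_add_distrib, Finset.mul_sum]
  have e6 : ∑ v, (lam + nu * r v ^ 2) * D v * w v ^ 2
      = lam * ∑ v, D v * w v ^ 2 + nu * ∑ v, D v * (w v * r v) ^ 2 := by
    rw [Finset.mul_sum, Finset.mul_sum, ← Finset.sum_add_distrib]
    exact Finset.sum_congr rfl fun v _ => by ring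
  rw [e5, e6]
  nlinarith [mul_le_mul_of_nonneg_left h2 hlam.le, mul_le_mul_of_nonneg_left h3 hnu.le]

/-- The case of the cut factor `x`: `t = s`, `r = x s`, `D = F - s²`. -/
theorem op_ineq_psi (J : Fin N → Fin N) (hJ : ∀ i, J (J i) = i) (s : Fin N → ℝ)
    (hs : ∀ i, s (J i) = - s i) {lam nu : ℝ} (hlam : 0 < lam) (hnu : 0 < nu)
    (g : Fin N → Fin N → ℝ)
    (hg : ∀ y z, z ≠ J y → 2 / nu + |s z| * (|s y| + |s z|) / lam ≤ g y z)
    (hgJ : ∀ y, 2 / nu ≤ g y (J y))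
    (ψ : Fin N → Fin N → Fin N → ℝ) (hψ : ∀ i j k, ψ i j k = - ψ i k j) {F : ℝ}
    (hG : ∀ u : Fin N → ℝ, ∑ y, ∑ z, (∑ v, u v * ψ v y z) ^ 2 ≤ 2 * ∑ v, (F - s v ^ 2) * u v ^ 2)
    (x w : Fin N → ℝ) :
    ∑ y, ∑ z, ((∑ v, w v * (x v * s v) * ψ (J v) y z) + s z * ∑ v, w v * ψ v y (J z)) ^ 2
        / g y z
      ≤ ∑ v, (lam + nu * (x v * s v) ^ 2) * (F - s v ^ 2) * w v ^ 2 :=
  op_ineq_gen J hJ s (fun v => x v * s v) (fun v => F - s v ^ 2) hs
    (fun i => by simp only [hs]; ring) hlam hnu g hg hgJ ψ hψ hG w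

end Pool.HopfEU
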