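import Pool.Agent.Lib.MP_4a593f_gt.EU.Defs
import Pool.Agent.Lib.MP_4a593f_gt.EU.OpIneq

/-!
Euclidean test form, part C in the form used by `EU/Cost.lean`.
-/

namespace Pool.Hopf3.EU

open Finset

variable {N : ℕ}

/-- coupling matrix of the basis vector `y` (symmetric in `v`, `z`) -/
noncomputable def qY (J : Fin N → Fin N) (t : Fin N → ℝ) (psi : Fin N → Fin N → Fin N → ℝ)
    (y v z : Fin N) : ℝ :=
  (1 / 2) * (- t v * psi (J v) y z + t z * psi v y (J z))

/-- weights of the planes `y ∧ z` -/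
noncomputable def gY (J : Fin N → Fin N) (t : Fin N → ℝ) (lam h : ℝ) (y z : Fin N) : ℝ :=
  h + if z = J y then 0 else (t z ^ 2 + |t y| * |t z|) / lam

theorem qY_symm {J : Fin N → Fin N} {t : Fin N → ℝ} (_hJ : NF J t)
    {psi : Fin N → Fin N → Fin N → ℝ} (hp : Form3 psi) (y v z : Fin N) :
    qY J t psi y v z = qY J t psi y z v := by
  unfold qY
  have h1 : psi (J v) y z = - psi z y (J v) := by
    have a1 := hp.s12 (J v) y z
    have a2 := hp.s23 y (J v) z
    have a3 := hp.s12 y z (J v)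
    linarith
  have h2 : psi v y (J z) = - psi (J z) y v := by
    have a1 := hp.s12 v y (J z)
    have a2 := hp.s23 y v (J z)
    have a3 := hp.s12 y (J z) v
    linarith
  rw [h1, h2]
  ring

theorem gY_pos {J : Fin N → Fin N} {t : Fin N → ℝ} {lam h : ℝ} (hlam : 0 < lam) (hh : 0 < h)
    (y z : Fin N) : 0 < gY J t lam h y z := by
  unfold gY
  have : 0 ≤ (t z ^ 2 + |t y| * |t z|) / lam := by positivity
  split_ifs <;> linarith

/-- **Operator inequality (part C).** -/
theorem op_ineq_q {J : Fin N → Fin N} {t : Fin N → ℝ} (hJ : NF J t)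
    {psi : Fin N → Fin N → Fin N → ℝ} (hp : Form3 psi) {lam h : ℝ} (hlam : 0 < lam) (hh : 0 < h)
    (w : Fin N → ℝ) :
    ∑ y, ∑ z, (∑ v, w v * qY J t psi y v z) ^ 2 / gY J t lam h y z
      ≤ (1 / 4) * (lam / 2 * ∑ y, ∑ z, (∑ v, w v * psi v y z) ^ 2
        + 1 / h * ∑ y, ∑ z, (∑ v, w v * t v * psi (J v) y z) ^ 2) := by
  have hnu : (0 : ℝ) < 2 / h := by positivity
  have e2 : (2 : ℝ) / (2 / h) = h := by field_simp
  have h1 := Pool.HopfEU.op_ineq J hJ.inv t hJ.sgn hlam hnu (gY J t lam h)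
    (by
      intro y z hz
      rw [e2]
      unfold gY
      rw [if_neg hz]
      have e3 : |t z| * (|t y| + |t z|) = t z ^ 2 + |t y| * |t z| := by
        rw [← sq_abs (t z)]
        ring
      rw [e3])
    (by
      intro y
      rw [e2]
      unfold gY
      rw [if_pos rfl, add_zero])
    (fun y z => - ∑ v, w v * t v * psi (J v) y z) (fun y z => ∑ v, w v * psi v y z)
    (fun y z => by
      rw [← Finset.sum_neg_distrib]
      exact Finset.sum_congr rfl fun v _ => by rw [hp.s23 v y z]; ring)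
  have e4 : ∀ y z, (∑ v, w v * qY J t psi y v z) ^ 2 / gY J t lam h y z
      = (1 / 4) * ((- (∑ v, w v * t v * psi (J v) y z) + t z * ∑ v, w v * psi v y (J z)) ^ 2
        / gY J t lam h y z) := by
    intro y z
    have e5 : ∑ v, w v * qY J t psi y v z
        = (1 / 2) * (- (∑ v, w v * t v * psi (J v) y z) + t z * ∑ v, w v * psi v y (J z)) := by
      rw [← Finset.sum_neg_distrib, Finset.mul_sum, ← Finset.sum_add_distrib, Finset.mul_sum]
      exact Finset.sum_congr rfl fun v _ => by unfold qY; ring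
    rw [e5]
    ring
  simp only [e4, ← Finset.mul_sum]
  refine (mul_le_mul_of_nonneg_left h1 (by norm_num)).trans (le_of_eq ?_)
  simp only [Finset.sum_add_distrib, ← Finset.mul_sum, neg_sq]
  ring

/-- Part C with the Gram bound of a top direction: `D = F - s²`. -/
theorem op_ineq_D {J : Fin N → Fin N} {t D : Fin N → ℝ} (hJ : NF J t) (hD : ∀ i, D (J i) = D i)
    {psi : Fin N → Fin N → Fin N → ℝ} (hp : Form3 psi) {lam h : ℝ} (hlam : 0 < lam) (hh : 0 < h)
    (hG : ∀ u : Fin N → ℝ, ∑ y, ∑ z, (∑ v, u v * psi v y z) ^ 2 ≤ 2 * ∑ v, D v * u v ^ 2)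
    (w : Fin N → ℝ) :
    ∑ y, ∑ z, (∑ v, w v * qY J t psi y v z) ^ 2 / gY J t lam h y z
      ≤ (1 / 4) * ∑ v, (lam + 2 * t v ^ 2 / h) * D v * w v ^ 2 := by
  refine (op_ineq_q hJ hp hlam hh w).trans ?_
  have h2 := hG w
  have h3 := hG (fun v => w (J v) * t (J v))
  have e3 : ∀ y z, ∑ v, w (J v) * t (J v) * psi v y z = ∑ v, w v * t v * psi (J v) y z := by
    intro y z
    refine Finset.sum_bij' (fun v _ => J v) (fun v _ => J v) ?_ ?_ ?_ ?_ ?_
    · intros; exact Finset.mem_univ _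
    · intros; exact Finset.mem_univ _
    · intro v _; exact hJ.inv v
    · intro v _; exact hJ.inv v
    · intro v _
      rw [hJ.inv]
  have e4 : ∑ v, D v * (w (J v) * t (J v)) ^ 2 = ∑ v, D v * (w v * t v) ^ 2 := by
    refine Finset.sum_bij' (fun v _ => J v) (fun v _ => J v) ?_ ?_ ?_ ?_ ?_
    · intros; exact Finset.mem_univ _
    · intros; exact Finset.mem_univ _
    · intro v _; exact hJ.inv v
    · intro v _; exact hJ.inv v
    · intro v _
      rw [hD]
  simp only [e3] at h3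
  rw [e4] at h3
  have h1h : (0 : ℝ) < 1 / h := by positivity
  have e6 : ∑ v, (lam + 2 * t v ^ 2 / h) * D v * w v ^ 2
      = lam * ∑ v, D v * w v ^ 2 + 2 / h * ∑ v, D v * (w v * t v) ^ 2 := by
    rw [Finset.mul_sum, Finset.mul_sum, ← Finset.sum_add_distrib]
    exact Finset.sum_congr rfl fun v _ => by ring
  rw [e6]
  have e7 : (2 : ℝ) / h = 2 * (1 / h) := by ring
  rw [e7]
  nlinarith [mul_le_mul_of_nonneg_left h2 hlam.le, mul_le_mul_of_nonneg_left h3 h1h.le]

end Pool.Hopf3.EU
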