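import Pool.Agent.Lib.MP_4a593f_gt.EU.Defs
import Pool.Agent.Lib.MP_4a593f_gt.E83.R6.SimDiag
import Pool.Agent.Lib.MP_4a593f_gt.E83.Curv4

/-!
Euclidean test form: the planes `(y + t e) ∧ w`.
-/

namespace Pool.Hopf3.EU

open Finset Matrix

variable {N : ℕ}

private theorem tl_pull (c : Prop) [Decidable c] (g : Fin N → ℝ) :
    ∑ x, (if c then g x else 0) = if c then ∑ x, g x else 0 := by
  split_ifs <;> simp

/-- the sectional curvature of the plane `(y + t e) ∧ w` -/
theorem plane_nonneg {R : Fin (N + 1) → Fin (N + 1) → Fin (N + 1) → Fin (N + 1) → ℝ}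
    (hR : IsCurvature R) (hs : SecIn R 0 1) (y : Fin N) (t : ℝ) (w : Fin N → ℝ) :
    0 ≤ (∑ a, ∑ b, rV R y a y b * (w a * w b)) + 2 * t * (∑ a, ∑ b, rT R a y b * (w a * w b))
      + t ^ 2 * ∑ a, ∑ b, rE R a b * (w a * w b) := by
  have h := (hs (fun i => Fin.cases t (fun i => if i = y then 1 else 0) i)
    (fun i => Fin.cases 0 w i)).1
  rw [zero_mul] at h
  have hT : ∑ a, ∑ b, R y.succ a.succ 0 b.succ * (w a * w b)
      = ∑ a, ∑ b, rT R a y b * (w a * w b) := by
    rw [Finset.sum_comm]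
    refine Finset.sum_congr rfl fun a _ => Finset.sum_congr rfl fun b _ => ?_
    rw [hR.pair 0 a.succ y.succ b.succ]
    unfold rT
    ring
  have e : ev4 R (fun i => Fin.cases t (fun i => if i = y then 1 else 0) i)
      (fun i => Fin.cases 0 w i) (fun i => Fin.cases t (fun i => if i = y then 1 else 0) i)
      (fun i => Fin.cases 0 w i)
      = (∑ a, ∑ b, rV R y a y b * (w a * w b)) + t * (∑ a, ∑ b, rT R a y b * (w a * w b))
        + t * (∑ a, ∑ b, R y.succ a.succ 0 b.succ * (w a * w b))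
        + t ^ 2 * ∑ a, ∑ b, rE R a b * (w a * w b) := by
    unfold ev4
    simp only [Fin.sum_univ_succ (n := N), Fin.cases_zero, Fin.cases_succ, mul_zero,
      zero_mul, Finset.sum_const_zero, zero_add, mul_ite, mul_one, ite_mul,
      Finset.sum_add_distrib]
    simp only [tl_pull, Finset.sum_ite_eq', Finset.mem_univ, if_true, ite_self,
      Finset.sum_const_zero, zero_add]
    have a1 : ∑ x : Fin N, ∑ x_1 : Fin N, R 0 x.succ 0 x_1.succ * t * w x * t * w x_1
        = t ^ 2 * ∑ a, ∑ b, rE R a b * (w a * w b) := by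
      simp only [Finset.mul_sum]
      refine Finset.sum_congr rfl fun a _ => Finset.sum_congr rfl fun b _ => ?_
      unfold rE
      ring
    have a2 : ∑ x : Fin N, ∑ x_1 : Fin N, R 0 x.succ y.succ x_1.succ * t * w x * w x_1
        = t * ∑ a, ∑ b, rT R a y b * (w a * w b) := by
      simp only [Finset.mul_sum]
      refine Finset.sum_congr rfl fun a _ => Finset.sum_congr rfl fun b _ => ?_
      unfold rT
      ring
    have a3 : ∑ x : Fin N, ∑ x_1 : Fin N, R y.succ x.succ 0 x_1.succ * w x * t * w x_1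
        = t * ∑ a, ∑ b, R y.succ a.succ 0 b.succ * (w a * w b) := by
      simp only [Finset.mul_sum]
      refine Finset.sum_congr rfl fun a _ => Finset.sum_congr rfl fun b _ => ?_
      ring
    have a4 : ∑ x : Fin N, ∑ x_1 : Fin N, R y.succ x.succ y.succ x_1.succ * w x * w x_1
        = ∑ a, ∑ b, rV R y a y b * (w a * w b) := by
      refine Finset.sum_congr rfl fun a _ => Finset.sum_congr rfl fun b _ => ?_
      unfold rV
      ring
    linarith
  rw [e, hT] at h
  linarith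

private theorem tl_entry (U : Matrix (Fin N) (Fin N) ℝ) (d : Fin N → ℝ) (a b : Fin N) :
    (U * Matrix.diagonal d * Uᵀ) a b = ∑ i, d i * (U a i * U b i) := by
  rw [Matrix.mul_apply]
  refine Finset.sum_congr rfl fun i _ => ?_
  rw [Matrix.mul_diagonal, Matrix.transpose_apply]
  ring

private theorem tl_swap (U : Matrix (Fin N) (Fin N) ℝ) (d : Fin N → ℝ) (k : Fin N → Fin N → ℝ) :
    ∑ a, ∑ b, (U * Matrix.diagonal d * Uᵀ) a b * k a b
      = ∑ i, d i * ∑ a, ∑ b, k a b * (U a i * U b i) := by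
  simp only [tl_entry, Finset.sum_mul, Finset.mul_sum]
  rw [Finset.sum_congr rfl fun a _ => Finset.sum_comm]
  rw [Finset.sum_comm]
  refine Finset.sum_congr rfl fun i _ => Finset.sum_congr rfl fun a _ =>
    Finset.sum_congr rfl fun b _ => ?_
  ring

/-- the pairing of two positive semidefinite forms -/
theorem psd_pair {M : Matrix (Fin N) (Fin N) ℝ} (hM : Mᵀ = M)
    (hM0 : ∀ w : Fin N → ℝ, 0 ≤ w ⬝ᵥ M *ᵥ w) {k : Fin N → Fin N → ℝ}
    (hk : ∀ w : Fin N → ℝ, 0 ≤ ∑ a, ∑ b, k a b * (w a * w b)) :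
    0 ≤ ∑ a, ∑ b, M a b * k a b := by
  obtain ⟨U, d, _, h2, h3⟩ := spec_real hM
  have hd : ∀ i, 0 ≤ d i := by
    intro i
    have h := hM0 (fun a => U a i)
    have e : (fun a => U a i) ⬝ᵥ M *ᵥ (fun a => U a i) = d i := by
      have e1 : M *ᵥ (fun a => U a i) = d i • fun a => U a i := by
        have e2 : M * U = U * Matrix.diagonal d := by
          rw [h3, Matrix.mul_assoc, h2, Matrix.mul_one]
        funext a
        have e3 := congrFun (congrFun e2 a) i
        rw [Matrix.mul_apply, Matrix.mul_diagonal] at e3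
        rw [Matrix.mulVec, dotProduct, e3, Pi.smul_apply, smul_eq_mul, mul_comm]
      rw [e1, dotProduct_smul]
      have e4 := congrFun (congrFun h2 i) i
      rw [Matrix.mul_apply, Matrix.one_apply_eq] at e4
      have e5 : (fun a => U a i) ⬝ᵥ (fun a => U a i) = 1 := by
        rw [← e4]
        rfl
      rw [e5, smul_eq_mul, mul_one]
    rwa [e] at h
  rw [h3, tl_swap]
  exact Finset.sum_nonneg fun i _ => mul_nonneg (hd i) (hk _)

private theorem tl_rE_nonneg {R : Fin (N + 1) → Fin (N + 1) → Fin (N + 1) → Fin (N + 1) → ℝ}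
    (hs : SecIn R 0 1) (w : Fin N → ℝ) : 0 ≤ ∑ a, ∑ b, rE R a b * (w a * w b) := by
  have h := (hs (fun i => Fin.cases 1 (fun _ => 0) i) (fun i => Fin.cases 0 w i)).1
  rw [zero_mul] at h
  have e : ev4 R (fun i => Fin.cases 1 (fun _ => 0) i) (fun i => Fin.cases 0 w i)
      (fun i => Fin.cases 1 (fun _ => 0) i) (fun i => Fin.cases 0 w i)
      = ∑ a, ∑ b, rE R a b * (w a * w b) := by
    unfold ev4
    simp only [Fin.sum_univ_succ (n := N), Fin.cases_zero, Fin.cases_succ, mul_zero,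
      zero_mul, Finset.sum_const_zero, zero_add, mul_one, add_zero]
    refine Finset.sum_congr rfl fun a _ => Finset.sum_congr rfl fun b _ => ?_
    unfold rE
    ring
  rwa [e] at h

/-- **Tilting.** A positive semidefinite block matrix `[H, Z; Z, P]` with symmetric off-diagonal
block is a sum of planes `(y + t e) ∧ w`. -/
theorem tilt {R : Fin (N + 1) → Fin (N + 1) → Fin (N + 1) → Fin (N + 1) → ℝ}
    (hR : IsCurvature R) (hs : SecIn R 0 1) (y : Fin N) {H Z P : Matrix (Fin N) (Fin N) ℝ}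
    (hH : H.PosDef) (hZ : Zᵀ = Z) (hP : Pᵀ = P)
    (hblk : ∀ a w : Fin N → ℝ, 0 ≤ a ⬝ᵥ H *ᵥ a + 2 * (a ⬝ᵥ Z *ᵥ w) + w ⬝ᵥ P *ᵥ w) :
    0 ≤ (∑ a, ∑ b, H a b * rV R y a y b) + 2 * (∑ a, ∑ b, Z a b * rT R a y b)
      + ∑ a, ∑ b, P a b * rE R a b := by
  obtain ⟨W, th, hW, hHW, hZW⟩ := simdiag hH hZ
  set D : Matrix (Fin N) (Fin N) ℝ := W * Matrix.diagonal (fun k => th k ^ 2) * Wᵀ with hD
  have hDt : Dᵀ = D := by
    rw [hD, Matrix.transpose_mul, Matrix.transpose_mul, Matrix.transpose_transpose,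
      Matrix.diagonal_transpose, Matrix.mul_assoc]
  have hWt : IsUnit Wᵀ := (Matrix.isUnit_transpose W).2 hW
  have hquad : ∀ (d : Fin N → ℝ) (u v : Fin N → ℝ),
      u ⬝ᵥ (W * Matrix.diagonal d * Wᵀ) *ᵥ v = ∑ k, d k * ((Wᵀ *ᵥ u) k * (Wᵀ *ᵥ v) k) := by
    intro d u v
    rw [← Matrix.mulVec_mulVec, ← Matrix.mulVec_mulVec, Matrix.dotProduct_mulVec,
      ← Matrix.mulVec_transpose, dotProduct]
    refine Finset.sum_congr rfl fun k _ => ?_
    rw [Matrix.mulVec_diagonal]
    ring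
  have hH1 : H = W * Matrix.diagonal (fun _ => 1) * Wᵀ := by
    rw [hHW]
    have : Matrix.diagonal (fun _ : Fin N => (1 : ℝ)) = 1 := Matrix.diagonal_one
    rw [this, Matrix.mul_one]
  have hPD : ∀ w : Fin N → ℝ, 0 ≤ w ⬝ᵥ (P - D) *ᵥ w := by
    intro w
    set a : Fin N → ℝ := (Wᵀ)⁻¹ *ᵥ (fun k => - (th k * (Wᵀ *ᵥ w) k)) with ha
    have ha1 : Wᵀ *ᵥ a = fun k => - (th k * (Wᵀ *ᵥ w) k) := by
      rw [ha, Matrix.mulVec_mulVec, Matrix.mul_nonsing_inv _ ((Matrix.isUnit_iff_isUnit_det _).1 hWt),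
        Matrix.one_mulVec]
    have h := hblk a w
    rw [hH1, hZW, hquad, hquad, ha1] at h
    rw [Matrix.sub_mulVec, dotProduct_sub, hD, hquad]
    have e : (∑ k, (1 : ℝ) * (-(th k * (Wᵀ *ᵥ w) k) * -(th k * (Wᵀ *ᵥ w) k)))
        + 2 * (∑ k, th k * (-(th k * (Wᵀ *ᵥ w) k) * (Wᵀ *ᵥ w) k))
        = - ∑ k, th k ^ 2 * ((Wᵀ *ᵥ w) k * (Wᵀ *ᵥ w) k) := by
      rw [Finset.mul_sum, ← Finset.sum_add_distrib, ← Finset.sum_neg_distrib]
      exact Finset.sum_congr rfl fun k _ => by ring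
    linarith
  have h1 := psd_pair (M := P - D) (by rw [Matrix.transpose_sub, hP, hDt]) hPD (tl_rE_nonneg hs)
  have e1 : ∑ a, ∑ b, (P - D) a b * rE R a b
      = (∑ a, ∑ b, P a b * rE R a b) - ∑ a, ∑ b, D a b * rE R a b := by
    simp only [Matrix.sub_apply, sub_mul, Finset.sum_sub_distrib]
  rw [e1] at h1
  have e2 : (∑ a, ∑ b, H a b * rV R y a y b) + 2 * (∑ a, ∑ b, Z a b * rT R a y b)
      + ∑ a, ∑ b, D a b * rE R a b
      = ∑ i, ((∑ a, ∑ b, rV R y a y b * (W a i * W b i))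
        + 2 * th i * (∑ a, ∑ b, rT R a y b * (W a i * W b i))
        + th i ^ 2 * ∑ a, ∑ b, rE R a b * (W a i * W b i)) := by
    conv_lhs => rw [hH1, hZW]
    rw [hD, tl_swap, tl_swap, tl_swap, Finset.mul_sum, ← Finset.sum_add_distrib,
      ← Finset.sum_add_distrib]
    exact Finset.sum_congr rfl fun i _ => by ring
  have h2 : 0 ≤ ∑ i, ((∑ a, ∑ b, rV R y a y b * (W a i * W b i))
        + 2 * th i * (∑ a, ∑ b, rT R a y b * (W a i * W b i))
        + th i ^ 2 * ∑ a, ∑ b, rE R a b * (W a i * W b i)) :=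
    Finset.sum_nonneg fun i _ => plane_nonneg hR hs y (th i) fun a => W a i
  rw [← e2] at h2
  linarith

/-- Tilting with a diagonal `H` and the smallest `P`. -/
theorem tilt_diag {R : Fin (N + 1) → Fin (N + 1) → Fin (N + 1) → Fin (N + 1) → ℝ}
    (hR : IsCurvature R) (hs : SecIn R 0 1) (y : Fin N) {g : Fin N → ℝ} (hg : ∀ z, 0 < g z)
    {q : Fin N → Fin N → ℝ} (hq : ∀ a b, q a b = q b a) :
    0 ≤ (∑ z, g z * rV R y z y z) + 2 * (∑ a, ∑ b, q a b * rT R a y b)
      + ∑ a, ∑ b, (∑ z, q a z * q b z / g z) * rE R a b := by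
  have h := tilt hR hs y (H := Matrix.diagonal g) (Z := Matrix.of q)
    (P := Matrix.of fun a b => ∑ z, q a z * q b z / g z)
    (Matrix.PosDef.diagonal hg)
    (by ext a b; simp [Matrix.transpose_apply, hq a b])
    (by
      ext a b
      simp only [Matrix.transpose_apply, Matrix.of_apply]
      exact Finset.sum_congr rfl fun z _ => by rw [mul_comm (q b z)])
    (by
      intro a w
      have e1 : a ⬝ᵥ (Matrix.diagonal g) *ᵥ a = ∑ z, g z * a z ^ 2 := by
        rw [dotProduct]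
        refine Finset.sum_congr rfl fun z _ => ?_
        rw [Matrix.mulVec_diagonal]
        ring
      have e2 : a ⬝ᵥ (Matrix.of q) *ᵥ w = ∑ z, a z * ∑ b, q z b * w b := rfl
      have e3 : w ⬝ᵥ (Matrix.of fun a b => ∑ z, q a z * q b z / g z) *ᵥ w
          = ∑ z, (∑ b, q z b * w b) ^ 2 / g z := by
        have e4 : w ⬝ᵥ (Matrix.of fun a b => ∑ z, q a z * q b z / g z) *ᵥ w
            = ∑ c, ∑ b, ∑ z, w c * (q c z * q b z / g z * w b) := by
          rw [dotProduct]
          refine Finset.sum_congr rfl fun c _ => ?_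
          rw [Matrix.mulVec, dotProduct, Finset.mul_sum]
          refine Finset.sum_congr rfl fun b _ => ?_
          rw [Matrix.of_apply, Finset.sum_mul, Finset.mul_sum]
        rw [e4, Finset.sum_congr rfl fun c _ => Finset.sum_comm, Finset.sum_comm]
        refine Finset.sum_congr rfl fun z _ => ?_
        rw [sq, Finset.sum_mul_sum, Finset.sum_div]
        refine Finset.sum_congr rfl fun c _ => ?_
        rw [Finset.sum_div]
        refine Finset.sum_congr rfl fun b _ => ?_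
        rw [hq c z, hq b z]
        ring
      rw [e1, e2, e3, Finset.mul_sum, ← Finset.sum_add_distrib, ← Finset.sum_add_distrib]
      refine Finset.sum_nonneg fun z _ => ?_
      have h0 := hg z
      have e5 : g z * a z ^ 2 + 2 * (a z * ∑ b, q z b * w b) + (∑ b, q z b * w b) ^ 2 / g z
          = (g z * a z + ∑ b, q z b * w b) ^ 2 / g z := by
        field_simp
        ring
      rw [e5]
      positivity)
  have e1 : ∑ a, ∑ b, (Matrix.diagonal g) a b * rV R y a y b = ∑ z, g z * rV R y z y z := by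
    refine Finset.sum_congr rfl fun z _ => ?_
    simp [Matrix.diagonal_apply]
  rw [e1] at h
  exact h

end Pool.Hopf3.EU
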