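import Pool.Agent.Lib.MP_4a593f_gt.EU.Defs

/-!
Positivity of `R(e,·,e,·)` and the trace inequality used for the planes through `e`.
-/

namespace Pool.Hopf3.EU

open Finset Matrix
open scoped MatrixOrder

variable {N : ℕ}

/-- a positive semidefinite matrix is a sum of squares -/
theorem psd_decomp {ι : Type} [Fintype ι] [DecidableEq ι] (M : ι → ι → ℝ)
    (hs : ∀ i j, M i j = M j i)
    (hp : ∀ w : ι → ℝ, 0 ≤ ∑ i, ∑ j, M i j * w i * w j) :
    ∃ B : ι → ι → ℝ, ∀ i j, M i j = ∑ k, B k i * B k j := by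
  have hM : (Matrix.of M).PosSemidef := by
    refine Matrix.PosSemidef.of_dotProduct_mulVec_nonneg ?_ ?_
    · ext i j
      simp [Matrix.conjTranspose_apply, hs i j]
    · intro x
      have h := hp x
      have e : star x ⬝ᵥ (Matrix.of M) *ᵥ x = ∑ i, ∑ j, M i j * x i * x j := by
        simp only [dotProduct, mulVec, Pi.star_apply, star_trivial, Matrix.of_apply]
        refine Finset.sum_congr rfl fun i _ => ?_
        rw [Finset.mul_sum]
        refine Finset.sum_congr rfl fun j _ => ?_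
        ring
      rw [e]
      exact h
  obtain ⟨B, hB⟩ := CStarAlgebra.nonneg_iff_eq_star_mul_self.mp hM.nonneg
  refine ⟨fun k i => B k i, fun i j => ?_⟩
  have h := congrFun (congrFun hB i) j
  rw [Matrix.star_eq_conjTranspose, Matrix.conjTranspose_eq_transpose_of_trivial,
    Matrix.mul_apply] at h
  exact h

/-- `R(e,w,e,w)` in components -/
theorem ev4_e (R : Fin (N + 1) → Fin (N + 1) → Fin (N + 1) → Fin (N + 1) → ℝ) (w : Fin N → ℝ) :
    ev4 R (Fin.cons (α := fun _ => ℝ) 1 0) (Fin.cons (α := fun _ => ℝ) 0 w)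
      (Fin.cons (α := fun _ => ℝ) 1 0) (Fin.cons (α := fun _ => ℝ) 0 w)
      = ∑ i, ∑ j, rE R i j * w i * w j := by
  unfold ev4 rE
  simp only [Fin.sum_univ_succ, Fin.cons_zero, Fin.cons_succ, Pi.zero_apply, mul_zero, zero_mul,
    Finset.sum_const_zero, add_zero, zero_add, mul_one]

theorem dotp_e : dotp (Fin.cons (α := fun _ => ℝ) 1 0 : Fin (N + 1) → ℝ)
    (Fin.cons (α := fun _ => ℝ) 1 0) = 1 := by
  unfold dotp
  simp [Fin.sum_univ_succ]

theorem dotp_e_w (w : Fin N → ℝ) : dotp (Fin.cons (α := fun _ => ℝ) 1 0 : Fin (N + 1) → ℝ)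
    (Fin.cons (α := fun _ => ℝ) 0 w) = 0 := by
  unfold dotp
  simp [Fin.sum_univ_succ]

theorem dotp_w_w (w : Fin N → ℝ) : dotp (Fin.cons (α := fun _ => ℝ) 0 w : Fin (N + 1) → ℝ)
    (Fin.cons (α := fun _ => ℝ) 0 w) = ∑ i, w i ^ 2 := by
  unfold dotp
  simp [Fin.sum_univ_succ, sq]

theorem rE_nonneg {R : Fin (N + 1) → Fin (N + 1) → Fin (N + 1) → Fin (N + 1) → ℝ}
    (h : SecIn R 0 1) (w : Fin N → ℝ) : 0 ≤ ∑ i, ∑ j, rE R i j * w i * w j := by
  have h1 := (h (Fin.cons (α := fun _ => ℝ) 1 0) (Fin.cons (α := fun _ => ℝ) 0 w)).1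
  rw [ev4_e] at h1
  linarith

theorem rE_le {R : Fin (N + 1) → Fin (N + 1) → Fin (N + 1) → Fin (N + 1) → ℝ}
    (h : SecIn R 0 1) (w : Fin N → ℝ) : ∑ i, ∑ j, rE R i j * w i * w j ≤ ∑ i, w i ^ 2 := by
  have h1 := (h (Fin.cons (α := fun _ => ℝ) 1 0) (Fin.cons (α := fun _ => ℝ) 0 w)).2
  rw [ev4_e, dotp_e, dotp_e_w, dotp_w_w] at h1
  linarith

theorem rE_diag_nonneg {R : Fin (N + 1) → Fin (N + 1) → Fin (N + 1) → Fin (N + 1) → ℝ}
    (h : SecIn R 0 1) (v : Fin N) : 0 ≤ rE R v v := by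
  have h1 := rE_nonneg h (fun a => if a = v then 1 else 0)
  simpa using h1

theorem rE_diag_le {R : Fin (N + 1) → Fin (N + 1) → Fin (N + 1) → Fin (N + 1) → ℝ}
    (h : SecIn R 0 1) (v : Fin N) : rE R v v ≤ 1 := by
  have h1 := rE_le h (fun a => if a = v then 1 else 0)
  simpa using h1

/-- `tr (M K_e) ≥ 0` for positive semidefinite `M` -/
theorem tr_nonneg {R : Fin (N + 1) → Fin (N + 1) → Fin (N + 1) → Fin (N + 1) → ℝ}
    (h : SecIn R 0 1) (M : Fin N → Fin N → ℝ) (hs : ∀ i j, M i j = M j i)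
    (hp : ∀ w : Fin N → ℝ, 0 ≤ ∑ i, ∑ j, M i j * w i * w j) :
    0 ≤ ∑ i, ∑ j, M i j * rE R i j := by
  obtain ⟨B, hB⟩ := psd_decomp M hs hp
  have e : ∑ i, ∑ j, M i j * rE R i j = ∑ k, ∑ i, ∑ j, rE R i j * B k i * B k j := by
    calc ∑ i, ∑ j, M i j * rE R i j = ∑ i, ∑ j, ∑ k, rE R i j * B k i * B k j := by
          refine Finset.sum_congr rfl fun i _ => Finset.sum_congr rfl fun j _ => ?_
          rw [hB i j, Finset.sum_mul]
          exact Finset.sum_congr rfl fun k _ => by ring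
      _ = ∑ i, ∑ k, ∑ j, rE R i j * B k i * B k j := by
          refine Finset.sum_congr rfl fun i _ => Finset.sum_comm
      _ = _ := Finset.sum_comm
  rw [e]
  exact Finset.sum_nonneg fun k _ => rE_nonneg h (B k)

/-- If `E ≤ diag d` then `tr (E K_e) ≤ ∑ d_v K_e(v,v)`. -/
theorem tr_le_diag {R : Fin (N + 1) → Fin (N + 1) → Fin (N + 1) → Fin (N + 1) → ℝ}
    (h : SecIn R 0 1) (E : Fin N → Fin N → ℝ) (hs : ∀ i j, E i j = E j i) (d : Fin N → ℝ)
    (hE : ∀ w : Fin N → ℝ, ∑ i, ∑ j, E i j * w i * w j ≤ ∑ v, d v * w v ^ 2) :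
    ∑ i, ∑ j, E i j * rE R i j ≤ ∑ v, d v * rE R v v := by
  have h1 := tr_nonneg h (fun i j => (if i = j then d i else 0) - E i j) (fun i j => by
    by_cases hij : i = j
    · subst hij; rfl
    · rw [if_neg hij, if_neg (Ne.symm hij), hs i j]) (fun w => by
    have e : ∑ i, ∑ j, ((if i = j then d i else 0) - E i j) * w i * w j
        = (∑ v, d v * w v ^ 2) - ∑ i, ∑ j, E i j * w i * w j := by
      rw [← Finset.sum_sub_distrib]
      refine Finset.sum_congr rfl fun i _ => ?_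
      simp only [sub_mul, Finset.sum_sub_distrib, ite_mul, zero_mul, Finset.sum_ite_eq,
        Finset.mem_univ, if_true]
      ring
    rw [e]
    linarith [hE w])
  have e : ∑ i, ∑ j, ((if i = j then d i else 0) - E i j) * rE R i j
      = (∑ v, d v * rE R v v) - ∑ i, ∑ j, E i j * rE R i j := by
    rw [← Finset.sum_sub_distrib]
    refine Finset.sum_congr rfl fun i _ => ?_
    simp only [sub_mul, Finset.sum_sub_distrib, ite_mul, zero_mul, Finset.sum_ite_eq,
      Finset.mem_univ, if_true]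
  rw [e] at h1
  linarith

/-- The part of the curvature term on the planes through `e`: weight `g_v` on `K(e,v)`, overdrawn
by `E ≤ diag d`, costs at most the sum of the overdrafts. -/
theorem e_part {R : Fin (N + 1) → Fin (N + 1) → Fin (N + 1) → Fin (N + 1) → ℝ}
    (h : SecIn R 0 1) (E : Fin N → Fin N → ℝ) (hs : ∀ i j, E i j = E j i) (d g : Fin N → ℝ)
    (hE : ∀ w : Fin N → ℝ, ∑ i, ∑ j, E i j * w i * w j ≤ ∑ v, d v * w v ^ 2) :
    - ∑ v, max (d v - g v) 0 ≤ (∑ v, g v * rE R v v) - ∑ i, ∑ j, E i j * rE R i j := by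
  have h1 := tr_le_diag h E hs d hE
  have h2 : ∑ v, (d v - g v) * rE R v v ≤ ∑ v, max (d v - g v) 0 := by
    refine Finset.sum_le_sum fun v _ => ?_
    have h3 := rE_diag_nonneg h v
    have h4 := rE_diag_le h v
    have h5 := le_max_left (d v - g v) 0
    have h6 := le_max_right (d v - g v) 0
    nlinarith
  simp only [sub_mul, Finset.sum_sub_distrib] at h2
  linarith

end Pool.Hopf3.EU
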