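import Pool.Agent.Lib.MP_4a593f_gt.EU.Defs
import Pool.Agent.Lib.MP_4a593f_gt.E83.Curv4

/-!
Euclidean test form, part D: the curvature term of 2-forms on a normal form, sectional curvature in
`[0,1]`.
-/

namespace Pool.Hopf3.EU

open Finset

variable {N : ℕ}

/-- basis vector -/
def bv (a : Fin N) (b : Fin N) : ℝ := if b = a then 1 else 0

theorem ev4_bv (R : Fin N → Fin N → Fin N → Fin N → ℝ) (a b c d : Fin N) :
    ev4 R (bv a) (bv b) (bv c) (bv d) = R a b c d := by
  unfold ev4 bv
  simp

theorem dotp_bv (a b : Fin N) : dotp (bv a) (bv b) = if a = b then 1 else 0 := by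
  unfold dotp bv
  simp [eq_comm]

theorem NF.fix {J : Fin N → Fin N} {s : Fin N → ℝ} (h : NF J s) {i : Fin N} (hi : J i = i) :
    s i = 0 := by
  have := h.sgn i
  rw [hi] at this
  linarith

theorem NF.inj {J : Fin N → Fin N} {s : Fin N → ℝ} (h : NF J s) {i j : Fin N} (hij : J i = J j) :
    i = j := by
  rw [← h.inv i, hij, h.inv]

/-- Berger's estimate for basis vectors -/
theorem berger_bv {R : Fin N → Fin N → Fin N → Fin N → ℝ} (hR : IsCurvature R)
    (hs : SecIn R 0 1) {a b c d : Fin N} (hab : a ≠ b) (hac : a ≠ c) (had : a ≠ d) (hbc : b ≠ c)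
    (hbd : b ≠ d) (hcd : c ≠ d) : |R a b c d| ≤ 2 / 3 := by
  have h := berger hR hs ![bv a, bv b, bv c, bv d] (by
    intro i j
    fin_cases i <;> fin_cases j <;>
      simp [dotp_bv, hab, hac, had, hbc, hbd, hcd, hab.symm, hac.symm, had.symm, hbc.symm,
        hbd.symm, hcd.symm])
  simpa [ev4_bv] using h

theorem w2_ge {J : Fin N → Fin N} {s : Fin N → ℝ} (h : NF J s)
    {R : Fin N → Fin N → Fin N → Fin N → ℝ} (hR : IsCurvature R) (hs : SecIn R 0 1) :
    1 / 2 * ∑ v, ∑ w, (if w = v ∨ w = J v then 0 else (s v ^ 2 + s w ^ 2) * R v w v w)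
      - 1 / 3 * ∑ v, ∑ w, (if w = v ∨ w = J v then 0 else |s v| * |s w|)
      ≤ w2 R (nfA J s) := by
  have hc : ∀ v w : Fin N, (w = v ∨ w = J v) ↔ (v = w ∨ v = J w) := by
    intro v w
    constructor
    · rintro (h1 | h1)
      · exact Or.inl h1.symm
      · exact Or.inr (by rw [h1, h.inv])
    · rintro (h1 | h1)
      · exact Or.inl h1.symm
      · exact Or.inr (by rw [h1, h.inv])
  have hz : ∀ v w : Fin N, R v v w w = 0 := fun v w => by
    have := hR.skew12 v v w w
    linarith
  have hz' : ∀ v w a : Fin N, R v v w a = 0 := fun v w a => by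
    have := hR.skew12 v v w a
    linarith
  -- first term
  have e1 : ∀ v w : Fin N, ∑ b, nfA J s v b * nfA J s w b = if v = w then s v ^ 2 else 0 := by
    intro v w
    unfold nfA
    have e : ∀ b : Fin N, (if b = J v then s v else 0) * (if b = J w then s w else 0)
        = if b = J v then (if b = J w then s v * s w else 0) else 0 := by
      intro b
      split_ifs <;> ring
    simp only [e, Finset.sum_ite_eq', Finset.mem_univ, if_true]
    by_cases hvw : v = w
    · subst hvw
      simp only [if_true]
      ring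
    · rw [if_neg hvw, if_neg (fun hh => hvw (h.inj hh))]
  have e2 : (∑ v, ∑ w, (∑ u, R v u w u) * ∑ b, nfA J s v b * nfA J s w b)
      = ∑ v, ∑ u, R v u v u * s v ^ 2 := by
    refine Finset.sum_congr rfl fun v _ => ?_
    simp only [e1, mul_ite, mul_zero, Finset.sum_ite_eq, Finset.mem_univ, if_true]
    rw [Finset.sum_mul]
  have e3 : ∀ v : Fin N, ∑ u, R v u v u * s v ^ 2 = R v (J v) v (J v) * s v ^ 2
      + ∑ w, (if w = v ∨ w = J v then 0 else s v ^ 2 * R v w v w) := by
    intro v
    have e : ∀ u, R v u v u * s v ^ 2 = (if u = J v then R v (J v) v (J v) * s v ^ 2 else 0)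
        + (if u = v ∨ u = J v then 0 else s v ^ 2 * R v u v u) := by
      intro u
      by_cases h1 : u = J v
      · subst h1
        simp
      · by_cases h2 : u = v
        · subst h2
          simp [h1, hz']
        · simp only [h1, h2, or_self, if_false]
          ring
    rw [Finset.sum_congr rfl fun u _ => e u, Finset.sum_add_distrib]
    simp
  -- second term
  have e4 : (∑ i, ∑ j, ∑ k, ∑ l, R i j k l * nfA J s i j * nfA J s k l)
      = ∑ i, ∑ k, R i (J i) k (J k) * (s i * s k) := by
    refine Finset.sum_congr rfl fun i _ => ?_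
    rw [Finset.sum_eq_single (J i)]
    · refine Finset.sum_congr rfl fun k _ => ?_
      rw [Finset.sum_eq_single (J k)]
      · simp only [nfA, if_true]
        ring
      · intro l _ hl
        simp [nfA, hl]
      · intro hh
        exact absurd (Finset.mem_univ _) hh
    · intro j _ hj
      simp [nfA, hj]
    · intro hh
      exact absurd (Finset.mem_univ _) hh
  have e5 : ∀ i : Fin N, ∑ k, R i (J i) k (J k) * (s i * s k)
      = 2 * (R i (J i) i (J i) * s i ^ 2)
        + ∑ k, (if k = i ∨ k = J i then 0 else R i (J i) k (J k) * (s i * s k)) := by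
    intro i
    by_cases hi : J i = i
    · have h0 := h.fix hi
      simp [h0]
    · have e : ∀ k, R i (J i) k (J k) * (s i * s k)
          = (if k = i then R i (J i) i (J i) * s i ^ 2 else 0)
            + (if k = J i then R i (J i) i (J i) * s i ^ 2 else 0)
            + (if k = i ∨ k = J i then 0 else R i (J i) k (J k) * (s i * s k)) := by
        intro k
        by_cases h1 : k = i
        · subst h1
          have h2 : ¬ k = J k := fun hh => hi hh.symm
          simp only [if_true, true_or, if_neg h2]
          ring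
        · by_cases h2 : k = J i
          · subst h2
            simp only [h1, if_false, if_true, false_or, h.inv, h.sgn]
            rw [hR.skew34 i (J i) i (J i)]
            ring
          · simp [h1, h2]
      rw [Finset.sum_congr rfl fun k _ => e k, Finset.sum_add_distrib, Finset.sum_add_distrib]
      simp only [Finset.sum_ite_eq', Finset.mem_univ, if_true]
      ring
  have e6 : w2 R (nfA J s)
      = (∑ v, ∑ w, (if w = v ∨ w = J v then 0 else s v ^ 2 * R v w v w))
        - 1 / 2 * ∑ v, ∑ w, (if w = v ∨ w = J v then 0 else R v (J v) w (J w) * (s v * s w)) := by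
    unfold w2
    rw [e2, e4]
    simp only [e3, e5, Finset.sum_add_distrib, ← Finset.mul_sum]
    ring
  -- symmetrisation
  have e7 : ∑ v, ∑ w, (if w = v ∨ w = J v then 0 else (s v ^ 2 + s w ^ 2) * R v w v w)
      = 2 * ∑ v, ∑ w, (if w = v ∨ w = J v then 0 else s v ^ 2 * R v w v w) := by
    have e : ∀ v w, (if w = v ∨ w = J v then 0 else (s v ^ 2 + s w ^ 2) * R v w v w)
        = (if w = v ∨ w = J v then 0 else s v ^ 2 * R v w v w)
          + (if v = w ∨ v = J w then 0 else s w ^ 2 * R w v w v) := by
      intro v w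
      have hvw := hc v w
      by_cases h1 : w = v ∨ w = J v
      · rw [if_pos h1, if_pos h1, if_pos (hvw.1 h1)]
        ring
      · rw [if_neg h1, if_neg h1, if_neg (fun hh => h1 (hvw.2 hh)), hR.skew12 v w w v,
          hR.skew34 v w v w]
        ring
    simp only [e, Finset.sum_add_distrib]
    rw [Finset.sum_comm (f := fun v w => if v = w ∨ v = J w then 0 else s w ^ 2 * R w v w v)]
    ring
  -- Berger
  have e8 : ∑ v, ∑ w, (if w = v ∨ w = J v then 0 else R v (J v) w (J w) * (s v * s w))
      ≤ ∑ v, ∑ w, 2 / 3 * (if w = v ∨ w = J v then 0 else |s v| * |s w|) := by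
    refine Finset.sum_le_sum fun v _ => Finset.sum_le_sum fun w _ => ?_
    by_cases h1 : w = v ∨ w = J v
    · simp [h1]
    · rw [if_neg h1, if_neg h1]
      rw [not_or] at h1
      by_cases hv : J v = v
      · simp [h.fix hv]
      · by_cases hw : J w = w
        · simp [h.fix hw]
        · have hb : |R v (J v) w (J w)| ≤ 2 / 3 := by
            refine berger_bv hR hs (fun hh => hv hh.symm) (fun hh => h1.1 hh.symm)
              (fun hh => h1.2 ?_) (fun hh => h1.2 hh.symm) (fun hh => h1.1 (h.inj hh).symm)
              (fun hh => hw hh.symm)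
            rw [hh, h.inv]
          calc R v (J v) w (J w) * (s v * s w)
              ≤ |R v (J v) w (J w) * (s v * s w)| := le_abs_self _
            _ = |R v (J v) w (J w)| * (|s v| * |s w|) := by rw [abs_mul, abs_mul]
            _ ≤ 2 / 3 * (|s v| * |s w|) :=
              mul_le_mul_of_nonneg_right hb (mul_nonneg (abs_nonneg _) (abs_nonneg _))
  simp only [← Finset.mul_sum] at e8
  rw [e6, e7]
  linarith

end Pool.Hopf3.EU
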