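import Pool.Agent.Lib.MP_4a593f_gt.EU.Ident
import Pool.Agent.Lib.MP_4a593f_gt.EU.Tilt
import Pool.Agent.Lib.MP_4a593f_gt.EU.OpIneqQ
import Pool.Agent.Lib.MP_4a593f_gt.EU.TrIneq
import Pool.Agent.Lib.MP_4a593f_gt.EU.W2

/-!
Euclidean test form: the total cost (part G).
-/

namespace Pool.Hopf3.EU

open Finset

variable {N : ℕ}

/-- the coupling of `ψ` with a matrix `B` -/
def cpl (R : Fin (N + 1) → Fin (N + 1) → Fin (N + 1) → Fin (N + 1) → ℝ)
    (χ : Fin (N + 1) → Fin (N + 1) → Fin (N + 1) → ℝ) (B : Fin N → Fin N → ℝ) : ℝ :=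
  ∑ l, ∑ i, ∑ j, ∑ a, rT R l i j * psV χ i j a * B l a

theorem cpl_nfA (R : Fin (N + 1) → Fin (N + 1) → Fin (N + 1) → Fin (N + 1) → ℝ)
    (χ : Fin (N + 1) → Fin (N + 1) → Fin (N + 1) → ℝ) (J : Fin N → Fin N) (t : Fin N → ℝ) :
    cpl R χ (nfA J t) = ∑ l, ∑ i, ∑ j, rT R l i j * psV χ i j (J l) * t l := by
  unfold cpl nfA
  refine Finset.sum_congr rfl fun l _ => Finset.sum_congr rfl fun i _ =>
    Finset.sum_congr rfl fun j _ => ?_
  simp

theorem cpl_split (R : Fin (N + 1) → Fin (N + 1) → Fin (N + 1) → Fin (N + 1) → ℝ)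
    (χ : Fin (N + 1) → Fin (N + 1) → Fin (N + 1) → ℝ) (J : Fin N → Fin N) (s t : Fin N → ℝ) :
    cpl R χ (nfA J s) = cpl R χ (nfA J t) + cpl R χ (nfA J fun v => s v - t v) := by
  rw [cpl_nfA, cpl_nfA, cpl_nfA, ← Finset.sum_add_distrib]
  refine Finset.sum_congr rfl fun l _ => ?_
  rw [← Finset.sum_add_distrib]
  refine Finset.sum_congr rfl fun i _ => ?_
  rw [← Finset.sum_add_distrib]
  exact Finset.sum_congr rfl fun j _ => by ring

theorem psV_form {χ : Fin (N + 1) → Fin (N + 1) → Fin (N + 1) → ℝ} (h : Form3 χ) :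
    Form3 (psV χ) :=
  ⟨fun i j k => h.s12 i.succ j.succ k.succ, fun i j k => h.s23 i.succ j.succ k.succ⟩

theorem rV_curv {R : Fin (N + 1) → Fin (N + 1) → Fin (N + 1) → Fin (N + 1) → ℝ}
    (hR : IsCurvature R) : IsCurvature (rV R) :=
  ⟨fun _ _ _ _ => hR.skew12 _ _ _ _, fun _ _ _ _ => hR.skew34 _ _ _ _,
    fun _ _ _ _ => hR.bianchi _ _ _ _⟩

theorem rV_sec {R : Fin (N + 1) → Fin (N + 1) → Fin (N + 1) → Fin (N + 1) → ℝ}
    (hs : SecIn R 0 1) : SecIn (rV R) 0 1 := by
  intro u v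
  have h := hs (fun i => Fin.cases 0 u i) (fun i => Fin.cases 0 v i)
  have e1 : ∀ a b : Fin N → ℝ, dotp (fun i : Fin (N + 1) => Fin.cases 0 a i)
      (fun i => Fin.cases 0 b i) = dotp a b := by
    intro a b
    unfold dotp
    simp [Fin.sum_univ_succ]
  have e2 : ev4 R (fun i => Fin.cases 0 u i) (fun i => Fin.cases 0 v i)
      (fun i => Fin.cases 0 u i) (fun i => Fin.cases 0 v i) = ev4 (rV R) u v u v := by
    unfold ev4 rV
    simp only [Fin.sum_univ_succ (n := N), Fin.cases_zero, Fin.cases_succ, mul_zero, zero_mul,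
      Finset.sum_const_zero, zero_add]
  rw [e1, e1, e1, e2] at h
  exact h

theorem rV_mem {R : Fin (N + 1) → Fin (N + 1) → Fin (N + 1) → Fin (N + 1) → ℝ}
    (hs : SecIn R 0 1) {v w : Fin N} (hvw : v ≠ w) :
    0 ≤ rV R v w v w ∧ rV R v w v w ≤ 1 := by
  have h := rV_sec hs (bv v) (bv w)
  rw [ev4_bv, dotp_bv, dotp_bv, dotp_bv, if_pos rfl, if_pos rfl, if_neg hvw] at h
  constructor
  · linarith [h.1]
  · linarith [h.2]

private theorem ct_bianchi {R : Fin (N + 1) → Fin (N + 1) → Fin (N + 1) → Fin (N + 1) → ℝ}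
    (hR : IsCurvature R) (a y b : Fin N) : rT R b y a - rT R y b a = rT R a y b := by
  unfold rT
  have h1 := hR.bianchi b.succ y.succ a.succ 0
  have p1 := hR.pair 0 b.succ y.succ a.succ
  have p2 := hR.pair 0 y.succ b.succ a.succ
  have p3 := hR.pair 0 a.succ y.succ b.succ
  have s1 := hR.skew34 b.succ y.succ a.succ 0
  have s2 := hR.skew34 y.succ a.succ b.succ 0
  have s3 := hR.skew34 a.succ b.succ y.succ 0
  have q1 := hR.pair 0 a.succ b.succ y.succ
  have q2 := hR.pair 0 b.succ y.succ a.succ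
  have q3 := hR.pair 0 y.succ a.succ b.succ
  have r1 := hR.skew34 0 y.succ b.succ a.succ
  have r2 := hR.skew34 0 a.succ b.succ y.succ
  linarith

/-- The coupling in terms of the symmetric matrices `q_y`. -/
theorem cpl_eq {R : Fin (N + 1) → Fin (N + 1) → Fin (N + 1) → Fin (N + 1) → ℝ}
    (hR : IsCurvature R) {χ : Fin (N + 1) → Fin (N + 1) → Fin (N + 1) → ℝ} (h : Form3 χ)
    (J : Fin N → Fin N) (t : Fin N → ℝ) :
    - cpl R χ (nfA J t) = 4 / 3 * ∑ y, ∑ a, ∑ b, qY J t (psV χ) y a b * rT R a y b := by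
  have hp := psV_form h
  -- the two halves
  have e0 : ∑ y, ∑ a, ∑ b, qY J t (psV χ) y a b * rT R a y b
      = 1 / 2 * (∑ y, ∑ a, ∑ b, - t a * psV χ (J a) y b * rT R a y b)
        + 1 / 2 * (∑ y, ∑ a, ∑ b, t b * psV χ a y (J b) * rT R a y b) := by
    simp only [Finset.mul_sum, ← Finset.sum_add_distrib]
    refine Finset.sum_congr rfl fun y _ => Finset.sum_congr rfl fun a _ =>
      Finset.sum_congr rfl fun b _ => ?_
    unfold qY
    ring
  have e1 : ∑ y, ∑ a, ∑ b, - t a * psV χ (J a) y b * rT R a y b = - cpl R χ (nfA J t) := by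
    rw [cpl_nfA, Finset.sum_comm, ← Finset.sum_neg_distrib]
    refine Finset.sum_congr rfl fun a _ => ?_
    rw [← Finset.sum_neg_distrib]
    refine Finset.sum_congr rfl fun y _ => ?_
    rw [← Finset.sum_neg_distrib]
    refine Finset.sum_congr rfl fun b _ => ?_
    have c1 := hp.s12 y (J a) b
    have c2 := hp.s23 y b (J a)
    rw [c1, c2]
    ring
  have e2 : ∑ y, ∑ a, ∑ b, t b * psV χ a y (J b) * rT R a y b
      = ∑ a, ∑ y, ∑ b, - t a * psV χ (J a) y b * rT R b y a := by
    rw [Finset.sum_congr rfl fun y _ => Finset.sum_comm, Finset.sum_comm]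
    refine Finset.sum_congr rfl fun a _ => Finset.sum_congr rfl fun y _ =>
      Finset.sum_congr rfl fun b _ => ?_
    have c1 := hp.s12 (J a) y b
    have c2 := hp.s23 y (J a) b
    have c3 := hp.s12 y b (J a)
    have c4 : psV χ b y (J a) = - psV χ (J a) y b := by linarith
    rw [c4]
    ring
  have e3 : ∑ a, ∑ y, ∑ b, - t a * psV χ (J a) y b * rT R b y a
      = 1 / 2 * ∑ y, ∑ a, ∑ b, - t a * psV χ (J a) y b * rT R a y b := by
    have e4 : ∑ y, ∑ a, ∑ b, - t a * psV χ (J a) y b * rT R a y b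
        = ∑ a, ∑ y, ∑ b, - t a * psV χ (J a) y b * rT R a y b := Finset.sum_comm
    rw [e4, Finset.mul_sum]
    refine Finset.sum_congr rfl fun a _ => ?_
    have e5 : ∑ y, ∑ b, - t a * psV χ (J a) y b * rT R b y a
        = ∑ y, ∑ b, t a * psV χ (J a) y b * rT R y b a := by
      rw [Finset.sum_comm]
      refine Finset.sum_congr rfl fun b _ => Finset.sum_congr rfl fun y _ => ?_
      rw [hp.s23 (J a) b y]
      ring
    have e6 : ∑ y, ∑ b, - t a * psV χ (J a) y b * rT R a y b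
        = (∑ y, ∑ b, - t a * psV χ (J a) y b * rT R b y a)
          + ∑ y, ∑ b, t a * psV χ (J a) y b * rT R y b a := by
      simp only [← Finset.sum_add_distrib]
      refine Finset.sum_congr rfl fun y _ => Finset.sum_congr rfl fun b _ => ?_
      rw [← ct_bianchi hR a y b]
      ring
    rw [e6, ← e5]
    ring
  rw [e0, e2, e3, e1]
  ring

/-- the coupling is paid by the tilted planes -/
theorem cpl_tilt {R : Fin (N + 1) → Fin (N + 1) → Fin (N + 1) → Fin (N + 1) → ℝ}
    (hR : IsCurvature R) (hs : SecIn R 0 1) {χ : Fin (N + 1) → Fin (N + 1) → Fin (N + 1) → ℝ}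
    (h : Form3 χ) {J : Fin N → Fin N} {t : Fin N → ℝ} (ht : NF J t) {lam h0 : ℝ}
    (hlam : 0 < lam) (hh : 0 < h0) :
    - (2 / 3) * ((∑ y, ∑ z, gY J t lam h0 y z * rV R y z y z)
      + ∑ a, ∑ b, (∑ y, ∑ z, qY J t (psV χ) y a z * qY J t (psV χ) y b z / gY J t lam h0 y z)
        * rE R a b) ≤ - cpl R χ (nfA J t) := by
  rw [cpl_eq hR h]
  have h1 : ∀ y : Fin N, 0 ≤ (∑ z, gY J t lam h0 y z * rV R y z y z)
      + 2 * (∑ a, ∑ b, qY J t (psV χ) y a b * rT R a y b)
      + ∑ a, ∑ b, (∑ z, qY J t (psV χ) y a z * qY J t (psV χ) y b z / gY J t lam h0 y z)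
        * rE R a b := fun y =>
    tilt_diag hR hs y (g := gY J t lam h0 y) (fun z => gY_pos hlam hh y z)
      (q := qY J t (psV χ) y) (fun a b => qY_symm ht (psV_form h) y a b)
  have h2 := Finset.sum_nonneg fun y (_ : y ∈ (Finset.univ : Finset (Fin N))) => h1 y
  simp only [Finset.sum_add_distrib, ← Finset.mul_sum] at h2
  have e : ∑ y, ∑ a, ∑ b, (∑ z, qY J t (psV χ) y a z * qY J t (psV χ) y b z
      / gY J t lam h0 y z) * rE R a b
      = ∑ a, ∑ b, (∑ y, ∑ z, qY J t (psV χ) y a z * qY J t (psV χ) y b z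
        / gY J t lam h0 y z) * rE R a b := by
    rw [Finset.sum_comm]
    refine Finset.sum_congr rfl fun a _ => ?_
    rw [Finset.sum_comm]
    exact Finset.sum_congr rfl fun b _ => by rw [← Finset.sum_mul]
  rw [e] at h2
  linarith

/-- the planes of `V` used by the coupling, ordered pairs of different lines -/
theorem gY_planes {R : Fin (N + 1) → Fin (N + 1) → Fin (N + 1) → Fin (N + 1) → ℝ}
    (hR : IsCurvature R) (hs : SecIn R 0 1) {J : Fin N → Fin N} {t : Fin N → ℝ} (ht : NF J t)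
    {lam h0 : ℝ} (hlam : 0 < lam) (hh : 0 < h0) :
    ∑ y, ∑ z, gY J t lam h0 y z * rV R y z y z
      ≤ h0 * (∑ v, if J v = v then 0 else 1)
        + 1 / 2 * ∑ v, ∑ w, (if w = v ∨ w = J v then 0
          else (2 * h0 + (|t v| + |t w|) ^ 2 / lam) * rV R v w v w) := by
  have hc : ∀ v w : Fin N, (w = v ∨ w = J v) ↔ (v = w ∨ v = J w) := by
    intro v w
    constructor
    · rintro (h1 | h1)
      · exact Or.inl h1.symm
      · exact Or.inr (by rw [h1, ht.inv])
    · rintro (h1 | h1)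
      · exact Or.inl h1.symm
      · exact Or.inr (by rw [h1, ht.inv])
  have hsym : ∀ v w : Fin N, rV R w v w v = rV R v w v w := by
    intro v w
    unfold rV
    rw [hR.skew12 v.succ w.succ w.succ v.succ, hR.skew34 v.succ w.succ v.succ w.succ]
    ring
  have hdiag : ∀ v : Fin N, rV R v v v v = 0 := by
    intro v
    unfold rV
    have := hR.skew12 v.succ v.succ v.succ v.succ
    linarith
  -- split off the pairs inside a line
  have e1 : ∀ y : Fin N, ∑ z, gY J t lam h0 y z * rV R y z y z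
      ≤ h0 * (if J y = y then 0 else 1)
        + ∑ z, (if z = y ∨ z = J y then 0
          else (h0 + (t z ^ 2 + |t y| * |t z|) / lam) * rV R y z y z) := by
    intro y
    have e2 : ∀ z, gY J t lam h0 y z * rV R y z y z
        = (if z = J y then h0 * rV R y z y z else 0)
          + (if z = y ∨ z = J y then 0
            else (h0 + (t z ^ 2 + |t y| * |t z|) / lam) * rV R y z y z) := by
      intro z
      unfold gY
      by_cases h1 : z = J y
      · rw [if_pos h1, if_pos h1, if_pos (Or.inr h1)]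
        ring
      · by_cases h2 : z = y
        · rw [if_neg h1, if_neg h1, if_pos (Or.inl h2), h2, hdiag]
          ring
        · rw [if_neg h1, if_neg h1, if_neg (by tauto)]
          ring
    rw [Finset.sum_congr rfl fun z _ => e2 z, Finset.sum_add_distrib, Finset.sum_ite_eq',
      if_pos (Finset.mem_univ _)]
    refine add_le_add ?_ le_rfl
    by_cases h3 : J y = y
    · rw [if_pos h3, h3, hdiag]
    · rw [if_neg h3]
      exact mul_le_mul_of_nonneg_left (rV_mem hs (Ne.symm h3)).2 hh.le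
  refine (Finset.sum_le_sum fun y _ => e1 y).trans (le_of_eq ?_)
  rw [Finset.sum_add_distrib, ← Finset.mul_sum]
  congr 1
  -- symmetrise
  have e3 : ∑ v, ∑ w, (if w = v ∨ w = J v then 0
      else (h0 + (t w ^ 2 + |t v| * |t w|) / lam) * rV R v w v w)
      = ∑ v, ∑ w, (if w = v ∨ w = J v then 0
        else (h0 + (t v ^ 2 + |t v| * |t w|) / lam) * rV R v w v w) := by
    rw [Finset.sum_comm]
    refine Finset.sum_congr rfl fun w _ => Finset.sum_congr rfl fun v _ => ?_
    by_cases h1 : w = v ∨ w = J v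
    · rw [if_pos h1, if_pos ((hc v w).1 h1)]
    · rw [if_neg h1, if_neg (fun h2 => h1 ((hc v w).2 h2)), hsym]
      ring
  have e4 : ∑ v, ∑ w, (if w = v ∨ w = J v then 0
      else (2 * h0 + (|t v| + |t w|) ^ 2 / lam) * rV R v w v w)
      = (∑ v, ∑ w, (if w = v ∨ w = J v then 0
        else (h0 + (t w ^ 2 + |t v| * |t w|) / lam) * rV R v w v w))
        + ∑ v, ∑ w, (if w = v ∨ w = J v then 0
        else (h0 + (t v ^ 2 + |t v| * |t w|) / lam) * rV R v w v w) := by
    rw [← Finset.sum_add_distrib]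
    refine Finset.sum_congr rfl fun v _ => ?_
    rw [← Finset.sum_add_distrib]
    refine Finset.sum_congr rfl fun w _ => ?_
    by_cases h1 : w = v ∨ w = J v
    · rw [if_pos h1, if_pos h1, if_pos h1]
      ring
    · rw [if_neg h1, if_neg h1, if_neg h1, ← sq_abs (t v), ← sq_abs (t w)]
      ring
  rw [e4, ← e3]
  ring

private theorem ct_swap (f : Fin N → Fin N → Fin N → Fin N → ℝ) (w : Fin N → ℝ) (c : ℝ) :
    ∑ i, ∑ j, c * (∑ y, ∑ z, f y z i j) * w i * w j
      = c * ∑ y, ∑ z, ∑ i, ∑ j, f y z i j * w i * w j := by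
  calc ∑ i, ∑ j, c * (∑ y, ∑ z, f y z i j) * w i * w j
      = ∑ i, ∑ j, ∑ y, ∑ z, c * (f y z i j * w i * w j) := by
        refine Finset.sum_congr rfl fun i _ => Finset.sum_congr rfl fun j _ => ?_
        simp only [Finset.mul_sum, Finset.sum_mul]
        exact Finset.sum_congr rfl fun y _ => Finset.sum_congr rfl fun z _ => by ring
    _ = ∑ i, ∑ y, ∑ j, ∑ z, c * (f y z i j * w i * w j) :=
        Finset.sum_congr rfl fun i _ => Finset.sum_comm
    _ = ∑ y, ∑ i, ∑ j, ∑ z, c * (f y z i j * w i * w j) := Finset.sum_comm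
    _ = ∑ y, ∑ i, ∑ z, ∑ j, c * (f y z i j * w i * w j) :=
        Finset.sum_congr rfl fun y _ => Finset.sum_congr rfl fun i _ => Finset.sum_comm
    _ = ∑ y, ∑ z, ∑ i, ∑ j, c * (f y z i j * w i * w j) :=
        Finset.sum_congr rfl fun y _ => Finset.sum_comm
    _ = _ := by simp only [Finset.mul_sum]

/-- **The total cost.** -/
theorem cost {R : Fin (N + 1) → Fin (N + 1) → Fin (N + 1) → Fin (N + 1) → ℝ}
    (hR : IsCurvature R) (hs : SecIn R 0 1) {χ : Fin (N + 1) → Fin (N + 1) → Fin (N + 1) → ℝ}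
    (h : ETop χ) {J : Fin N → Fin N} {s t : Fin N → ℝ} (hJ : NF J s) (ht : NF J t)
    (hA : aV χ = nfA J s) {lam h0 : ℝ} (hlam : 0 < lam) (hh : 0 < h0) :
    - ((∑ v, max (1 / 6 * ((lam + 2 * t v ^ 2 / h0) * (nA (aV χ) - s v ^ 2))
          - (nA (aV χ) - s v ^ 2)) 0)
      + 1 / 2 * (∑ v, ∑ w, if w = v ∨ w = J v then 0
          else max (4 / 3 * h0 + 2 / (3 * lam) * (|t v| + |t w|) ^ 2 - s v ^ 2 - s w ^ 2) 0)
      + 2 / 3 * h0 * (∑ v, if J v = v then 0 else 1)
      + 1 / 3 * ∑ v, ∑ w, if w = v ∨ w = J v then 0 else |s v| * |s w|)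
      - cpl R χ (nfA J fun v => s v - t v) ≤ wz R χ (eA (aV χ)) := by
  have hp := psV_form h.form
  set F := nA (aV χ) with hF
  -- the identity
  have id1 := wz_eA hR h
  have hAA : ∀ v w, ∑ b, aV χ v b * aV χ w b = if v = w then s v ^ 2 else 0 := by
    intro v w
    rw [hA]
    unfold nfA
    by_cases hvw : v = w
    · subst hvw
      rw [if_pos rfl]
      simp [sq]
    · rw [if_neg hvw]
      refine Finset.sum_eq_zero fun b _ => ?_
      by_cases h1 : b = J v
      · have h2 : ¬ b = J w := fun h3 => hvw (hJ.inj (h1.symm.trans h3))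
        rw [if_neg h2, mul_zero]
      · rw [if_neg h1, zero_mul]
  have hD : ∑ v, ∑ w, ((if v = w then F else 0) - ∑ b, aV χ v b * aV χ w b) * rE R v w
      = ∑ v, (F - s v ^ 2) * rE R v v := by
    refine Finset.sum_congr rfl fun v _ => ?_
    simp only [hAA]
    rw [Finset.sum_eq_single v]
    · simp
    · intro w _ hw
      rw [if_neg (Ne.symm hw), if_neg (Ne.symm hw)]
      ring
    · intro h1
      exact absurd (Finset.mem_univ _) h1
  have id2 : wz R χ (eA (aV χ)) = (∑ v, (F - s v ^ 2) * rE R v v) + w2 (rV R) (nfA J s)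
      - cpl R χ (nfA J t) - cpl R χ (nfA J fun v => s v - t v) := by
    rw [id1, hD]
    have h3 : ∑ l, ∑ i, ∑ j, ∑ a, rT R l i j * psV χ i j a * aV χ l a
        = cpl R χ (nfA J t) + cpl R χ (nfA J fun v => s v - t v) := by
      rw [← cpl_split R χ J s t, ← hA]
      rfl
    rw [h3, ← hA]
    ring
  -- planes of V
  have hw2 := w2_ge hJ (rV_curv hR) (rV_sec hs)
  have hct := cpl_tilt hR hs h.form ht hlam hh
  have hgp := gY_planes hR hs ht hlam hh
  -- the e-part
  have hop := op_ineq_D (D := fun v => F - s v ^ 2) ht (fun i => by simp only [hJ.sgn]; ring) hp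
    hlam hh (fun u => by
      have h1 := h.top u
      have h2 : ∑ b, (∑ v, u v * aV χ v b) ^ 2 = ∑ v, s v ^ 2 * u v ^ 2 := by
        have h3 : ∀ b, (∑ v, u v * aV χ v b) ^ 2 = ∑ v, ∑ w, u v * u w * (aV χ v b * aV χ w b) := by
          intro b
          rw [sq, Finset.sum_mul_sum]
          exact Finset.sum_congr rfl fun v _ => Finset.sum_congr rfl fun w _ => by ring
        rw [Finset.sum_congr rfl fun b _ => h3 b, Finset.sum_comm]
        refine Finset.sum_congr rfl fun v _ => ?_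
        rw [Finset.sum_comm]
        simp only [← Finset.mul_sum, hAA]
        simp
        ring
      rw [h2] at h1
      refine h1.trans (le_of_eq ?_)
      simp only [sub_mul, Finset.sum_sub_distrib, ← Finset.mul_sum]
      ring)
  have hep := e_part hs (fun a b => 2 / 3 * ∑ y, ∑ z, qY J t (psV χ) y a z * qY J t (psV χ) y b z
      / gY J t lam h0 y z) (fun a b => by
      congr 1
      exact Finset.sum_congr rfl fun y _ => Finset.sum_congr rfl fun z _ => by
        rw [mul_comm (qY J t (psV χ) y a z)])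
    (fun v => 1 / 6 * ((lam + 2 * t v ^ 2 / h0) * (F - s v ^ 2))) (fun v => F - s v ^ 2)
    (fun w => by
      have h1 := hop w
      have e1 : ∑ i, ∑ j, 2 / 3 * (∑ y, ∑ z, qY J t (psV χ) y i z * qY J t (psV χ) y j z
          / gY J t lam h0 y z) * w i * w j
          = 2 / 3 * ∑ y, ∑ z, (∑ v, w v * qY J t (psV χ) y v z) ^ 2 / gY J t lam h0 y z := by
        have e2 : ∀ y z, (∑ v, w v * qY J t (psV χ) y v z) ^ 2 / gY J t lam h0 y z
            = ∑ i, ∑ j, qY J t (psV χ) y i z * qY J t (psV χ) y j z / gY J t lam h0 y z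
              * w i * w j := by
          intro y z
          rw [sq, Finset.sum_mul_sum, Finset.sum_div]
          refine Finset.sum_congr rfl fun i _ => ?_
          rw [Finset.sum_div]
          exact Finset.sum_congr rfl fun j _ => by ring
        rw [Finset.sum_congr rfl fun y _ => Finset.sum_congr rfl fun z _ => e2 y z]
        exact ct_swap (fun y z i j => qY J t (psV χ) y i z * qY J t (psV χ) y j z
          / gY J t lam h0 y z) w (2 / 3)
      rw [e1]
      refine (mul_le_mul_of_nonneg_left h1 (by norm_num)).trans (le_of_eq ?_)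
      rw [Finset.mul_sum, Finset.mul_sum]
      exact Finset.sum_congr rfl fun v _ => by ring)
  have hE : ∑ a, ∑ b, (2 / 3 * ∑ y, ∑ z, qY J t (psV χ) y a z * qY J t (psV χ) y b z
      / gY J t lam h0 y z) * rE R a b
      = 2 / 3 * ∑ a, ∑ b, (∑ y, ∑ z, qY J t (psV χ) y a z * qY J t (psV χ) y b z
        / gY J t lam h0 y z) * rE R a b := by
    rw [Finset.mul_sum]
    refine Finset.sum_congr rfl fun a _ => ?_
    rw [Finset.mul_sum]
    exact Finset.sum_congr rfl fun b _ => by ring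
  rw [hE] at hep
  -- the planes of V, term by term
  have hV : - (1 / 2 * (∑ v, ∑ w, if w = v ∨ w = J v then 0
      else max (4 / 3 * h0 + 2 / (3 * lam) * (|t v| + |t w|) ^ 2 - s v ^ 2 - s w ^ 2) 0))
      ≤ 1 / 2 * (∑ v, ∑ w, (if w = v ∨ w = J v then 0 else (s v ^ 2 + s w ^ 2) * rV R v w v w))
        - 2 / 3 * (1 / 2 * ∑ v, ∑ w, (if w = v ∨ w = J v then 0
          else (2 * h0 + (|t v| + |t w|) ^ 2 / lam) * rV R v w v w)) := by
    have e1 : 1 / 2 * (∑ v, ∑ w, (if w = v ∨ w = J v then 0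
          else (s v ^ 2 + s w ^ 2) * rV R v w v w))
        - 2 / 3 * (1 / 2 * ∑ v, ∑ w, (if w = v ∨ w = J v then 0
          else (2 * h0 + (|t v| + |t w|) ^ 2 / lam) * rV R v w v w))
        = 1 / 2 * ∑ v, ∑ w, (if w = v ∨ w = J v then 0
          else ((s v ^ 2 + s w ^ 2) - 2 / 3 * (2 * h0 + (|t v| + |t w|) ^ 2 / lam))
            * rV R v w v w) := by
      simp only [Finset.mul_sum, ← Finset.sum_sub_distrib]
      refine Finset.sum_congr rfl fun v _ => Finset.sum_congr rfl fun w _ => ?_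
      split_ifs <;> ring
    rw [e1, ← mul_neg]
    refine mul_le_mul_of_nonneg_left ?_ (by norm_num)
    rw [← Finset.sum_neg_distrib]
    refine Finset.sum_le_sum fun v _ => ?_
    rw [← Finset.sum_neg_distrib]
    refine Finset.sum_le_sum fun w _ => ?_
    by_cases h1 : w = v ∨ w = J v
    · rw [if_pos h1, if_pos h1, neg_zero]
    · rw [if_neg h1, if_neg h1]
      have h2 : v ≠ w := fun h3 => h1 (Or.inl h3.symm)
      obtain ⟨k0, k1⟩ := rV_mem hs h2
      have e2 : 4 / 3 * h0 + 2 / (3 * lam) * (|t v| + |t w|) ^ 2 - s v ^ 2 - s w ^ 2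
          = - ((s v ^ 2 + s w ^ 2) - 2 / 3 * (2 * h0 + (|t v| + |t w|) ^ 2 / lam)) := by
        field_simp
        ring
      rw [e2]
      set x := (s v ^ 2 + s w ^ 2) - 2 / 3 * (2 * h0 + (|t v| + |t w|) ^ 2 / lam)
      have m1 := le_max_left (-x) 0
      have m2 := le_max_right (-x) 0
      nlinarith
  rw [id2]
  have hct2 : - (2 / 3) * ((h0 * (∑ v, if J v = v then 0 else 1)
        + 1 / 2 * ∑ v, ∑ w, (if w = v ∨ w = J v then 0
          else (2 * h0 + (|t v| + |t w|) ^ 2 / lam) * rV R v w v w))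
      + ∑ a, ∑ b, (∑ y, ∑ z, qY J t (psV χ) y a z * qY J t (psV χ) y b z / gY J t lam h0 y z)
        * rE R a b) ≤ - cpl R χ (nfA J t) := by
    refine le_trans ?_ hct
    linarith
  linarith

end Pool.Hopf3.EU
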