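import Pool.Agent.Lib.MP_4a593f_gt.EU.Tab

/-!
Sums over the index set of `V = ℝ^(2m+1)` of functions that depend only on the line.
-/

namespace Pool.Hopf3.EU

open Finset

variable {m : ℕ}

/-- first index of the line `a` -/
def ln0 (a : Fin m) : Fin (2 * m + 1) := ⟨2 * a.val, by omega⟩

/-- second index of the line `a` -/
def ln1 (a : Fin m) : Fin (2 * m + 1) := ⟨2 * a.val + 1, by omega⟩

/-- the kernel index -/
def lnf : Fin (2 * m + 1) := ⟨2 * m, by omega⟩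

theorem sum_range_lines (g : ℕ → ℝ) (m : ℕ) :
    ∑ i ∈ range (2 * m + 1), g i = (∑ a ∈ range m, (g (2 * a) + g (2 * a + 1))) + g (2 * m) := by
  induction m with
  | zero => simp
  | succ k ih =>
    rw [show 2 * (k + 1) + 1 = (2 * k + 1) + 1 + 1 from by ring, Finset.sum_range_succ,
      Finset.sum_range_succ, ih, Finset.sum_range_succ]
    ring_nf

theorem sum_lines (f : Fin (2 * m + 1) → ℝ) :
    ∑ i, f i = (∑ a : Fin m, (f (ln0 a) + f (ln1 a))) + f lnf := by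
  have h := sum_range_lines (fun i => if h : i < 2 * m + 1 then f ⟨i, h⟩ else 0) m
  rw [← Fin.sum_univ_eq_sum_range, ← Fin.sum_univ_eq_sum_range] at h
  have e1 : ∀ i : Fin (2 * m + 1), (if h : i.val < 2 * m + 1 then f ⟨i.val, h⟩ else 0) = f i := by
    intro i
    rw [dif_pos i.isLt]
  have e2 : ∀ a : Fin m, (if h : 2 * a.val < 2 * m + 1 then f ⟨2 * a.val, h⟩ else 0)
      = f (ln0 a) := by
    intro a
    rw [dif_pos (by omega)]
    rfl
  have e3 : ∀ a : Fin m, (if h : 2 * a.val + 1 < 2 * m + 1 then f ⟨2 * a.val + 1, h⟩ else 0)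
      = f (ln1 a) := by
    intro a
    rw [dif_pos (by omega)]
    rfl
  have e4 : (if h : 2 * m < 2 * m + 1 then f ⟨2 * m, h⟩ else 0) = f lnf := by
    rw [dif_pos (by omega)]
    rfl
  simp only [e1, e2, e3, e4] at h
  exact h

theorem eJ_ln0 (a : Fin m) : eJ (ln0 a) = ln1 a := by
  unfold eJ ln0 ln1
  apply Fin.ext
  have h : 2 * a.val % 2 = 0 := by omega
  have h2 : 2 * a.val + 1 < 2 * m + 1 := by omega
  simp [h]

theorem eJ_ln1 (a : Fin m) : eJ (ln1 a) = ln0 a := by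
  rw [← eJ_ln0, eJ_eJ]

theorem eJ_lnf : eJ (lnf : Fin (2 * m + 1)) = lnf := by
  unfold eJ lnf
  apply Fin.ext
  have h : 2 * m % 2 = 0 := by omega
  simp [h]

theorem eS_ln0 (μ : ℕ → ℝ) (a : Fin m) : eS μ (ln0 a) = μ a.val := by
  unfold eS ln0
  have h : 2 * a.val % 2 = 0 := by omega
  have h2 : 2 * a.val + 1 < 2 * m + 1 := by omega
  have h3 : 2 * a.val / 2 = a.val := by omega
  simp [h3]

theorem eS_ln1 (μ : ℕ → ℝ) (a : Fin m) : eS μ (ln1 a) = - μ a.val := by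
  rw [← eJ_ln0, eS_eJ, eS_ln0]

theorem eS_lnf (μ : ℕ → ℝ) : eS μ (lnf : Fin (2 * m + 1)) = 0 := by
  unfold eS lnf
  have h : 2 * m % 2 = 0 := by omega
  simp [h]

theorem ln0_inj (a b : Fin m) : ln0 a = ln0 b ↔ a = b := by
  simp only [ln0, Fin.ext_iff]; omega

theorem ln1_inj (a b : Fin m) : ln1 a = ln1 b ↔ a = b := by
  simp only [ln1, Fin.ext_iff]; omega

theorem ln0_ne_ln1 (a b : Fin m) : ln0 a ≠ ln1 b := by
  simp only [ln0, ln1, ne_eq, Fin.ext_iff]; omega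

theorem ln0_ne_lnf (a : Fin m) : ln0 a ≠ lnf := by
  simp only [ln0, lnf, ne_eq, Fin.ext_iff]; omega

theorem ln1_ne_lnf (a : Fin m) : ln1 a ≠ lnf := by
  simp only [ln1, lnf, ne_eq, Fin.ext_iff]; omega

variable {μ : ℕ → ℝ}

/-- functions of `|s v|` -/
theorem sum_abs (hμ : ∀ k, 0 ≤ μ k) (f : ℝ → ℝ) :
    ∑ v : Fin (2 * m + 1), f |eS μ v| = 2 * (∑ a : Fin m, f (μ a.val)) + f 0 := by
  rw [sum_lines]
  simp only [eS_ln0, eS_ln1, eS_lnf, abs_neg, abs_zero, abs_of_nonneg (hμ _)]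
  rw [Finset.mul_sum]
  congr 1
  exact Finset.sum_congr rfl fun a _ => by ring

/-- functions of `|s v|`, kernel excluded -/
theorem sum_abs_ker (hμ : ∀ k, 0 ≤ μ k) (f : ℝ → ℝ) :
    ∑ v : Fin (2 * m + 1), (if eJ v = v then 0 else f |eS μ v|)
      = 2 * (∑ a : Fin m, f (μ a.val)) := by
  rw [sum_lines]
  have h0 : ∀ a : Fin m, ln1 a ≠ ln0 a := fun a => (ln0_ne_ln1 a a).symm
  simp only [eJ_ln0, eJ_ln1, eJ_lnf, h0, ln0_ne_ln1, if_false, if_true, add_zero, eS_ln0, eS_ln1,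
    abs_neg, abs_of_nonneg (hμ _)]
  rw [Finset.mul_sum]
  exact Finset.sum_congr rfl fun a _ => by ring

/-- functions of `|s v|`, `|s w|` with `v`, `w` in different lines -/
theorem sum_abs2 (hμ : ∀ k, 0 ≤ μ k) (f : ℝ → ℝ → ℝ) :
    ∑ v : Fin (2 * m + 1), ∑ w : Fin (2 * m + 1),
      (if w = v ∨ w = eJ v then 0 else f |eS μ v| |eS μ w|)
      = 4 * (∑ a : Fin m, ∑ b : Fin m, (if b = a then 0 else f (μ a.val) (μ b.val)))
        + 2 * ∑ a : Fin m, (f (μ a.val) 0 + f 0 (μ a.val)) := by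
  have h0 : ∀ a b : Fin m, ln1 a ≠ ln0 b := fun a b => (ln0_ne_ln1 b a).symm
  have h2 : ∀ a : Fin m, (lnf : Fin (2 * m + 1)) ≠ ln0 a := fun a => (ln0_ne_lnf a).symm
  have h3 : ∀ a : Fin m, (lnf : Fin (2 * m + 1)) ≠ ln1 a := fun a => (ln1_ne_lnf a).symm
  have e1 : ∀ a : Fin m, ∑ w : Fin (2 * m + 1),
      (if w = ln0 a ∨ w = eJ (ln0 a) then 0 else f |eS μ (ln0 a)| |eS μ w|)
      = 2 * (∑ b : Fin m, (if b = a then 0 else f (μ a.val) (μ b.val))) + f (μ a.val) 0 := by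
    intro a
    rw [sum_lines]
    simp only [eJ_ln0, ln0_inj, ln1_inj, ln0_ne_ln1, h0, h2, h3, or_false, false_or, if_false,
      eS_ln0, eS_ln1, eS_lnf, abs_neg, abs_zero, abs_of_nonneg (hμ _), or_self]
    rw [Finset.mul_sum]
    congr 1
    exact Finset.sum_congr rfl fun b _ => by split_ifs <;> ring
  have e2 : ∀ a : Fin m, ∑ w : Fin (2 * m + 1),
      (if w = ln1 a ∨ w = eJ (ln1 a) then 0 else f |eS μ (ln1 a)| |eS μ w|)
      = 2 * (∑ b : Fin m, (if b = a then 0 else f (μ a.val) (μ b.val))) + f (μ a.val) 0 := by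
    intro a
    rw [sum_lines]
    simp only [eJ_ln1, ln0_inj, ln1_inj, ln0_ne_ln1, h0, h2, h3, or_false, false_or, if_false,
      eS_ln0, eS_ln1, eS_lnf, abs_neg, abs_zero, abs_of_nonneg (hμ _), or_self]
    rw [Finset.mul_sum]
    congr 1
    exact Finset.sum_congr rfl fun b _ => by split_ifs <;> ring
  have e3 : ∑ w : Fin (2 * m + 1),
      (if w = lnf ∨ w = eJ lnf then 0 else f |eS μ (lnf : Fin (2 * m + 1))| |eS μ w|)
      = 2 * ∑ a : Fin m, f 0 (μ a.val) := by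
    rw [sum_lines]
    simp only [eJ_lnf, ln0_ne_lnf, ln1_ne_lnf, or_self, if_false, if_true, eS_ln0, eS_ln1,
      eS_lnf, abs_neg, abs_zero, abs_of_nonneg (hμ _), add_zero]
    rw [Finset.mul_sum]
    exact Finset.sum_congr rfl fun b _ => by ring
  rw [sum_lines, e3]
  simp only [e1, e2]
  have e4 : ∀ a : Fin m, (2 * (∑ b : Fin m, (if b = a then 0 else f (μ a.val) (μ b.val)))
      + f (μ a.val) 0) + (2 * (∑ b : Fin m, (if b = a then 0 else f (μ a.val) (μ b.val)))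
      + f (μ a.val) 0) = 4 * (∑ b : Fin m, (if b = a then 0 else f (μ a.val) (μ b.val)))
        + 2 * f (μ a.val) 0 := fun a => by ring
  simp only [e4, Finset.sum_add_distrib, ← Finset.mul_sum]
  ring

/-- the truncated coefficients -/
theorem abs_eS_min (hμ : ∀ k, 0 ≤ μ k) {τ : ℝ} (hτ : 0 ≤ τ) (v : Fin (2 * m + 1)) :
    |eS (fun k => min (μ k) τ) v| = min |eS μ v| τ := by
  unfold eS
  by_cases h : v.val % 2 = 0
  · by_cases h2 : v.val + 1 < 2 * m + 1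
    · rw [if_pos h, if_pos h, if_pos h2, if_pos h2, abs_of_nonneg (le_min (hμ _) hτ),
        abs_of_nonneg (hμ _)]
    · rw [if_pos h, if_pos h, if_neg h2, if_neg h2, abs_zero, min_eq_left hτ]
  · rw [if_neg h, if_neg h, abs_neg, abs_neg, abs_of_nonneg (le_min (hμ _) hτ),
      abs_of_nonneg (hμ _)]

end Pool.Hopf3.EU
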