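import Mathlib.Tactic.Linarith
import Mathlib.Data.Real.Basic

/-!
The scalar inequality for three lines (dimension 8): two regions.
-/

namespace Pool.Hopf3.EU

theorem seven_high {a b c E2 E3 K2 K3 P : ℝ} (hc : 0 ≤ c) (hbc : c ≤ b) (hab : b ≤ a)
    (hs : a ^ 2 + b ^ 2 + c ^ 2 = 1) (hb : 3 / 10 ≤ b ^ 2)
    (hE2 : E2 = 2 * ((1 - b ^ 2) * (80/39 * b ^ 2 - 77/120)) ∨ E2 = 0)
    (hE3 : E3 = 2 * ((1 - c ^ 2) * (80/39 * c ^ 2 - 77/120)) ∨ E3 = 0)
    (hK2 : K2 = 2 * (13/60 - 89/129 * b ^ 2) ∨ K2 = 0)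
    (hK3 : K3 = 2 * (13/60 - 89/129 * c ^ 2) ∨ K3 = 0)
    (hP : P = 4 * (13/60 - 89/129 * (b ^ 2 + c ^ 2) + 80/129 * (b * c)) ∨ P = 0) :
    2 * ((1 - a ^ 2) * (80/39 * a ^ 2 - 77/120)) + E2 + E3 + K2 + K3 + P + 4 * (13/80)
      + 8 / 3 * (a * b + a * c + b * c) ≤ 391 / 100 := by
  have h1 : b ^ 2 ≤ a ^ 2 := pow_le_pow_left₀ (le_trans hc hbc) hab 2
  have h2 : c ^ 2 ≤ b ^ 2 := pow_le_pow_left₀ hc hbc 2
  have h3 : 0 ≤ c ^ 2 := sq_nonneg c
  rcases hE2 with hE2 | hE2 <;> rcases hE3 with hE3 | hE3 <;> rcases hK2 with hK2 | hK2 <;>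
    rcases hK3 with hK3 | hK3 <;> rcases hP with hP | hP <;> rw [hE2, hE3, hK2, hK3, hP]
  · linarith [sq_nonneg (137/250 * a - 67/100 * b),
      sq_nonneg (501/1000 * a - 67/100 * c),
      sq_nonneg (501/1000 * b - 137/250 * c),
      sq_nonneg (a ^ 2 - 449/1000),
      sq_nonneg (b ^ 2 - 3/10),
      sq_nonneg (c ^ 2 - 251/1000)]
  · linarith [sq_nonneg (137/250 * a - 79/125 * b),
      sq_nonneg (137/250 * a - 79/125 * c),
      sq_nonneg (137/250 * b - 137/250 * c),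
      sq_nonneg (a ^ 2 - 2/5),
      sq_nonneg (b ^ 2 - 3/10),
      sq_nonneg (c ^ 2 - 3/10)]
  · linarith [sq_nonneg (137/250 * a - 159/250 * b),
      sq_nonneg (68/125 * a - 159/250 * c),
      sq_nonneg (68/125 * b - 137/250 * c),
      sq_nonneg (a ^ 2 - 81/200),
      sq_nonneg (b ^ 2 - 3/10),
      sq_nonneg (c ^ 2 - 59/200)]
  · linarith [sq_nonneg (563/1000 * a - 121/200 * b),
      sq_nonneg (563/1000 * a - 121/200 * c),
      sq_nonneg (563/1000 * b - 563/1000 * c),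
      sq_nonneg (a ^ 2 - 183/500),
      sq_nonneg (b ^ 2 - 317/1000),
      sq_nonneg (c ^ 2 - 317/1000)]
  · linarith [sq_nonneg (14/25 * a - 663/1000 * b),
      sq_nonneg (497/1000 * a - 663/1000 * c),
      sq_nonneg (497/1000 * b - 14/25 * c),
      sq_nonneg (a ^ 2 - 439/1000),
      sq_nonneg (b ^ 2 - 157/500),
      sq_nonneg (c ^ 2 - 247/1000)]
  · linarith [sq_nonneg (151/250 * a - 151/250 * b),
      sq_nonneg (13/25 * a - 151/250 * c),
      sq_nonneg (13/25 * b - 151/250 * c),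
      sq_nonneg (a ^ 2 - 73/200),
      sq_nonneg (b ^ 2 - 73/200),
      sq_nonneg (c ^ 2 - 271/1000)]
  · linarith [sq_nonneg (137/250 * a - 159/250 * b),
      sq_nonneg (68/125 * a - 159/250 * c),
      sq_nonneg (68/125 * b - 137/250 * c),
      sq_nonneg (a ^ 2 - 81/200),
      sq_nonneg (b ^ 2 - 3/10),
      sq_nonneg (c ^ 2 - 59/200)]
  · linarith [sq_nonneg (577/1000 * a - 577/1000 * b),
      sq_nonneg (577/1000 * a - 577/1000 * c),
      sq_nonneg (577/1000 * b - 577/1000 * c),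
      sq_nonneg (a ^ 2 - 333/1000),
      sq_nonneg (b ^ 2 - 333/1000),
      sq_nonneg (c ^ 2 - 333/1000)]
  · linarith [sq_nonneg (137/250 * a - 751/1000 * b),
      sq_nonneg (369/1000 * a - 751/1000 * c),
      sq_nonneg (369/1000 * b - 137/250 * c),
      sq_nonneg (a ^ 2 - 141/250),
      sq_nonneg (b ^ 2 - 3/10)]
  · linarith [sq_nonneg (611/1000 * a - 697/1000 * b),
      sq_nonneg (187/500 * a - 697/1000 * c),
      sq_nonneg (187/500 * b - 611/1000 * c),
      sq_nonneg (a ^ 2 - 243/500),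
      sq_nonneg (b ^ 2 - 373/1000)]
  · linarith [sq_nonneg (137/250 * a - 723/1000 * b),
      sq_nonneg (421/1000 * a - 723/1000 * c),
      sq_nonneg (421/1000 * b - 137/250 * c),
      sq_nonneg (a ^ 2 - 523/1000),
      sq_nonneg (b ^ 2 - 3/10)]
  · linarith [sq_nonneg (587/1000 * a - 673/1000 * b),
      sq_nonneg (9/20 * a - 673/1000 * c),
      sq_nonneg (9/20 * b - 587/1000 * c),
      sq_nonneg (a ^ 2 - 453/1000),
      sq_nonneg (b ^ 2 - 69/200)]
  · linarith [sq_nonneg (119/200 * a - 721/1000 * b),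
      sq_nonneg (71/200 * a - 721/1000 * c),
      sq_nonneg (71/200 * b - 119/200 * c),
      sq_nonneg (a ^ 2 - 13/25),
      sq_nonneg (b ^ 2 - 177/500)]
  · linarith [sq_nonneg (83/125 * a - 83/125 * b),
      sq_nonneg (343/1000 * a - 83/125 * c),
      sq_nonneg (343/1000 * b - 83/125 * c),
      sq_nonneg (a ^ 2 - 441/1000),
      sq_nonneg (b ^ 2 - 441/1000)]
  · linarith [sq_nonneg (73/125 * a - 351/500 * b),
      sq_nonneg (51/125 * a - 351/500 * c),
      sq_nonneg (51/125 * b - 73/125 * c),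
      sq_nonneg (a ^ 2 - 493/1000),
      sq_nonneg (b ^ 2 - 341/1000)]
  · linarith [sq_nonneg (161/250 * a - 161/250 * b),
      sq_nonneg (103/250 * a - 161/250 * c),
      sq_nonneg (103/250 * b - 161/250 * c),
      sq_nonneg (a ^ 2 - 83/200),
      sq_nonneg (b ^ 2 - 83/200)]
  · linarith [sq_nonneg (137/250 * a - 67/100 * b),
      sq_nonneg (501/1000 * a - 67/100 * c),
      sq_nonneg (501/1000 * b - 137/250 * c),
      sq_nonneg (a ^ 2 - 449/1000),
      sq_nonneg (c ^ 2 - 251/1000)]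
  · linarith [sq_nonneg (137/250 * a - 79/125 * b),
      sq_nonneg (137/250 * a - 79/125 * c),
      sq_nonneg (137/250 * b - 137/250 * c),
      sq_nonneg (a ^ 2 - 2/5),
      sq_nonneg (c ^ 2 - 3/10)]
  · linarith [sq_nonneg (137/250 * a - 159/250 * b),
      sq_nonneg (68/125 * a - 159/250 * c),
      sq_nonneg (68/125 * b - 137/250 * c),
      sq_nonneg (a ^ 2 - 81/200),
      sq_nonneg (c ^ 2 - 59/200)]
  · linarith [sq_nonneg (137/250 * a - 79/125 * b),
      sq_nonneg (137/250 * a - 79/125 * c),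
      sq_nonneg (137/250 * b - 137/250 * c),
      sq_nonneg (a ^ 2 - 2/5),
      sq_nonneg (c ^ 2 - 3/10)]
  · linarith [sq_nonneg (137/250 * a - 67/100 * b),
      sq_nonneg (501/1000 * a - 67/100 * c),
      sq_nonneg (501/1000 * b - 137/250 * c),
      sq_nonneg (a ^ 2 - 449/1000),
      sq_nonneg (c ^ 2 - 251/1000)]
  · linarith [sq_nonneg (137/250 * a - 79/125 * b),
      sq_nonneg (137/250 * a - 79/125 * c),
      sq_nonneg (137/250 * b - 137/250 * c),
      sq_nonneg (a ^ 2 - 2/5),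
      sq_nonneg (c ^ 2 - 3/10)]
  · linarith [sq_nonneg (137/250 * a - 159/250 * b),
      sq_nonneg (68/125 * a - 159/250 * c),
      sq_nonneg (68/125 * b - 137/250 * c),
      sq_nonneg (a ^ 2 - 81/200),
      sq_nonneg (c ^ 2 - 59/200)]
  · linarith [sq_nonneg (137/250 * a - 79/125 * b),
      sq_nonneg (137/250 * a - 79/125 * c),
      sq_nonneg (137/250 * b - 137/250 * c),
      sq_nonneg (a ^ 2 - 2/5),
      sq_nonneg (c ^ 2 - 3/10)]
  · linarith [sq_nonneg (137/250 * a - 751/1000 * b),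
      sq_nonneg (369/1000 * a - 751/1000 * c),
      sq_nonneg (369/1000 * b - 137/250 * c),
      sq_nonneg (a ^ 2 - 141/250)]
  · linarith [sq_nonneg (137/250 * a - 729/1000 * b),
      sq_nonneg (41/100 * a - 729/1000 * c),
      sq_nonneg (41/100 * b - 137/250 * c),
      sq_nonneg (a ^ 2 - 133/250)]
  · linarith [sq_nonneg (137/250 * a - 723/1000 * b),
      sq_nonneg (421/1000 * a - 723/1000 * c),
      sq_nonneg (421/1000 * b - 137/250 * c),
      sq_nonneg (a ^ 2 - 523/1000)]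
  · linarith [sq_nonneg (137/250 * a - 689/1000 * b),
      sq_nonneg (19/40 * a - 689/1000 * c),
      sq_nonneg (19/40 * b - 137/250 * c),
      sq_nonneg (a ^ 2 - 237/500)]
  · linarith [sq_nonneg (137/250 * a - 751/1000 * b),
      sq_nonneg (369/1000 * a - 751/1000 * c),
      sq_nonneg (369/1000 * b - 137/250 * c),
      sq_nonneg (a ^ 2 - 141/250)]
  · linarith [sq_nonneg (137/250 * a - 729/1000 * b),
      sq_nonneg (41/100 * a - 729/1000 * c),
      sq_nonneg (41/100 * b - 137/250 * c),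
      sq_nonneg (a ^ 2 - 133/250)]
  · linarith [sq_nonneg (137/250 * a - 723/1000 * b),
      sq_nonneg (421/1000 * a - 723/1000 * c),
      sq_nonneg (421/1000 * b - 137/250 * c),
      sq_nonneg (a ^ 2 - 523/1000)]
  · linarith [sq_nonneg (137/250 * a - 689/1000 * b),
      sq_nonneg (19/40 * a - 689/1000 * c),
      sq_nonneg (19/40 * b - 137/250 * c),
      sq_nonneg (a ^ 2 - 237/500)]

end Pool.Hopf3.EU
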