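import Mathlib.Tactic.Linarith
import Mathlib.Data.Real.Basic

/-!
The scalar inequality for three lines (dimension 8): two regions.
-/

namespace Pool.Hopf3.EU

theorem seven_low {a b c E2 E3 K2 K3 P : ℝ} (hc : 0 ≤ c) (hbc : c ≤ b) (hab : b ≤ a)
    (hs : a ^ 2 + b ^ 2 + c ^ 2 = 1) (hb : b ^ 2 ≤ 3 / 10)
    (hE2 : E2 = 2 * ((1 - b ^ 2) * (50/21 * b ^ 2 - 37/60)) ∨ E2 = 0)
    (hE3 : E3 = 2 * ((1 - c ^ 2) * (50/21 * c ^ 2 - 37/60)) ∨ E3 = 0)
    (hK2 : K2 = 2 * (14/75 - 49/69 * b ^ 2) ∨ K2 = 0)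
    (hK3 : K3 = 2 * (14/75 - 49/69 * c ^ 2) ∨ K3 = 0)
    (hP : P = 4 * (14/75 - 49/69 * (b ^ 2 + c ^ 2) + 40/69 * (b * c)) ∨ P = 0) :
    2 * ((1 - a ^ 2) * (50/21 * a ^ 2 - 37/60)) + E2 + E3 + K2 + K3 + P + 4 * (7/50)
      + 8 / 3 * (a * b + a * c + b * c) ≤ 391 / 100 := by
  have h1 : b ^ 2 ≤ a ^ 2 := pow_le_pow_left₀ (le_trans hc hbc) hab 2
  have h2 : c ^ 2 ≤ b ^ 2 := pow_le_pow_left₀ hc hbc 2
  have h3 : 0 ≤ c ^ 2 := sq_nonneg c
  rcases hE2 with hE2 | hE2 <;> rcases hE3 with hE3 | hE3 <;> rcases hK2 with hK2 | hK2 <;>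
    rcases hK3 with hK3 | hK3 <;> rcases hP with hP | hP <;> rw [hE2, hE3, hK2, hK3, hP]
  · linarith [sq_nonneg (257/500 * a - 687/1000 * b),
      sq_nonneg (257/500 * a - 687/1000 * c),
      sq_nonneg (257/500 * b - 257/500 * c),
      sq_nonneg (a ^ 2 - 59/125),
      sq_nonneg (b ^ 2 - 33/125),
      sq_nonneg (c ^ 2 - 33/125)]
  · linarith [sq_nonneg (137/250 * a - 79/125 * b),
      sq_nonneg (137/250 * a - 79/125 * c),
      sq_nonneg (137/250 * b - 137/250 * c),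
      sq_nonneg (a ^ 2 - 2/5),
      sq_nonneg (b ^ 2 - 3/10),
      sq_nonneg (c ^ 2 - 3/10)]
  · linarith [sq_nonneg (529/1000 * a - 663/1000 * b),
      sq_nonneg (529/1000 * a - 663/1000 * c),
      sq_nonneg (529/1000 * b - 529/1000 * c),
      sq_nonneg (a ^ 2 - 11/25),
      sq_nonneg (b ^ 2 - 7/25),
      sq_nonneg (c ^ 2 - 7/25)]
  · linarith [sq_nonneg (137/250 * a - 79/125 * b),
      sq_nonneg (137/250 * a - 79/125 * c),
      sq_nonneg (137/250 * b - 137/250 * c),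
      sq_nonneg (a ^ 2 - 2/5),
      sq_nonneg (b ^ 2 - 3/10),
      sq_nonneg (c ^ 2 - 3/10)]
  · linarith [sq_nonneg (137/250 * a - 669/1000 * b),
      sq_nonneg (251/500 * a - 669/1000 * c),
      sq_nonneg (251/500 * b - 137/250 * c),
      sq_nonneg (a ^ 2 - 56/125),
      sq_nonneg (b ^ 2 - 3/10),
      sq_nonneg (c ^ 2 - 63/250)]
  · linarith [sq_nonneg (137/250 * a - 79/125 * b),
      sq_nonneg (137/250 * a - 79/125 * c),
      sq_nonneg (137/250 * b - 137/250 * c),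
      sq_nonneg (a ^ 2 - 2/5),
      sq_nonneg (b ^ 2 - 3/10),
      sq_nonneg (c ^ 2 - 3/10)]
  · linarith [sq_nonneg (68/125 * a - 319/500 * b),
      sq_nonneg (68/125 * a - 319/500 * c),
      sq_nonneg (68/125 * b - 68/125 * c),
      sq_nonneg (a ^ 2 - 407/1000),
      sq_nonneg (b ^ 2 - 37/125),
      sq_nonneg (c ^ 2 - 37/125)]
  · linarith [sq_nonneg (137/250 * a - 79/125 * b),
      sq_nonneg (137/250 * a - 79/125 * c),
      sq_nonneg (137/250 * b - 137/250 * c),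
      sq_nonneg (a ^ 2 - 2/5),
      sq_nonneg (b ^ 2 - 3/10),
      sq_nonneg (c ^ 2 - 3/10)]
  · linarith [sq_nonneg (137/250 * a - 753/1000 * b),
      sq_nonneg (183/500 * a - 753/1000 * c),
      sq_nonneg (183/500 * b - 137/250 * c),
      sq_nonneg (a ^ 2 - 283/500),
      sq_nonneg (b ^ 2 - 3/10)]
  · linarith [sq_nonneg (137/250 * a - 91/125 * b),
      sq_nonneg (103/250 * a - 91/125 * c),
      sq_nonneg (103/250 * b - 137/250 * c),
      sq_nonneg (a ^ 2 - 53/100),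
      sq_nonneg (b ^ 2 - 3/10)]
  · linarith [sq_nonneg (27/50 * a - 729/1000 * b),
      sq_nonneg (21/50 * a - 729/1000 * c),
      sq_nonneg (21/50 * b - 27/50 * c),
      sq_nonneg (a ^ 2 - 133/250),
      sq_nonneg (b ^ 2 - 73/250)]
  · linarith [sq_nonneg (137/250 * a - 86/125 * b),
      sq_nonneg (119/250 * a - 86/125 * c),
      sq_nonneg (119/250 * b - 137/250 * c),
      sq_nonneg (a ^ 2 - 237/500),
      sq_nonneg (b ^ 2 - 3/10)]
  · linarith [sq_nonneg (137/250 * a - 753/1000 * b),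
      sq_nonneg (183/500 * a - 753/1000 * c),
      sq_nonneg (183/500 * b - 137/250 * c),
      sq_nonneg (a ^ 2 - 283/500),
      sq_nonneg (b ^ 2 - 3/10)]
  · linarith [sq_nonneg (137/250 * a - 91/125 * b),
      sq_nonneg (103/250 * a - 91/125 * c),
      sq_nonneg (103/250 * b - 137/250 * c),
      sq_nonneg (a ^ 2 - 53/100),
      sq_nonneg (b ^ 2 - 3/10)]
  · linarith [sq_nonneg (137/250 * a - 29/40 * b),
      sq_nonneg (417/1000 * a - 29/40 * c),
      sq_nonneg (417/1000 * b - 137/250 * c),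
      sq_nonneg (a ^ 2 - 263/500),
      sq_nonneg (b ^ 2 - 3/10)]
  · linarith [sq_nonneg (137/250 * a - 86/125 * b),
      sq_nonneg (119/250 * a - 86/125 * c),
      sq_nonneg (119/250 * b - 137/250 * c),
      sq_nonneg (a ^ 2 - 237/500),
      sq_nonneg (b ^ 2 - 3/10)]
  · linarith [sq_nonneg (117/250 * a - 749/1000 * b),
      sq_nonneg (117/250 * a - 749/1000 * c),
      sq_nonneg (117/250 * b - 117/250 * c),
      sq_nonneg (a ^ 2 - 561/1000),
      sq_nonneg (c ^ 2 - 219/1000)]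
  · linarith [sq_nonneg (64/125 * a - 689/1000 * b),
      sq_nonneg (64/125 * a - 689/1000 * c),
      sq_nonneg (64/125 * b - 64/125 * c),
      sq_nonneg (a ^ 2 - 19/40),
      sq_nonneg (c ^ 2 - 263/1000)]
  · linarith [sq_nonneg (487/1000 * a - 181/250 * b),
      sq_nonneg (487/1000 * a - 181/250 * c),
      sq_nonneg (487/1000 * b - 487/1000 * c),
      sq_nonneg (a ^ 2 - 21/40),
      sq_nonneg (c ^ 2 - 119/500)]
  · linarith [sq_nonneg (53/100 * a - 331/500 * b),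
      sq_nonneg (53/100 * a - 331/500 * c),
      sq_nonneg (53/100 * b - 53/100 * c),
      sq_nonneg (a ^ 2 - 439/1000),
      sq_nonneg (c ^ 2 - 281/1000)]
  · linarith [sq_nonneg (487/1000 * a - 181/250 * b),
      sq_nonneg (487/1000 * a - 181/250 * c),
      sq_nonneg (487/1000 * b - 487/1000 * c),
      sq_nonneg (a ^ 2 - 21/40),
      sq_nonneg (c ^ 2 - 119/500)]
  · linarith [sq_nonneg (53/100 * a - 331/500 * b),
      sq_nonneg (53/100 * a - 331/500 * c),
      sq_nonneg (53/100 * b - 53/100 * c),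
      sq_nonneg (a ^ 2 - 439/1000),
      sq_nonneg (c ^ 2 - 281/1000)]
  · linarith [sq_nonneg (253/500 * a - 699/1000 * b),
      sq_nonneg (253/500 * a - 699/1000 * c),
      sq_nonneg (253/500 * b - 253/500 * c),
      sq_nonneg (a ^ 2 - 61/125),
      sq_nonneg (c ^ 2 - 32/125)]
  · linarith [sq_nonneg (547/1000 * a - 127/200 * b),
      sq_nonneg (547/1000 * a - 127/200 * c),
      sq_nonneg (547/1000 * b - 547/1000 * c),
      sq_nonneg (a ^ 2 - 403/1000),
      sq_nonneg (c ^ 2 - 299/1000)]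
  · linarith [sq_nonneg (203/500 * a - 819/1000 * b),
      sq_nonneg (203/500 * a - 819/1000 * c),
      sq_nonneg (203/500 * b - 203/500 * c),
      sq_nonneg (a ^ 2 - 671/1000)]
  · linarith [sq_nonneg (23/50 * a - 19/25 * b),
      sq_nonneg (23/50 * a - 19/25 * c),
      sq_nonneg (23/50 * b - 23/50 * c),
      sq_nonneg (a ^ 2 - 577/1000)]
  · linarith [sq_nonneg (429/1000 * a - 159/200 * b),
      sq_nonneg (429/1000 * a - 159/200 * c),
      sq_nonneg (429/1000 * b - 429/1000 * c),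
      sq_nonneg (a ^ 2 - 79/125)]
  · linarith [sq_nonneg (241/500 * a - 183/250 * b),
      sq_nonneg (241/500 * a - 183/250 * c),
      sq_nonneg (241/500 * b - 241/500 * c),
      sq_nonneg (a ^ 2 - 67/125)]
  · linarith [sq_nonneg (47/100 * a - 99/125 * b),
      sq_nonneg (389/1000 * a - 99/125 * c),
      sq_nonneg (389/1000 * b - 47/100 * c),
      sq_nonneg (a ^ 2 - 627/1000)]
  · linarith [sq_nonneg (137/250 * a - 91/125 * b),
      sq_nonneg (103/250 * a - 91/125 * c),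
      sq_nonneg (103/250 * b - 137/250 * c),
      sq_nonneg (a ^ 2 - 53/100)]
  · linarith [sq_nonneg (113/250 * a - 769/1000 * b),
      sq_nonneg (113/250 * a - 769/1000 * c),
      sq_nonneg (113/250 * b - 113/250 * c),
      sq_nonneg (a ^ 2 - 74/125)]
  · linarith [sq_nonneg (503/1000 * a - 703/1000 * b),
      sq_nonneg (503/1000 * a - 703/1000 * c),
      sq_nonneg (503/1000 * b - 503/1000 * c),
      sq_nonneg (a ^ 2 - 247/500)]

end Pool.Hopf3.EU
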