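import Pool.Agent.Lib.MP_4a593f_gt.EU.Bridge
import Pool.Agent.Lib.MP_4a593f_gt.EU.Cost
import Pool.Agent.Lib.MP_4a593f_gt.EU.Lines
import Pool.Agent.Lib.MP_4a593f_gt.EU.SevenLow
import Pool.Agent.Lib.MP_4a593f_gt.EU.SevenHigh

/-!
The least eigenvalue of the curvature term on 3-forms of `ℝ^8` for `0 ≤ sec ≤ 1`.
-/

namespace Pool.Hopf3.EU

open Finset

/-- the costs in dimension 8 in terms of the three coefficients -/
theorem seven_cost {μ : ℕ → ℝ} (hμ : ∀ k, 0 ≤ μ k) {lam h0 : ℝ} (hl6 : lam ≤ 6) :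
    (∑ v : Fin (2 * 3 + 1), max (1 / 6 * ((lam + 2 * eS μ v ^ 2 / h0) * (1 - eS μ v ^ 2))
          - (1 - eS μ v ^ 2)) 0)
      + 1 / 2 * (∑ v : Fin (2 * 3 + 1), ∑ w : Fin (2 * 3 + 1), if w = v ∨ w = eJ v then 0
          else max (4 / 3 * h0 + 2 / (3 * lam) * (|eS μ v| + |eS μ w|) ^ 2
            - eS μ v ^ 2 - eS μ w ^ 2) 0)
      + 2 / 3 * h0 * (∑ v : Fin (2 * 3 + 1), if eJ v = v then 0 else 1)
      + 1 / 3 * (∑ v : Fin (2 * 3 + 1), ∑ w : Fin (2 * 3 + 1), if w = v ∨ w = eJ v then 0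
          else |eS μ v| * |eS μ w|)
    = 2 * (max (1 / 6 * ((lam + 2 * μ 0 ^ 2 / h0) * (1 - μ 0 ^ 2)) - (1 - μ 0 ^ 2)) 0
        + max (1 / 6 * ((lam + 2 * μ 1 ^ 2 / h0) * (1 - μ 1 ^ 2)) - (1 - μ 1 ^ 2)) 0
        + max (1 / 6 * ((lam + 2 * μ 2 ^ 2 / h0) * (1 - μ 2 ^ 2)) - (1 - μ 2 ^ 2)) 0)
      + 4 * (max (4 / 3 * h0 + 2 / (3 * lam) * (μ 0 + μ 1) ^ 2 - μ 0 ^ 2 - μ 1 ^ 2) 0
        + max (4 / 3 * h0 + 2 / (3 * lam) * (μ 0 + μ 2) ^ 2 - μ 0 ^ 2 - μ 2 ^ 2) 0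
        + max (4 / 3 * h0 + 2 / (3 * lam) * (μ 1 + μ 2) ^ 2 - μ 1 ^ 2 - μ 2 ^ 2) 0)
      + 2 * (max (4 / 3 * h0 + 2 / (3 * lam) * μ 0 ^ 2 - μ 0 ^ 2) 0
        + max (4 / 3 * h0 + 2 / (3 * lam) * μ 1 ^ 2 - μ 1 ^ 2) 0
        + max (4 / 3 * h0 + 2 / (3 * lam) * μ 2 ^ 2 - μ 2 ^ 2) 0)
      + 4 * h0 + 8 / 3 * (μ 0 * μ 1 + μ 0 * μ 2 + μ 1 * μ 2) := by
  have e1 := sum_abs (m := 3) hμ (fun x => max (1 / 6 * ((lam + 2 * x ^ 2 / h0) * (1 - x ^ 2))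
          - (1 - x ^ 2)) 0)
  have e2 := sum_abs2 (m := 3) hμ (fun x y => max (4 / 3 * h0 + 2 / (3 * lam) * (x + y) ^ 2
            - x ^ 2 - y ^ 2) 0)
  have e3 := sum_abs_ker (m := 3) hμ (fun _ => 1)
  have e4 := sum_abs2 (m := 3) hμ (fun x y => x * y)
  simp only [sq_abs] at e1 e2 e3 e4
  rw [e1, e2, e3, e4]
  have z : max (1 / 6 * ((lam + 2 * (0 : ℝ) ^ 2 / h0) * (1 - (0 : ℝ) ^ 2)) - (1 - (0 : ℝ) ^ 2)) 0
      = 0 := by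
    refine max_eq_right ?_
    norm_num
    linarith
  rw [z]
  simp only [Fin.sum_univ_three, Fin.isValue, Fin.val_zero, Fin.val_one, Fin.val_two,
    if_true, zero_ne_one, one_ne_zero, if_false,
    show ¬ ((2 : Fin 3) = 0) from by decide, show ¬ ((0 : Fin 3) = 2) from by decide,
    show ¬ ((1 : Fin 3) = 2) from by decide, show ¬ ((2 : Fin 3) = 1) from by decide,
    zero_add, add_zero, mul_zero, zero_mul]
  have c1 : ∀ x y : ℝ, max (4 / 3 * h0 + 2 / (3 * lam) * (x + y) ^ 2 - x ^ 2 - y ^ 2) 0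
      = max (4 / 3 * h0 + 2 / (3 * lam) * (y + x) ^ 2 - y ^ 2 - x ^ 2) 0 := by
    intro x y
    congr 1
    ring
  rw [c1 (μ 1) (μ 0), c1 (μ 2) (μ 0), c1 (μ 2) (μ 1)]
  have z2 : ∀ x : ℝ, (4 / 3 * h0 + 2 / (3 * lam) * x ^ 2 - x ^ 2 - (0 : ℝ) ^ 2)
      = 4 / 3 * h0 + 2 / (3 * lam) * x ^ 2 - x ^ 2 := fun x => by ring
  have z3 : ∀ x : ℝ, (4 / 3 * h0 + 2 / (3 * lam) * x ^ 2 - (0 : ℝ) ^ 2 - x ^ 2)
      = 4 / 3 * h0 + 2 / (3 * lam) * x ^ 2 - x ^ 2 := fun x => by ring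
  simp only [z2, z3]
  ring

/-- twice a positive part -/
theorem two_max_or {k x y : ℝ} (h : k * x = y) : k * max x 0 = y ∨ k * max x 0 = 0 := by
  rcases max_choice x 0 with h1 | h1
  · left; rw [h1, h]
  · right; rw [h1, mul_zero]

/-- the scalar inequality in dimension 8 -/
theorem seven_scalar {a b c : ℝ} (hc : 0 ≤ c) (hbc : c ≤ b) (hab : b ≤ a)
    (hs : a ^ 2 + b ^ 2 + c ^ 2 = 1) :
    ∃ lam h0 : ℝ, 0 < lam ∧ 0 < h0 ∧ lam ≤ 6 ∧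
      2 * (max (1 / 6 * ((lam + 2 * a ^ 2 / h0) * (1 - a ^ 2)) - (1 - a ^ 2)) 0
        + max (1 / 6 * ((lam + 2 * b ^ 2 / h0) * (1 - b ^ 2)) - (1 - b ^ 2)) 0
        + max (1 / 6 * ((lam + 2 * c ^ 2 / h0) * (1 - c ^ 2)) - (1 - c ^ 2)) 0)
      + 4 * (max (4 / 3 * h0 + 2 / (3 * lam) * (a + b) ^ 2 - a ^ 2 - b ^ 2) 0
        + max (4 / 3 * h0 + 2 / (3 * lam) * (a + c) ^ 2 - a ^ 2 - c ^ 2) 0
        + max (4 / 3 * h0 + 2 / (3 * lam) * (b + c) ^ 2 - b ^ 2 - c ^ 2) 0)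
      + 2 * (max (4 / 3 * h0 + 2 / (3 * lam) * a ^ 2 - a ^ 2) 0
        + max (4 / 3 * h0 + 2 / (3 * lam) * b ^ 2 - b ^ 2) 0
        + max (4 / 3 * h0 + 2 / (3 * lam) * c ^ 2 - c ^ 2) 0)
      + 4 * h0 + 8 / 3 * (a * b + a * c + b * c) ≤ 391 / 100 := by
  have hb0 : 0 ≤ b := hc.trans hbc
  have h1 : b ^ 2 ≤ a ^ 2 := pow_le_pow_left₀ hb0 hab 2
  have h2 : c ^ 2 ≤ b ^ 2 := pow_le_pow_left₀ hc hbc 2
  have h3 : 0 ≤ c ^ 2 := sq_nonneg c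
  have h4 : 0 ≤ 1 - a ^ 2 := by linarith [sq_nonneg b]
  rcases le_total (b ^ 2) (3 / 10) with hb | hb
  · refine ⟨23 / 10, 7 / 50, by norm_num, by norm_num, by norm_num, ?_⟩
    have m1 : max (1 / 6 * ((23 / 10 + 2 * a ^ 2 / (7 / 50)) * (1 - a ^ 2)) - (1 - a ^ 2)) 0
        = (1 - a ^ 2) * (50 / 21 * a ^ 2 - 37 / 60) := by
      rw [max_eq_left]
      · ring
      · have : 0 ≤ (1 - a ^ 2) * (50 / 21 * a ^ 2 - 37 / 60) := mul_nonneg h4 (by linarith)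
        linarith
    have m2 : max (4 / 3 * (7 / 50) + 2 / (3 * (23 / 10)) * (a + b) ^ 2 - a ^ 2 - b ^ 2) 0
        = 0 := max_eq_right (by linarith [sq_nonneg (a - b)])
    have m3 : max (4 / 3 * (7 / 50) + 2 / (3 * (23 / 10)) * (a + c) ^ 2 - a ^ 2 - c ^ 2) 0
        = 0 := max_eq_right (by linarith [sq_nonneg (a - c)])
    have m4 : max (4 / 3 * (7 / 50) + 2 / (3 * (23 / 10)) * a ^ 2 - a ^ 2) 0
        = 0 := max_eq_right (by linarith)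
    have h := seven_low hc hbc hab hs hb
      (two_max_or (k := 2) (x := 1 / 6 * ((23 / 10 + 2 * b ^ 2 / (7 / 50)) * (1 - b ^ 2))
        - (1 - b ^ 2)) (by ring))
      (two_max_or (k := 2) (x := 1 / 6 * ((23 / 10 + 2 * c ^ 2 / (7 / 50)) * (1 - c ^ 2))
        - (1 - c ^ 2)) (by ring))
      (two_max_or (k := 2) (x := 4 / 3 * (7 / 50) + 2 / (3 * (23 / 10)) * b ^ 2 - b ^ 2) (by ring))
      (two_max_or (k := 2) (x := 4 / 3 * (7 / 50) + 2 / (3 * (23 / 10)) * c ^ 2 - c ^ 2) (by ring))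
      (two_max_or (k := 4) (x := 4 / 3 * (7 / 50) + 2 / (3 * (23 / 10)) * (b + c) ^ 2
        - b ^ 2 - c ^ 2) (by ring))
    rw [m1, m2, m3, m4]
    linarith
  · refine ⟨43 / 20, 13 / 80, by norm_num, by norm_num, by norm_num, ?_⟩
    have m1 : max (1 / 6 * ((43 / 20 + 2 * a ^ 2 / (13 / 80)) * (1 - a ^ 2)) - (1 - a ^ 2)) 0
        = (1 - a ^ 2) * (80 / 39 * a ^ 2 - 77 / 120) := by
      rw [max_eq_left]
      · ring
      · have : 0 ≤ (1 - a ^ 2) * (80 / 39 * a ^ 2 - 77 / 120) := mul_nonneg h4 (by linarith)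
        linarith
    have m2 : max (4 / 3 * (13 / 80) + 2 / (3 * (43 / 20)) * (a + b) ^ 2 - a ^ 2 - b ^ 2) 0
        = 0 := max_eq_right (by linarith [sq_nonneg (a - b)])
    have m3 : max (4 / 3 * (13 / 80) + 2 / (3 * (43 / 20)) * (a + c) ^ 2 - a ^ 2 - c ^ 2) 0
        = 0 := max_eq_right (by linarith [sq_nonneg (a - 3 / 2 * c)])
    have m4 : max (4 / 3 * (13 / 80) + 2 / (3 * (43 / 20)) * a ^ 2 - a ^ 2) 0
        = 0 := max_eq_right (by linarith)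
    have h := seven_high hc hbc hab hs hb
      (two_max_or (k := 2) (x := 1 / 6 * ((43 / 20 + 2 * b ^ 2 / (13 / 80)) * (1 - b ^ 2))
        - (1 - b ^ 2)) (by ring))
      (two_max_or (k := 2) (x := 1 / 6 * ((43 / 20 + 2 * c ^ 2 / (13 / 80)) * (1 - c ^ 2))
        - (1 - c ^ 2)) (by ring))
      (two_max_or (k := 2) (x := 4 / 3 * (13 / 80) + 2 / (3 * (43 / 20)) * b ^ 2 - b ^ 2) (by ring))
      (two_max_or (k := 2) (x := 4 / 3 * (13 / 80) + 2 / (3 * (43 / 20)) * c ^ 2 - c ^ 2) (by ring))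
      (two_max_or (k := 4) (x := 4 / 3 * (13 / 80) + 2 / (3 * (43 / 20)) * (b + c) ^ 2
        - b ^ 2 - c ^ 2) (by ring))
    rw [m1, m2, m3, m4]
    linarith

theorem lam_ge_seven
    {R : Fin (2 * 3 + 1 + 1) → Fin (2 * 3 + 1 + 1) → Fin (2 * 3 + 1 + 1) → Fin (2 * 3 + 1 + 1) → ℝ}
    (hR : IsCurvature R) (hs : SecIn R 0 1)
    {χ : Fin (2 * 3 + 1 + 1) → Fin (2 * 3 + 1 + 1) → Fin (2 * 3 + 1 + 1) → ℝ} {μ : ℕ → ℝ}
    {lam : ℝ} (h : EuTop χ μ) (heig : ∀ η, Form3 η → wz R χ η = lam * ip3 χ η) :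
    - (391 / 100) ≤ lam := by
  have hE : ETop χ := eTop_of_euTop h
  have hA : aV χ = nfA eJ (eS μ) := aV_eq h
  have hF : nA (aV χ) = 1 := nA_eq_one h
  have hwz : wz R χ (eA (aV χ)) = lam := by
    rw [heig _ (eA_form (aV_skew h.form)), ip3_eA h.form, hF, mul_one]
  have hsum : μ 0 ^ 2 + μ 1 ^ 2 + μ 2 ^ 2 = 1 := by
    have h1 := h.sum_sq
    rw [sum_lines] at h1
    simp only [eS_ln0, eS_ln1, eS_lnf, Fin.sum_univ_three, Fin.isValue, Fin.val_zero,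
      Fin.val_one, Fin.val_two] at h1
    linarith
  obtain ⟨la, h0, hla, hh0, hl6, hsc⟩ := seven_scalar (h.nonneg 2) (h.anti (by norm_num))
    (h.anti (by norm_num)) hsum
  have hc := cost hR hs hE (nf_eJ_eS μ) (nf_eJ_eS μ) hA hla hh0
  rw [hF, hwz, cpl_nfA] at hc
  have hz : ∀ v : Fin (2 * 3 + 1), eS μ v - eS μ v = 0 := fun v => sub_self _
  simp only [hz, mul_zero, Finset.sum_const_zero, sub_zero] at hc
  have hk := seven_cost h.nonneg (lam := la) (h0 := h0) hl6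
  linarith

/-- the Weitzenböck curvature term on 3-forms of `ℝ^8` -/
theorem bochner_ge_seven
    {R : Fin (2 * 3 + 1 + 1) → Fin (2 * 3 + 1 + 1) → Fin (2 * 3 + 1 + 1) → Fin (2 * 3 + 1 + 1) → ℝ}
    (hR : IsCurvature R) {lo hi : ℝ} (hlh : lo < hi) (hs : SecIn R lo hi)
    {φ : Fin (2 * 3 + 1 + 1) → Fin (2 * 3 + 1 + 1) → Fin (2 * 3 + 1 + 1) → ℝ} (hφ : Form3 φ) :
    2 * (15 * lo - 391 / 100 * (hi - lo)) * ip3 φ φ ≤ bochner R φ := by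
  have h := bochner_ge_of_eu (391 / 100) (fun R hR hs χ μ lam htop heig =>
    lam_ge_seven hR hs htop heig) hR hlh hs hφ
  refine le_trans (le_of_eq ?_) h
  push_cast
  ring

end Pool.Hopf3.EU
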