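import Pool.Agent.Lib.MP_4a593f_gt.EU.Defs
import Pool.Agent.Lib.MP_4a593f_gt.E83.Eig

/-!
Euclidean test form: the curvature term of `χ` against `e ∧ A`.
-/

namespace Pool.Hopf3.EU

open Finset

variable {N : ℕ}

/-- the curvature term as a bilinear form, by contractions -/
def bochB {n : ℕ} (R : Fin n → Fin n → Fin n → Fin n → ℝ) (φ Ω : Fin n → Fin n → Fin n → ℝ) : ℝ :=
  (∑ i, ∑ j, (∑ a, R i a j a) * ∑ k, ∑ l, φ i k l * Ω j k l)
    - ∑ m, ∑ i, ∑ j, ∑ k, ∑ l, R i j k l * φ i j m * Ω k l m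

theorem bochB_symm {n : ℕ} {R : Fin n → Fin n → Fin n → Fin n → ℝ} (hR : IsCurvature R)
    (φ Ω : Fin n → Fin n → Fin n → ℝ) : bochB R φ Ω = bochB R Ω φ := by
  unfold bochB
  congr 1
  · rw [Finset.sum_comm]
    refine Finset.sum_congr rfl fun i _ => Finset.sum_congr rfl fun j _ => ?_
    congr 1
    · exact Finset.sum_congr rfl fun a _ => hR.pair i a j a
    · exact Finset.sum_congr rfl fun k _ => Finset.sum_congr rfl fun l _ => mul_comm _ _
  · refine Finset.sum_congr rfl fun m _ => ?_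
    have e1 : ∑ i, ∑ j, ∑ k, ∑ l, R i j k l * φ i j m * Ω k l m
        = ∑ k, ∑ l, ∑ i, ∑ j, R i j k l * φ i j m * Ω k l m := by
      calc ∑ i, ∑ j, ∑ k, ∑ l, R i j k l * φ i j m * Ω k l m
          = ∑ i, ∑ k, ∑ j, ∑ l, R i j k l * φ i j m * Ω k l m :=
            Finset.sum_congr rfl fun i _ => Finset.sum_comm
        _ = ∑ k, ∑ i, ∑ j, ∑ l, R i j k l * φ i j m * Ω k l m := Finset.sum_comm
        _ = ∑ k, ∑ i, ∑ l, ∑ j, R i j k l * φ i j m * Ω k l m :=
            Finset.sum_congr rfl fun k _ => Finset.sum_congr rfl fun i _ => Finset.sum_comm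
        _ = _ := Finset.sum_congr rfl fun k _ => Finset.sum_comm
    rw [e1]
    refine Finset.sum_congr rfl fun k _ => Finset.sum_congr rfl fun l _ =>
      Finset.sum_congr rfl fun i _ => Finset.sum_congr rfl fun j _ => ?_
    rw [hR.pair i j k l]
    ring

theorem bochB_add_left {n : ℕ} (R : Fin n → Fin n → Fin n → Fin n → ℝ)
    (φ φ' Ω : Fin n → Fin n → Fin n → ℝ) :
    bochB R (φ + φ') Ω = bochB R φ Ω + bochB R φ' Ω := by
  unfold bochB
  simp only [Pi.add_apply, add_mul, mul_add, Finset.sum_add_distrib]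
  ring

theorem bochB_self {n : ℕ} (R : Fin n → Fin n → Fin n → Fin n → ℝ)
    (φ : Fin n → Fin n → Fin n → ℝ) : bochB R φ φ = bochner R φ := rfl

/-- polarisation of `wz_self` -/
theorem wz_eq_bochB {n : ℕ} {R : Fin n → Fin n → Fin n → Fin n → ℝ} (hR : IsCurvature R)
    {φ Ω : Fin n → Fin n → Fin n → ℝ} (hφ : Form3 φ) (hΩ : Form3 Ω) :
    wz R φ Ω = 1 / 2 * bochB R φ Ω := by
  have h1 := wz_self hR (hφ.add hΩ)
  have h2 := wz_self hR hφ
  have h3 := wz_self hR hΩ
  have e1 : wz R (φ + Ω) (φ + Ω) = wz R φ φ + 2 * wz R φ Ω + wz R Ω Ω := by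
    rw [wz_add_left, wz_symm hR φ (φ + Ω), wz_symm hR Ω (φ + Ω), wz_add_left, wz_add_left,
      wz_symm hR Ω φ]
    ring
  have e2 : bochner R (φ + Ω) = bochner R φ + 2 * bochB R φ Ω + bochner R Ω := by
    rw [← bochB_self, ← bochB_self, ← bochB_self, bochB_add_left, bochB_symm hR φ (φ + Ω),
      bochB_symm hR Ω (φ + Ω), bochB_add_left, bochB_add_left, bochB_symm hR Ω φ]
    ring
  rw [e1, e2] at h1
  linarith

section eval

@[simp] theorem eA_000 (A : Fin N → Fin N → ℝ) : eA A 0 0 0 = 0 := rfl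
@[simp] theorem eA_00s (A : Fin N → Fin N → ℝ) (k : Fin N) : eA A 0 0 k.succ = 0 := rfl
@[simp] theorem eA_0s0 (A : Fin N → Fin N → ℝ) (k : Fin N) : eA A 0 k.succ 0 = 0 := rfl
@[simp] theorem eA_s00 (A : Fin N → Fin N → ℝ) (k : Fin N) : eA A k.succ 0 0 = 0 := rfl
@[simp] theorem eA_0ss (A : Fin N → Fin N → ℝ) (j k : Fin N) : eA A 0 j.succ k.succ = A j k := rfl
@[simp] theorem eA_s0s (A : Fin N → Fin N → ℝ) (j k : Fin N) : eA A j.succ 0 k.succ = - A j k := rfl
@[simp] theorem eA_ss0 (A : Fin N → Fin N → ℝ) (j k : Fin N) : eA A j.succ k.succ 0 = A j k := rfl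
@[simp] theorem eA_sss (A : Fin N → Fin N → ℝ) (i j k : Fin N) :
    eA A i.succ j.succ k.succ = 0 := rfl

theorem eA_form {A : Fin N → Fin N → ℝ} (hA : Skew A) : Form3 (eA A) := by
  constructor
  · intro i j k
    refine Fin.cases ?_ (fun i' => ?_) i <;> refine Fin.cases ?_ (fun j' => ?_) j <;>
      refine Fin.cases ?_ (fun k' => ?_) k <;> simp
    exact hA i' j'
  · intro i j k
    refine Fin.cases ?_ (fun i' => ?_) i <;> refine Fin.cases ?_ (fun j' => ?_) j <;>
      refine Fin.cases ?_ (fun k' => ?_) k <;> simp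
    exact hA j' k'

theorem aV_skew {χ : Fin (N + 1) → Fin (N + 1) → Fin (N + 1) → ℝ} (h : Form3 χ) :
    Skew (aV χ) := fun i j => h.s23 0 i.succ j.succ

variable {R : Fin (N + 1) → Fin (N + 1) → Fin (N + 1) → Fin (N + 1) → ℝ}
  {χ : Fin (N + 1) → Fin (N + 1) → Fin (N + 1) → ℝ}

private theorem id_diag {f : ℝ} (h : f = - f) : f = 0 := by linarith

theorem form_00 (h : Form3 χ) (k : Fin (N + 1)) : χ 0 0 k = 0 := id_diag (h.s12 0 0 k)

theorem form_0x0 (h : Form3 χ) (k : Fin (N + 1)) : χ 0 k 0 = 0 := by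
  rw [h.s23 0 0 k, form_00 h, neg_zero]

theorem form_x00 (h : Form3 χ) (k : Fin (N + 1)) : χ k 0 0 = 0 := id_diag (h.s23 k 0 0)

theorem form_s0s (h : Form3 χ) (j k : Fin N) : χ j.succ 0 k.succ = - aV χ j k := h.s12 0 j.succ k.succ

theorem form_ss0 (h : Form3 χ) (j k : Fin N) : χ j.succ k.succ 0 = aV χ j k := by
  rw [h.s23 j.succ 0 k.succ, form_s0s h, neg_neg]

private theorem id_ric0 (hR : IsCurvature R) : ∑ a, R 0 a 0 a = ∑ v, rE R v v := by
  rw [Fin.sum_univ_succ, id_diag (hR.skew12 0 0 0 0), zero_add]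
  rfl

private theorem id_ricV (hR : IsCurvature R) (v w : Fin N) :
    ∑ a, R v.succ a w.succ a = rE R v w + ∑ u, rV R v u w u := by
  rw [Fin.sum_univ_succ]
  congr 1
  rw [hR.skew12 0 v.succ w.succ 0, hR.skew34 0 v.succ 0 w.succ, neg_neg]
  rfl

private theorem id_first (hR : IsCurvature R) (h : ETop χ) :
    ∑ i, ∑ j, (∑ a, R i a j a) * ∑ k, ∑ l, χ i k l * eA (aV χ) j k l
      = 2 * nA (aV χ) * ∑ v, rE R v v
        + 2 * ∑ v, ∑ w, (rE R v w + ∑ u, rV R v u w u) * ∑ b, aV χ v b * aV χ w b := by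
  have g00 : ∑ k, ∑ l, χ 0 k l * eA (aV χ) 0 k l = 2 * nA (aV χ) := by
    simp only [Fin.sum_univ_succ (n := N), eA_000, eA_00s, eA_0s0, eA_0ss, mul_zero,
      Finset.sum_const_zero, zero_add, add_zero]
    unfold nA
    rw [← mul_assoc]
    norm_num
    rfl
  have gv0 : ∀ v : Fin N, ∑ k, ∑ l, χ v.succ k l * eA (aV χ) 0 k l = 0 := by
    intro v
    simp only [Fin.sum_univ_succ (n := N), eA_000, eA_00s, eA_0s0, eA_0ss, mul_zero,
      Finset.sum_const_zero, zero_add, add_zero]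
    exact h.first v
  have g0w : ∀ w : Fin N, ∑ k, ∑ l, χ 0 k l * eA (aV χ) w.succ k l = 0 := by
    intro w
    simp only [Fin.sum_univ_succ (n := N), eA_s0s, eA_sss, mul_zero,
      Finset.sum_const_zero, zero_add, add_zero, form_00 h.form, form_0x0 h.form, zero_mul]
  have gvw : ∀ v w : Fin N, ∑ k, ∑ l, χ v.succ k l * eA (aV χ) w.succ k l
      = 2 * ∑ b, aV χ v b * aV χ w b := by
    intro v w
    simp only [Fin.sum_univ_succ (n := N), eA_s00, eA_s0s, eA_ss0, eA_sss, mul_zero,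
      Finset.sum_const_zero, zero_add, add_zero, form_s0s h.form, form_ss0 h.form, neg_mul_neg]
    ring
  have e : ∀ i : Fin (N + 1), ∑ j, (∑ a, R i a j a) * ∑ k, ∑ l, χ i k l * eA (aV χ) j k l
      = (∑ a, R i a 0 a) * (∑ k, ∑ l, χ i k l * eA (aV χ) 0 k l)
        + ∑ w : Fin N, (∑ a, R i a w.succ a) * ∑ k, ∑ l, χ i k l * eA (aV χ) w.succ k l :=
    fun i => Fin.sum_univ_succ _
  rw [Finset.sum_congr rfl fun i _ => e i, Fin.sum_univ_succ, g00, id_ric0 hR]
  simp only [gv0, g0w, gvw, mul_zero, Finset.sum_const_zero, add_zero, zero_add, id_ricV hR]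
  congr 1
  · ring
  · rw [Finset.mul_sum]
    refine Finset.sum_congr rfl fun v _ => ?_
    rw [Finset.mul_sum]
    exact Finset.sum_congr rfl fun w _ => by ring

private theorem id_second (hR : IsCurvature R) (h : ETop χ) :
    ∑ m, ∑ i, ∑ j, ∑ k, ∑ l, R i j k l * χ i j m * eA (aV χ) k l m
      = (∑ i, ∑ j, ∑ k, ∑ l, rV R i j k l * aV χ i j * aV χ k l)
        + ∑ m, ∑ l, (4 * ∑ j, rE R j l * (aV χ j m * aV χ l m)
          + 2 * ∑ i, ∑ j, rT R l i j * psV χ i j m * aV χ l m) := by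
  rw [Fin.sum_univ_succ]
  congr 1
  · -- `m = 0`
    simp only [Fin.sum_univ_succ (n := N), eA_000, eA_0s0, eA_s00, eA_ss0, mul_zero,
      Finset.sum_const_zero, zero_add, add_zero, form_0x0 h.form, form_x00 h.form,
      form_ss0 h.form, zero_mul]
    rfl
  · refine Finset.sum_congr rfl fun m _ => ?_
    have e0 : ∀ i j : Fin (N + 1), ∑ k, ∑ l, R i j k l * χ i j m.succ * eA (aV χ) k l m.succ
        = 2 * ∑ l : Fin N, R i j 0 l.succ * χ i j m.succ * aV χ l m := by
      intro i j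
      simp only [Fin.sum_univ_succ (n := N), eA_00s, eA_0ss, eA_s0s, eA_sss, mul_zero,
        Finset.sum_const_zero, zero_add, add_zero]
      rw [two_mul]
      congr 1
      refine Finset.sum_congr rfl fun k _ => ?_
      rw [hR.skew34 i j 0 k.succ]
      ring
    simp only [e0]
    have e1 : ∑ i : Fin (N + 1), ∑ j : Fin (N + 1),
        2 * ∑ l : Fin N, R i j 0 l.succ * χ i j m.succ * aV χ l m
        = ∑ l : Fin N, 2 * (∑ i : Fin (N + 1), ∑ j : Fin (N + 1),
          R i j 0 l.succ * χ i j m.succ * aV χ l m) := by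
      simp only [Finset.mul_sum]
      rw [Finset.sum_comm]
      rw [Finset.sum_congr rfl fun j _ => Finset.sum_comm]
      rw [Finset.sum_comm]
      refine Finset.sum_congr rfl fun l _ => ?_
      rw [Finset.sum_comm]
    rw [e1]
    refine Finset.sum_congr rfl fun l _ => ?_
    have e2 : ∑ i : Fin (N + 1), ∑ j : Fin (N + 1), R i j 0 l.succ * χ i j m.succ * aV χ l m
        = 2 * (∑ j, rE R j l * (aV χ j m * aV χ l m))
          + ∑ i, ∑ j, rT R l i j * psV χ i j m * aV χ l m := by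
      simp only [Fin.sum_univ_succ (n := N), form_00 h.form, form_s0s h.form, mul_zero, zero_mul,
        zero_add, Finset.sum_add_distrib]
      have a1 : ∀ j : Fin N, R 0 j.succ 0 l.succ * χ 0 j.succ m.succ * aV χ l m
          = rE R j l * (aV χ j m * aV χ l m) := fun j => by
        unfold rE aV
        ring
      have a2 : ∀ j : Fin N, R j.succ 0 0 l.succ * -aV χ j m * aV χ l m
          = rE R j l * (aV χ j m * aV χ l m) := fun j => by
        rw [hR.skew12 0 j.succ 0 l.succ]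
        unfold rE
        ring
      have a3 : ∀ i j : Fin N, R i.succ j.succ 0 l.succ * χ i.succ j.succ m.succ * aV χ l m
          = rT R l i j * psV χ i j m * aV χ l m := fun i j => by
        rw [hR.pair 0 l.succ i.succ j.succ]
        rfl
      simp only [a1, a2, a3]
      ring
    rw [e2]
    ring

/-- **The curvature term against `e ∧ A`.** -/
theorem wz_eA (hR : IsCurvature R) (h : ETop χ) :
    wz R χ (eA (aV χ)) = (∑ v, ∑ w, ((if v = w then nA (aV χ) else 0)
        - ∑ b, aV χ v b * aV χ w b) * rE R v w) + w2 (rV R) (aV χ)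
      - ∑ l, ∑ i, ∑ j, ∑ a, rT R l i j * psV χ i j a * aV χ l a := by
  rw [wz_eq_bochB hR h.form (eA_form (aV_skew h.form))]
  unfold bochB
  rw [id_first hR h, id_second hR h]
  have e1 : ∑ v, ∑ w, ((if v = w then nA (aV χ) else 0)
      - ∑ b, aV χ v b * aV χ w b) * rE R v w
      = nA (aV χ) * ∑ v, rE R v v - ∑ v, ∑ w, rE R v w * ∑ b, aV χ v b * aV χ w b := by
    simp only [sub_mul, Finset.sum_sub_distrib, ite_mul, zero_mul, Finset.sum_ite_eq,
      Finset.mem_univ, if_true, ← Finset.mul_sum]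
    congr 1
    exact Finset.sum_congr rfl fun v _ => Finset.sum_congr rfl fun w _ => mul_comm _ _
  have e2 : ∑ m, ∑ l, (4 * ∑ j, rE R j l * (aV χ j m * aV χ l m)
      + 2 * ∑ i, ∑ j, rT R l i j * psV χ i j m * aV χ l m)
      = 4 * (∑ v, ∑ w, rE R v w * ∑ b, aV χ v b * aV χ w b)
        + 2 * ∑ l, ∑ i, ∑ j, ∑ a, rT R l i j * psV χ i j a * aV χ l a := by
    simp only [Finset.sum_add_distrib]
    congr 1
    · simp only [Finset.mul_sum]
      rw [Finset.sum_comm]
      rw [Finset.sum_congr rfl fun l _ => Finset.sum_comm]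
      rw [Finset.sum_comm]
    · simp only [Finset.mul_sum]
      rw [Finset.sum_comm]
      refine Finset.sum_congr rfl fun l _ => ?_
      rw [Finset.sum_comm]
      refine Finset.sum_congr rfl fun i _ => ?_
      rw [Finset.sum_comm]
  have e3 : ∑ v, ∑ w, (rE R v w + ∑ u, rV R v u w u) * ∑ b, aV χ v b * aV χ w b
      = (∑ v, ∑ w, rE R v w * ∑ b, aV χ v b * aV χ w b)
        + ∑ v, ∑ w, (∑ u, rV R v u w u) * ∑ b, aV χ v b * aV χ w b := by
    simp only [add_mul, Finset.sum_add_distrib]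
  rw [e1, e2, e3]
  unfold w2
  ring

end eval

end Pool.Hopf3.EU
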