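import Pool.Agent.Lib.MP_4a593f_gt.EU.Defs
import Pool.Agent.Lib.MP_4a593f_gt.P3.Basic

/-!
The data of a top form on `V = e_0^⊥` (index type `Fin N`): partner map `eJ`, signed coefficients
`eS`, restriction `psiV`, and the two consequences of the top property.
-/

namespace Pool.Hopf3

open Finset

variable {N : ℕ}

/-- the partner of an index of `V` -/
def eJ (i : Fin N) : Fin N :=
  if i.val % 2 = 0 then (if h : i.val + 1 < N then ⟨i.val + 1, h⟩ else i)
  else ⟨i.val - 1, by omega⟩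

/-- signed coefficient of the slice -/
def eS (μ : ℕ → ℝ) (i : Fin N) : ℝ :=
  if i.val % 2 = 0 then (if i.val + 1 < N then μ (i.val / 2) else 0) else - μ (i.val / 2)

/-- restriction of a 3-form to `V` -/
def psiV (χ : Fin (N + 1) → Fin (N + 1) → Fin (N + 1) → ℝ) (i j k : Fin N) : ℝ :=
  χ i.succ j.succ k.succ

theorem eJ_eJ (i : Fin N) : eJ (eJ i) = i := by
  unfold eJ
  apply Fin.ext
  by_cases h : i.val % 2 = 0
  · by_cases h2 : i.val + 1 < N
    · have h3 : ¬ (i.val + 1) % 2 = 0 := by omega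
      simp [h, h2, h3]
    · simp [h, h2]
  · have h3 : (i.val - 1) % 2 = 0 := by omega
    have h4 : i.val - 1 + 1 < N := by omega
    simp [h, h3, h4]
    omega

theorem eS_eJ (μ : ℕ → ℝ) (i : Fin N) : eS μ (eJ i) = - eS μ i := by
  unfold eS eJ
  by_cases h : i.val % 2 = 0
  · by_cases h2 : i.val + 1 < N
    · have h3 : ¬ (i.val + 1) % 2 = 0 := by omega
      have h4 : (i.val + 1) / 2 = i.val / 2 := by omega
      simp [h, h2, h3, h4]
    · simp [h, h2]
  · have h3 : (i.val - 1) % 2 = 0 := by omega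
    have h4 : i.val - 1 + 1 < N := by omega
    have h5 : (i.val - 1) / 2 = i.val / 2 := by omega
    simp [h, h3, h4, h5]

theorem nf_eJ (μ : ℕ → ℝ) (i j : Fin N) :
    nf μ i.val j.val = if j = eJ i then eS μ i else 0 := by
  unfold nf eS eJ
  by_cases h : i.val % 2 = 0
  · by_cases h2 : i.val + 1 < N
    · by_cases h3 : j.val = i.val + 1
      · have h4 : j = ⟨i.val + 1, h2⟩ := Fin.ext h3
        simp [h, h2, h3, h4]
      · have h4 : j ≠ ⟨i.val + 1, h2⟩ := fun hh => h3 (by rw [hh])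
        have h5 : ¬ (i.val = j.val + 1 ∧ j.val % 2 = 0) := by omega
        simp only [h, h2, h3, h4, h5, if_true, if_false, false_and, dif_pos]
    · have h3 : ¬ (j.val = i.val + 1 ∧ i.val % 2 = 0) := by omega
      have h5 : ¬ (i.val = j.val + 1 ∧ j.val % 2 = 0) := by omega
      rw [if_neg h3, if_neg h5, if_pos h, if_pos h, if_neg h2]
      split_ifs <;> rfl
  · have h3 : ¬ (j.val = i.val + 1 ∧ i.val % 2 = 0) := by omega
    by_cases h5 : i.val = j.val + 1
    · have h6 : j = ⟨i.val - 1, by omega⟩ := Fin.ext (by simp; omega)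
      have h7 : i.val = j.val + 1 ∧ j.val % 2 = 0 := ⟨h5, by omega⟩
      have h8 : j.val / 2 = i.val / 2 := by omega
      rw [if_neg h3, if_pos h7, if_neg h, if_neg h, if_pos h6, h8]
    · have h6 : j ≠ ⟨i.val - 1, by omega⟩ := by
        intro hh
        have := congrArg Fin.val hh
        simp only at this
        omega
      have h7 : ¬ (i.val = j.val + 1 ∧ j.val % 2 = 0) := fun hh => h5 hh.1
      rw [if_neg h3, if_neg h7, if_neg h, if_neg h6]

theorem sum_eJ (f : Fin N → ℝ) : ∑ i, f (eJ i) = ∑ i, f i :=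
  Fintype.sum_equiv ⟨eJ, eJ, eJ_eJ, eJ_eJ⟩ _ _ fun _ => rfl

theorem eq_eJ_comm (i j : Fin N) : j = eJ i ↔ i = eJ j := by
  constructor
  · intro h; rw [h, eJ_eJ]
  · intro h; rw [h, eJ_eJ]

variable {χ : Fin (N + 1) → Fin (N + 1) → Fin (N + 1) → ℝ} {μ : ℕ → ℝ}

theorem Form3.z12 {ι : Type} {χ : ι → ι → ι → ℝ} (h : Form3 χ) (i k : ι) : χ i i k = 0 := by
  have := h.s12 i i k
  linarith

theorem Form3.z23 {ι : Type} {χ : ι → ι → ι → ℝ} (h : Form3 χ) (i k : ι) : χ i k k = 0 := by
  have := h.s23 i k k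
  linarith

theorem Form3.z13 {ι : Type} {χ : ι → ι → ι → ℝ} (h : Form3 χ) (i k : ι) : χ i k i = 0 := by
  have h1 := h.s23 i k i
  have h2 := h.z12 i k
  linarith

theorem psiV_form (h : Form3 χ) : Form3 (psiV χ) :=
  ⟨fun _ _ _ => h.s12 _ _ _, fun _ _ _ => h.s23 _ _ _⟩

theorem EuTop.slice' (h : EuTop χ μ) (i j : Fin N) :
    χ 0 i.succ j.succ = if j = eJ i then eS μ i else 0 := by
  rw [h.slice, nf_eJ]

/-- expansion of the norm of a skew 2-tensor along `e_0` -/
theorem ip2_succ {L M : Fin (N + 1) → Fin (N + 1) → ℝ} (hL : Skew L) (hM : Skew M) :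
    ip2 L M = (∑ k : Fin N, L 0 k.succ * M 0 k.succ)
      + 1 / 2 * ∑ j : Fin N, ∑ k : Fin N, L j.succ k.succ * M j.succ k.succ := by
  unfold ip2
  rw [Fin.sum_univ_succ]
  have h00 : L 0 0 = 0 := by have := hL 0 0; linarith
  simp only [Fin.sum_univ_succ, Finset.sum_add_distrib]
  have e : ∀ i : Fin N, L i.succ 0 * M i.succ 0 = L 0 i.succ * M 0 i.succ := by
    intro i
    rw [hL 0 i.succ, hM 0 i.succ]
    ring
  simp only [e, h00]
  ring

theorem EuTop.sum_sq (h : EuTop χ μ) : ∑ i : Fin N, eS μ i ^ 2 = 2 := by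
  have hsk : Skew (χ 0) := fun i j => h.form.s23 _ _ _
  have h1 := h.norm
  rw [ip2_succ hsk hsk] at h1
  have e0 : ∀ k : Fin N, χ 0 0 k.succ = 0 := fun k => h.form.z12 _ _
  simp only [e0, mul_zero, Finset.sum_const_zero, zero_add, h.slice'] at h1
  have e1 : ∀ j : Fin N, ∑ k : Fin N, (if k = eJ j then eS μ j else 0) *
      (if k = eJ j then eS μ j else 0) = eS μ j ^ 2 := by
    intro j
    rw [Finset.sum_eq_single (eJ j) (fun k _ hk => by simp [hk])
      (fun hh => absurd (Finset.mem_univ _) hh)]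
    simp [sq]
  simp only [e1] at h1
  linarith

/-- slices of `χ` in directions of `V` are orthogonal to the slice in direction `e_0` -/
theorem EuTop.ortho0 (h : EuTop χ μ) (i : Fin N) : ip2 (χ 0) (χ i.succ) = 0 := by
  have key : ∀ t : ℝ, 2 * t * ip2 (χ 0) (χ i.succ) + t ^ 2 * ip2 (χ i.succ) (χ i.succ)
      ≤ t ^ 2 := by
    intro t
    have h1 := h.top (fun a => (if a = 0 then 1 else 0) + t * (if a = i.succ then 1 else 0))
    have e1 : slc χ (fun a => (if a = 0 then 1 else 0) + t * (if a = i.succ then 1 else 0))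
        = fun j k => χ 0 j k + t * χ i.succ j k := by
      funext j k
      unfold slc
      simp only [add_mul, mul_assoc, Finset.sum_add_distrib, ← Finset.mul_sum]
      simp
    have e2 : dotp (fun a => (if a = 0 then (1 : ℝ) else 0) + t * (if a = i.succ then 1 else 0))
        (fun a => (if a = 0 then 1 else 0) + t * (if a = i.succ then 1 else 0)) = 1 + t ^ 2 := by
      unfold dotp
      rw [Fin.sum_univ_succ]
      have e3 : ∀ a : Fin N, ((if a.succ = 0 then (1 : ℝ) else 0)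
          + t * (if a.succ = i.succ then 1 else 0)) * ((if a.succ = 0 then 1 else 0)
          + t * (if a.succ = i.succ then 1 else 0)) = if a = i then t ^ 2 else 0 := by
        intro a
        simp only [Fin.succ_ne_zero, if_false, Fin.succ_inj]
        split_ifs <;> ring
      simp only [e3]
      simp [(Fin.succ_ne_zero i).symm]
    rw [e1, e2] at h1
    have e4 : ip2 (fun j k => χ 0 j k + t * χ i.succ j k) (fun j k => χ 0 j k + t * χ i.succ j k)
        = ip2 (χ 0) (χ 0) + 2 * t * ip2 (χ 0) (χ i.succ)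
          + t ^ 2 * ip2 (χ i.succ) (χ i.succ) := by
      unfold ip2
      have e5 : ∀ j k, (χ 0 j k + t * χ i.succ j k) * (χ 0 j k + t * χ i.succ j k)
          = χ 0 j k * χ 0 j k + 2 * t * (χ 0 j k * χ i.succ j k)
            + t ^ 2 * (χ i.succ j k * χ i.succ j k) := fun j k => by ring
      simp only [e5, Finset.sum_add_distrib, ← Finset.mul_sum]
      ring
    rw [e4, h.norm] at h1
    linarith
  set A := ip2 (χ 0) (χ i.succ) with hA
  set B := ip2 (χ i.succ) (χ i.succ) with hB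
  have hB0 : 0 ≤ B := ip2_self_nonneg _
  have h1 := key A
  have h2 := key (-A)
  -- `2 A² + A² B ≤ A²`
  have h3 : A ^ 2 * (1 + B) ≤ 0 := by nlinarith
  have h4 : A ^ 2 ≤ 0 := by nlinarith [sq_nonneg A, mul_nonneg (sq_nonneg A) hB0]
  exact pow_eq_zero_iff (two_ne_zero) |>.1 (le_antisymm h4 (sq_nonneg A))

theorem EuTop.ortho (h : EuTop χ μ) (i : Fin N) :
    ∑ j, psiV χ i j (eJ j) * eS μ j = 0 := by
  have h1 := h.ortho0 i
  have hsk : ∀ a, Skew (χ a) := fun a i j => h.form.s23 _ _ _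
  rw [ip2_succ (hsk _) (hsk _)] at h1
  have e0 : ∀ k : Fin N, χ 0 0 k.succ = 0 := fun k => h.form.z12 _ _
  simp only [e0, zero_mul, Finset.sum_const_zero, zero_add, h.slice'] at h1
  have e1 : ∀ j : Fin N, ∑ k : Fin N, (if k = eJ j then eS μ j else 0) * χ i.succ j.succ k.succ
      = psiV χ i j (eJ j) * eS μ j := by
    intro j
    rw [Finset.sum_eq_single (eJ j) (fun k _ hk => by simp [hk])
      (fun hh => absurd (Finset.mem_univ _) hh)]
    simp only [if_true, psiV]
    ring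
  simp only [e1] at h1
  linarith

theorem EuTop.slc_le (h : EuTop χ μ) (w : Fin N → ℝ) :
    ∑ j, ∑ k, (∑ i, w i * psiV χ i j k) ^ 2 ≤ 2 * ∑ i, (1 - eS μ i ^ 2) * w i ^ 2 := by
  have h1 := h.top (Fin.cons (α := fun _ => ℝ) 0 w)
  have e1 : ∀ j k, slc χ (Fin.cons (α := fun _ => ℝ) 0 w) j k = ∑ i, w i * χ i.succ j k := by
    intro j k
    unfold slc
    rw [Fin.sum_univ_succ]
    simp
  have hsk : Skew (slc χ (Fin.cons (α := fun _ => ℝ) 0 w)) := by
    intro j k
    rw [e1, e1, ← Finset.sum_neg_distrib]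
    refine Finset.sum_congr rfl fun i _ => ?_
    rw [h.form.s23 i.succ j k]
    ring
  rw [ip2_succ hsk hsk] at h1
  have e2 : dotp (Fin.cons (α := fun _ => ℝ) 0 w : Fin (N + 1) → ℝ)
      (Fin.cons (α := fun _ => ℝ) 0 w) = ∑ i, w i ^ 2 := by
    unfold dotp
    rw [Fin.sum_univ_succ]
    simp [sq]
  rw [e2] at h1
  have e3 : ∀ k : Fin N, slc χ (Fin.cons (α := fun _ => ℝ) 0 w) 0 k.succ
      = w (eJ k) * eS μ k := by
    intro k
    rw [e1]
    have e4 : ∀ i : Fin N, w i * χ i.succ 0 k.succ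
        = if i = eJ k then - (w i * eS μ i) else 0 := by
      intro i
      rw [h.form.s12 0 i.succ k.succ, h.slice']
      by_cases hik : k = eJ i
      · have : i = eJ k := (eq_eJ_comm i k).1 hik
        rw [if_pos hik, if_pos this]
        ring
      · have : ¬ i = eJ k := fun hh => hik ((eq_eJ_comm i k).2 hh)
        rw [if_neg hik, if_neg this]
        ring
    simp only [e4, Finset.sum_ite_eq', Finset.mem_univ, if_true]
    rw [eS_eJ]
    ring
  simp only [e3] at h1
  have e5 : ∑ k : Fin N, w (eJ k) * eS μ k * (w (eJ k) * eS μ k) = ∑ k, w k ^ 2 * eS μ k ^ 2 := by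
    rw [← sum_eJ (fun k => w k ^ 2 * eS μ k ^ 2)]
    refine Finset.sum_congr rfl fun k _ => ?_
    rw [eS_eJ]
    ring
  rw [e5] at h1
  simp only [e1] at h1
  have e6 : ∑ i, (1 - eS μ i ^ 2) * w i ^ 2 = (∑ i, w i ^ 2) - ∑ i, w i ^ 2 * eS μ i ^ 2 := by
    rw [← Finset.sum_sub_distrib]
    refine Finset.sum_congr rfl fun i _ => by ring
  rw [e6]
  unfold psiV
  simp only [pow_two] at h1 ⊢
  linarith

end Pool.Hopf3
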