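import Pool.Agent.Lib.MP_4a593f_gt.EU.Main
import Pool.Agent.Lib.MP_4a593f_gt.EU.Tab
import Pool.Agent.Lib.MP_4a593f_gt.EU.Ident

/-!
From `Core N c` to the Weitzenböck curvature term of all 3-forms of `ℝ^(N+1)`.
-/

namespace Pool.Hopf3

open Finset

namespace EU

variable {N : ℕ}

theorem ip3_eA {χ : Fin (N + 1) → Fin (N + 1) → Fin (N + 1) → ℝ} (h : Form3 χ) :
    ip3 χ (eA (aV χ)) = nA (aV χ) := by
  unfold ip3 nA
  have e : ∀ i j k : Fin N, χ i.succ j.succ k.succ * eA (aV χ) i.succ j.succ k.succ = 0 := by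
    intro i j k
    simp [eA]
  have e1 : ∀ a b : Fin N, χ a.succ 0 b.succ = - χ 0 a.succ b.succ := fun a b => h.s12 _ _ _
  have e2 : ∀ a b : Fin N, χ a.succ b.succ 0 = χ 0 a.succ b.succ := by
    intro a b
    rw [h.s23 a.succ 0 b.succ, h.s12 0 a.succ b.succ]
    ring
  have f1 : ∀ b c : Fin N, eA (aV χ) 0 b.succ c.succ = aV χ b c := fun b c => by simp [eA]
  have f2 : ∀ a c : Fin N, eA (aV χ) a.succ 0 c.succ = - aV χ a c := fun b c => by simp [eA]
  have f3 : ∀ a b : Fin N, eA (aV χ) a.succ b.succ 0 = aV χ a b := fun b c => by simp [eA]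
  have g1 : eA (aV χ) 0 0 0 = 0 := by simp [eA]
  have g2 : ∀ c : Fin N, eA (aV χ) 0 0 c.succ = 0 := fun c => by simp [eA]
  have g3 : ∀ c : Fin N, eA (aV χ) 0 c.succ 0 = 0 := fun c => by simp [eA]
  have g4 : ∀ c : Fin N, eA (aV χ) c.succ 0 0 = 0 := fun c => by simp [eA]
  simp only [Fin.sum_univ_succ, e, e1, e2, f1, f2, f3, g1, g2, g3, g4, mul_zero, zero_add,
    add_zero, Finset.sum_const_zero, Finset.sum_add_distrib]
  have e3 : ∀ a b : Fin N, - χ 0 a.succ b.succ * - aV χ a b = aV χ a b * aV χ a b := by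
    intro a b
    unfold aV
    ring
  have e4 : ∀ a b : Fin N, χ 0 a.succ b.succ * aV χ a b = aV χ a b * aV χ a b := by
    intro a b
    rfl
  simp only [e3, e4]
  ring

theorem nf_eJ_eS (μ : ℕ → ℝ) : NF (eJ : Fin N → Fin N) (eS μ) := ⟨eJ_eJ, eS_eJ μ⟩

variable {χ : Fin (N + 1) → Fin (N + 1) → Fin (N + 1) → ℝ} {μ : ℕ → ℝ}

theorem aV_eq (h : EuTop χ μ) : aV χ = nfA eJ (eS μ) := by
  funext i j
  exact h.slice' i j

theorem nA_nfA {J : Fin N → Fin N} {s : Fin N → ℝ} :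
    nA (nfA J s) = 1 / 2 * ∑ v, s v ^ 2 := by
  unfold nA nfA
  congr 1
  refine Finset.sum_congr rfl fun v _ => ?_
  rw [Finset.sum_eq_single (J v) (fun k _ hk => by simp [hk])
    (fun hh => absurd (Finset.mem_univ _) hh)]
  simp [sq]

theorem nA_eq_one (h : EuTop χ μ) : nA (aV χ) = 1 := by
  rw [aV_eq h, nA_nfA, h.sum_sq]
  norm_num

theorem eTop_of_euTop (h : EuTop χ μ) : ETop χ := by
  refine ⟨h.form, ?_, ?_⟩
  · intro v
    rw [aV_eq h]
    have h1 := h.ortho v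
    rw [← h1]
    refine Finset.sum_congr rfl fun i _ => ?_
    unfold nfA
    rw [Finset.sum_eq_single (eJ i) (fun k _ hk => by simp [hk])
      (fun hh => absurd (Finset.mem_univ _) hh)]
    simp [psV, psiV]
  · intro w
    have h1 := h.slc_le w
    rw [nA_eq_one h]
    have e1 : ∑ b, (∑ v, w v * aV χ v b) ^ 2 = ∑ v, eS μ v ^ 2 * w v ^ 2 := by
      rw [← sum_eJ (fun v => eS μ v ^ 2 * w v ^ 2)]
      refine Finset.sum_congr rfl fun b _ => ?_
      rw [aV_eq h]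
      have e2 : ∀ v, w v * nfA eJ (eS μ) v b = if v = eJ b then w v * eS μ v else 0 := by
        intro v
        unfold nfA
        by_cases hb : b = eJ v
        · rw [if_pos hb, if_pos ((eq_eJ_comm v b).1 hb)]
        · rw [if_neg hb, if_neg (fun hh => hb ((eq_eJ_comm v b).2 hh)), mul_zero]
      simp only [e2, Finset.sum_ite_eq', Finset.mem_univ, if_true]
      ring
    rw [e1]
    have e3 : 2 * ∑ i, (1 - eS μ i ^ 2) * w i ^ 2
        = 2 * 1 * (∑ v, w v ^ 2) - 2 * ∑ v, eS μ v ^ 2 * w v ^ 2 := by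
      rw [mul_one, ← mul_sub, ← Finset.sum_sub_distrib]
      congr 1
      refine Finset.sum_congr rfl fun i _ => by ring
    rw [e3] at h1
    exact h1

/-- The curvature term on 3-forms of `ℝ^(N+1)` from the core estimate with constant `c`. -/
theorem bochner_ge_of_Core {c : ℝ} (hcore : Core N c)
    {R : Fin (N + 1) → Fin (N + 1) → Fin (N + 1) → Fin (N + 1) → ℝ} (hR : IsCurvature R)
    {lo hi : ℝ} (hlh : lo < hi) (hs : SecIn R lo hi)
    {φ : Fin (N + 1) → Fin (N + 1) → Fin (N + 1) → ℝ} (hφ : Form3 φ) :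
    2 * (3 * ((N : ℝ) - 2) * lo - c * (hi - lo)) * ip3 φ φ ≤ bochner R φ := by
  refine bochner_ge_of_eu c ?_ hR hlh hs hφ
  intro R1 hR1 hs1 χ μ lam htop heig
  have h1 := hcore R1 hR1 hs1 χ (eTop_of_euTop htop) eJ (eS μ) (nf_eJ_eS μ) (aV_eq htop)
  rw [heig _ (eA_form (aV_skew htop.form)), ip3_eA htop.form, nA_eq_one htop] at h1
  linarith

end EU

end Pool.Hopf3
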