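import Mathlib

/-!
Euclidean test form, the final scalar inequality: for nonnegative numbers `l_a`, `a` in a set of
`m` elements, with mean `τ`, truncations `t_a = min (l_a, τ)`, the total cost is at most
`(24/25) (2m-1) ∑ l_a²`.
-/

namespace Pool.Hopf3.EU

open Finset

/-- The quartic form behind the constant `24/25`. -/
theorem scal_quartic (p q : ℝ) :
    0 ≤ 2261 * p ^ 4 - 6656 * p ^ 3 * q + 2166 * p ^ 2 * q ^ 2 + 3344 * p * q ^ 3
      + 2261 * q ^ 4 := by
  have h1 : 2261 * p ^ 4 - 6656 * p ^ 3 * q + 2166 * p ^ 2 * q ^ 2 + 3344 * p * q ^ 3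
      + 2261 * q ^ 4 = 2261 * (p ^ 2 - 3328 / 2261 * (p * q) - 7 / 10 * q ^ 2) ^ 2
        + (2166 - 3328 ^ 2 / 2261 + 2261 * (7 / 5)) * (p * q) ^ 2
        + (3344 - 3328 * (7 / 5)) * (p * q) * q ^ 2 + 2261 * (51 / 100) * (q ^ 2) ^ 2 := by
    ring
  have h2 : 0 ≤ (2166 - 3328 ^ 2 / 2261 + 2261 * (7 / 5) : ℝ) * (p * q) ^ 2
        + (3344 - 3328 * (7 / 5)) * (p * q) * q ^ 2 + 2261 * (51 / 100) * (q ^ 2) ^ 2 := by
    nlinarith [sq_nonneg (p * q - 3 / 2 * q ^ 2), sq_nonneg (p * q), sq_nonneg (q ^ 2),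
      sq_nonneg (p * q - 16 / 10 * q ^ 2), sq_nonneg (p * q - 14 / 10 * q ^ 2)]
  rw [h1]
  nlinarith [sq_nonneg (p ^ 2 - 3328 / 2261 * (p * q) - 7 / 10 * q ^ 2)]

/-- The quadratic inequality in `d`. -/
theorem scal_quad (m p q d : ℝ) (hpq : p + q = m) (hp : 0 < p) (hq : 0 < q) :
    0 ≤ 19 * m ^ 2 * (p * q) - 200 * (p ^ 2 * q) * d + (119 * m ^ 2 - 300 * (p * q)) * d ^ 2 := by
  have hm : 0 < m := by linarith
  have ha : 0 < 19 * m ^ 2 * (p * q) := by positivity
  have hk : 0 ≤ (p * q) * (2261 * m ^ 4 - 5700 * (m ^ 2 * (p * q)) - 10000 * (p ^ 3 * q)) := by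
    refine mul_nonneg (by positivity) ?_
    have h := scal_quartic p q
    subst hpq
    nlinarith [h]
  have h1 : 0 ≤ 19 * m ^ 2 * (p * q) *
      (19 * m ^ 2 * (p * q) - 200 * (p ^ 2 * q) * d + (119 * m ^ 2 - 300 * (p * q)) * d ^ 2) := by
    have h2 : 19 * m ^ 2 * (p * q) *
      (19 * m ^ 2 * (p * q) - 200 * (p ^ 2 * q) * d + (119 * m ^ 2 - 300 * (p * q)) * d ^ 2) =
      (19 * m ^ 2 * (p * q) - 100 * (p ^ 2 * q) * d) ^ 2 + ((p * q) * (2261 * m ^ 4 -
        5700 * (m ^ 2 * (p * q)) - 10000 * (p ^ 3 * q))) * d ^ 2 := by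
      ring
    rw [h2]
    positivity
  exact nonneg_of_mul_nonneg_right h1 ha

/-- The inequality between the moments. -/
theorem scal_real (m p q d X Y : ℝ) (hm : 1 ≤ m) (hpq : p + q = m) (hp : 0 ≤ p) (hq : 0 ≤ q)
    (hd : 0 ≤ d) (hX : d ^ 2 ≤ p * X) (hX0 : 0 ≤ X) (hY0 : 0 ≤ Y)
    (hY : ∀ μ : ℝ, 1 / 6 ≤ μ → 2 * μ * d - μ ^ 2 * q ≤ Y) :
    4 / 3 * (m ^ 2 - (m + X + Y)) + 8 / 3 * (p - 1) * (d - X) + 4 / 3 * (d ^ 2 - X) + 2 / 3 * m
      + 4 / 3 * (2 * d - X) + 1 / 3 * (m - 7 / 16) * (m + X + Y - 1) + 16 / 3 * d ^ 2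
      ≤ 24 / 25 * (2 * m - 1) * (m + X + Y) := by
  have key : 0 ≤ 19 / 75 * m ^ 2 + 119 / 75 * m * (X + Y) + 8 / 3 * (p * X) - 8 / 3 * (p * d)
      - 20 / 3 * d ^ 2 := by
    rcases lt_or_ge d (q / 6) with h | h
    · have h1 : p * d ≤ p * (q / 6) := mul_le_mul_of_nonneg_left h.le hp
      have h2 : d ^ 2 ≤ (q / 6) ^ 2 := pow_le_pow_left₀ hd h.le 2
      have h3 : 0 ≤ m * (X + Y) := by positivity
      have h4 : 0 ≤ p * q := mul_nonneg hp hq
      subst hpq
      nlinarith [sq_nonneg p, sq_nonneg q]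
    · rcases hq.eq_or_lt with h0 | hq0
      · have hd0 : d = 0 := by
          by_contra hne
          have hdpos : 0 < d := lt_of_le_of_ne hd (Ne.symm hne)
          have h2 := hY ((Y + 1) / d + 1 / 6) (by
            have : 0 ≤ (Y + 1) / d := by positivity
            linarith)
          rw [← h0, mul_zero, sub_zero] at h2
          have h3 : 2 * ((Y + 1) / d + 1 / 6) * d = 2 * (Y + 1) + 1 / 3 * d := by
            field_simp
            ring
          rw [h3] at h2
          linarith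
        subst hd0
        have h3 : 0 ≤ m * (X + Y) := by positivity
        have h4 : 0 ≤ p * X := by positivity
        nlinarith [sq_nonneg m]
      · have hd0 : 0 < d := lt_of_lt_of_le (by linarith) h
        have hp0 : 0 < p := by
          rcases hp.eq_or_lt with h1 | h1
          · rw [← h1, zero_mul] at hX
            nlinarith
          · exact h1
        have hXd : d ^ 2 / p ≤ X := by
          rw [div_le_iff₀ hp0]
          linarith
        have hYd : d ^ 2 / q ≤ Y := by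
          have h1 := hY (d / q) (by
            rw [le_div_iff₀ hq0]
            linarith)
          have h2 : 2 * (d / q) * d - (d / q) ^ 2 * q = d ^ 2 / q := by
            field_simp
            ring
          rwa [h2] at h1
        have h1 := scal_quad m p q d hpq hp0 hq0
        have hm0 : 0 < m := by linarith
        have h2 : 0 ≤ 19 / 75 * m ^ 2 + 119 / 75 * m * (d ^ 2 / p + d ^ 2 / q)
            + 8 / 3 * d ^ 2 - 8 / 3 * (p * d) - 20 / 3 * d ^ 2 := by
          have h3 : 19 / 75 * m ^ 2 + 119 / 75 * m * (d ^ 2 / p + d ^ 2 / q)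
              + 8 / 3 * d ^ 2 - 8 / 3 * (p * d) - 20 / 3 * d ^ 2 =
              (19 * m ^ 2 * (p * q) - 200 * (p ^ 2 * q) * d
                + (119 * m ^ 2 - 300 * (p * q)) * d ^ 2) / (75 * (p * q)) := by
            have h4 : d ^ 2 / p + d ^ 2 / q = m * d ^ 2 / (p * q) := by
              field_simp
              rw [← hpq]
              ring
            rw [h4]
            field_simp
            ring
          rw [h3]
          positivity
        have h5 : 119 / 75 * m * (d ^ 2 / p + d ^ 2 / q) ≤ 119 / 75 * m * (X + Y) := by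
          refine mul_le_mul_of_nonneg_left (add_le_add hXd hYd) (by positivity)
        linarith
  have h3 : 0 ≤ X + Y := by positivity
  nlinarith

/-- One pair of lines; `x = 1 - t`, `l = 1 - x + y`, `z = min (1, 12 y)`. -/
theorem scal_pair (x y x' y' : ℝ) (hx0 : 0 ≤ x) (hx1 : x ≤ 1) (hy : 0 ≤ y) (hxy : x * y = 0)
    (hx0' : 0 ≤ x') (hx1' : x' ≤ 1) (hy' : 0 ≤ y') (hxy' : x' * y' = 0) :
    max 0 (2 / 3 + 1 / 3 * ((1 - x) + (1 - x')) ^ 2 - (1 - x + y) ^ 2 - (1 - x' + y') ^ 2) ≤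
      2 / 3 * ((1 - min 1 (12 * y')) * (x - x ^ 2) + (1 - min 1 (12 * y)) * (x' - x' ^ 2)
        + x * x') := by
  have hz0 : 0 ≤ 1 - min 1 (12 * y) := by
    have := min_le_left (1 : ℝ) (12 * y)
    linarith
  have hz0' : 0 ≤ 1 - min 1 (12 * y') := by
    have := min_le_left (1 : ℝ) (12 * y')
    linarith
  have hxx : 0 ≤ x - x ^ 2 := by nlinarith
  have hxx' : 0 ≤ x' - x' ^ 2 := by nlinarith
  refine max_le (by positivity) ?_
  have aux : ∀ a b : ℝ, 0 ≤ a → a ≤ 1 → 0 ≤ b →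
      2 / 3 * (a - a ^ 2) - 2 * b ≤ 2 / 3 * ((1 - min 1 (12 * b)) * (a - a ^ 2)) := by
    intro a b ha ha1 hb
    have h1 : a - a ^ 2 ≤ 1 / 4 := by nlinarith [sq_nonneg (a - 1 / 2)]
    have h2 : 0 ≤ a - a ^ 2 := by nlinarith
    rcases le_total 1 (12 * b) with h | h
    · rw [min_eq_left h]
      nlinarith
    · rw [min_eq_right h]
      nlinarith
  rcases mul_eq_zero.1 hxy with h | h <;> rcases mul_eq_zero.1 hxy' with h' | h'
  · subst h h'
    nlinarith
  · subst h h'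
    rw [mul_zero, min_eq_right (by norm_num : (0 : ℝ) ≤ 1)]
    have h1 := aux x' y hx0' hx1' hy
    nlinarith
  · subst h h'
    rw [mul_zero, min_eq_right (by norm_num : (0 : ℝ) ≤ 1)]
    have h1 := aux x y' hx0 hx1 hy'
    nlinarith
  · subst h h'
    rw [mul_zero, min_eq_right (by norm_num : (0 : ℝ) ≤ 1)]
    nlinarith

section sums

variable {ι : Type} [Fintype ι] [DecidableEq ι]

/-- Sums over the pairs of vectors in different lines. -/
theorem scal_excl (J : ι → ι) (f : ι) (hf : ∀ i, J i = i ↔ i = f) (G : ι → ι → ℝ)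
    (hG : ∀ v, G v (J v) = G v v) :
    ∑ v, ∑ w, (if w = v ∨ w = J v then 0 else G v w)
      = (∑ v, ∑ w, G v w) - 2 * (∑ v, G v v) + G f f := by
  have h1 : ∀ v, ∑ w, (if w = v ∨ w = J v then 0 else G v w)
      = (∑ w, G v w) - G v v - (G v v - (if v = f then G v v else 0)) := by
    intro v
    have h2 : ∀ w, (if w = v ∨ w = J v then 0 else G v w)
        = G v w - (if w = v then G v v else 0)
          - ((if w = J v then G v v else 0) - (if w = v then (if v = f then G v v else 0) else 0)) := by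
      intro w
      by_cases hw : w = v
      · subst hw
        by_cases hv : w = f
        · have h3 : w = J w := ((hf w).2 hv).symm
          rw [if_pos (Or.inl rfl), if_pos rfl, if_pos h3, if_pos rfl, if_pos hv]
          ring
        · have h3 : ¬ w = J w := fun hh => hv ((hf w).1 hh.symm)
          rw [if_pos (Or.inl rfl), if_pos rfl, if_neg h3, if_pos rfl, if_neg hv]
          ring
      · by_cases hw2 : w = J v
        · rw [if_pos (Or.inr hw2), if_neg hw, if_pos hw2, if_neg hw, hw2, hG]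
          ring
        · rw [if_neg (by tauto), if_neg hw, if_neg hw2, if_neg hw]
          ring
    rw [Finset.sum_congr rfl fun w _ => h2 w, Finset.sum_sub_distrib, Finset.sum_sub_distrib,
      Finset.sum_sub_distrib]
    simp only [Finset.sum_ite_eq', Finset.mem_univ, if_true]
  rw [Finset.sum_congr rfl fun v _ => h1 v, Finset.sum_sub_distrib, Finset.sum_sub_distrib,
    Finset.sum_sub_distrib]
  simp only [Finset.sum_ite_eq', Finset.mem_univ, if_true]
  ring

/-- The scalar inequality, mean value one. -/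
theorem scal_norm (J : ι → ι) (f : ι) (hf : ∀ i, J i = i ↔ i = f)
    (l : ι → ℝ) (h0 : ∀ i, 0 ≤ l i) (hl : ∀ i, l (J i) = l i) (hlf : l f = 0)
    (m : ℕ) (hm : 1 ≤ m) (hcard : Fintype.card ι = 2 * m + 1) (hS : ∑ i, l i = 2 * m) :
    1 / 3 * (∑ v, ∑ w, (if w = v ∨ w = J v then 0 else l v * l w))
      + 1 / 2 * (∑ v, ∑ w, (if w = v ∨ w = J v then 0 else
          max 0 (2 / 3 + 1 / 3 * (min (l v) 1 + min (l w) 1) ^ 2 - l v ^ 2 - l w ^ 2)))
      + 2 / 3 * m
      + 4 / 3 * (∑ v, (l v - min (l v) 1) *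
          Real.sqrt ((m - 7 / 16) * (1 / 2 * (∑ i, l i ^ 2) - l v ^ 2)))
      ≤ 24 / 25 * (2 * m - 1) * (1 / 2 * (∑ i, l i ^ 2)) := by
  have hm1 : (1 : ℝ) ≤ m := by exact_mod_cast hm
  have hc : ∑ _i : ι, (1 : ℝ) = 2 * m + 1 := by
    rw [Finset.sum_const, Finset.card_univ, hcard]
    simp
  obtain ⟨x, hx⟩ : ∃ x : ι → ℝ, ∀ v, x v = 1 - min (l v) 1 := ⟨_, fun _ => rfl⟩
  obtain ⟨y, hy⟩ : ∃ y : ι → ℝ, ∀ v, y v = l v - min (l v) 1 := ⟨_, fun _ => rfl⟩
  obtain ⟨z, hz⟩ : ∃ z : ι → ℝ, ∀ v, z v = min 1 (12 * y v) := ⟨_, fun _ => rfl⟩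
  have hx0 : ∀ v, 0 ≤ x v := fun v => by
    rw [hx]; have := min_le_right (l v) 1; linarith
  have hx1 : ∀ v, x v ≤ 1 := fun v => by
    rw [hx]; have := le_min (h0 v) (zero_le_one (α := ℝ)); linarith
  have hy0 : ∀ v, 0 ≤ y v := fun v => by
    rw [hy]; have := min_le_left (l v) 1; linarith
  have hxy : ∀ v, x v * y v = 0 := fun v => by
    rw [hx, hy]
    rcases le_total (l v) 1 with h | h
    · rw [min_eq_left h]; ring
    · rw [min_eq_right h]; ring
  have hlxy : ∀ v, l v = 1 - x v + y v := fun v => by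
    rw [hx, hy]; ring
  have hmin : ∀ v, min (l v) 1 = 1 - x v := fun v => by
    rw [hx]; ring
  have hxf : x f = 1 := by
    rw [hx, hlf, min_eq_left zero_le_one]; ring
  have hyf : y f = 0 := by
    rw [hy, hlf, min_eq_left zero_le_one]; ring
  have hxJ : ∀ v, x (J v) = x v := fun v => by rw [hx, hx, hl]
  have hyJ : ∀ v, y (J v) = y v := fun v => by rw [hy, hy, hl]
  have hzJ : ∀ v, z (J v) = z v := fun v => by rw [hz, hz, hyJ]
  have hz0 : ∀ v, 0 ≤ z v := fun v => by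
    rw [hz]; exact le_min zero_le_one (by linarith [hy0 v])
  have hz1 : ∀ v, z v ≤ 1 := fun v => by
    rw [hz]; exact min_le_left _ _
  have hzx : ∀ v, z v * x v = 0 := fun v => by
    rcases mul_eq_zero.1 (hxy v) with h | h
    · rw [h, mul_zero]
    · rw [hz, h, mul_zero, min_eq_right (zero_le_one (α := ℝ)), zero_mul]
  set d : ℝ := 1 / 2 * ∑ v, y v with hd
  set X : ℝ := 1 / 2 * (∑ v, x v ^ 2 - 1) with hX
  set Y : ℝ := 1 / 2 * ∑ v, y v ^ 2 with hY
  set q : ℝ := 1 / 2 * ∑ v, z v with hq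
  have sy : ∑ v, y v = 2 * d := by rw [hd]; ring
  have sx : ∑ v, x v = 2 * d + 1 := by
    have h1 : ∑ v, l v = ∑ _v : ι, (1 : ℝ) - ∑ v, x v + ∑ v, y v := by
      rw [← Finset.sum_sub_distrib, ← Finset.sum_add_distrib]
      exact Finset.sum_congr rfl fun v _ => hlxy v
    rw [hS, hc, sy] at h1
    linarith
  have sX : ∑ v, x v ^ 2 = 2 * X + 1 := by rw [hX]; ring
  have sY : ∑ v, y v ^ 2 = 2 * Y := by rw [hY]; ring
  have sz : ∑ v, z v = 2 * q := by rw [hq]; ring
  have hF : 1 / 2 * (∑ i, l i ^ 2) = m + X + Y := by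
    have h1 : ∑ v, l v ^ 2 = ∑ _v : ι, (1 : ℝ) - 2 * ∑ v, x v + 2 * ∑ v, y v + ∑ v, x v ^ 2
        + ∑ v, y v ^ 2 := by
      rw [Finset.mul_sum, Finset.mul_sum, ← Finset.sum_sub_distrib, ← Finset.sum_add_distrib,
        ← Finset.sum_add_distrib, ← Finset.sum_add_distrib]
      refine Finset.sum_congr rfl fun v _ => ?_
      rw [hlxy v]
      linear_combination (-2) * hxy v
    rw [h1, hc, sx, sy, sX, sY]
    ring
  -- the first sum
  have T1 : ∑ v, ∑ w, (if w = v ∨ w = J v then 0 else l v * l w)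
      = 4 * (m : ℝ) ^ 2 - 4 * (m + X + Y) := by
    rw [scal_excl J f hf (fun v w => l v * l w) (fun v => by simp only [hl]), hlf]
    have h1 : ∑ v, ∑ w, l v * l w = (2 * (m : ℝ)) * (2 * m) := by
      rw [← Finset.sum_mul_sum, hS]
    have h2 : ∑ v, l v * l v = 2 * (m + X + Y) := by
      have h3 : ∑ v, l v * l v = ∑ v, l v ^ 2 := Finset.sum_congr rfl fun v _ => by ring
      rw [h3]
      linarith
    rw [h1, h2]
    ring
  -- the second sum
  have T2 : ∑ v, ∑ w, (if w = v ∨ w = J v then 0 else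
        max 0 (2 / 3 + 1 / 3 * (min (l v) 1 + min (l w) 1) ^ 2 - l v ^ 2 - l w ^ 2))
      ≤ 2 / 3 * (8 * (m - q) * (d - X) + 4 * d ^ 2) := by
    have h1 : ∀ v w, (if w = v ∨ w = J v then 0 else
        max 0 (2 / 3 + 1 / 3 * (min (l v) 1 + min (l w) 1) ^ 2 - l v ^ 2 - l w ^ 2))
        ≤ (if w = v ∨ w = J v then 0 else 2 / 3 * ((1 - z w) * (x v - x v ^ 2)
          + (1 - z v) * (x w - x w ^ 2) + x v * x w)) := by
      intro v w
      split_ifs
      · exact le_rfl
      · have h2 := scal_pair (x v) (y v) (x w) (y w) (hx0 v) (hx1 v) (hy0 v) (hxy v) (hx0 w)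
          (hx1 w) (hy0 w) (hxy w)
        rw [hmin v, hmin w, hlxy v, hlxy w, hz w, hz v]
        exact h2
    refine (Finset.sum_le_sum fun v _ => Finset.sum_le_sum fun w _ => h1 v w).trans ?_
    rw [scal_excl J f hf _ (fun v => by simp only [hxJ, hzJ])]
    have e0 : ∀ v, (1 - z v) * (x v - x v ^ 2) = x v - x v ^ 2 := fun v => by
      linear_combination (-1 + x v) * hzx v
    have e1 : ∑ v, ∑ w, 2 / 3 * ((1 - z w) * (x v - x v ^ 2)
          + (1 - z v) * (x w - x w ^ 2) + x v * x w)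
        = 2 / 3 * (2 * ((∑ v, (x v - x v ^ 2)) * ∑ w, (1 - z w)) + (∑ v, x v) * ∑ w, x w) := by
      simp only [← Finset.mul_sum, Finset.sum_add_distrib]
      congr 1
      have a1 : ∑ v, ∑ w, (1 - z w) * (x v - x v ^ 2)
          = (∑ v, (x v - x v ^ 2)) * ∑ w, (1 - z w) := by
        rw [Finset.sum_mul_sum]
        exact Finset.sum_congr rfl fun v _ => Finset.sum_congr rfl fun w _ => by ring
      have a2 : ∑ v, ∑ w, (1 - z v) * (x w - x w ^ 2)
          = (∑ v, (x v - x v ^ 2)) * ∑ w, (1 - z w) := by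
        rw [mul_comm, Finset.sum_mul_sum]
      have a3 : ∑ v, x v * ∑ w, x w = (∑ v, x v) * ∑ w, x w := by rw [Finset.sum_mul]
      first
        | rw [a1, a2, a3]; ring
        | (simp only [← Finset.mul_sum] at a1 a2; rw [a1, a2, a3]; ring)
    have e2 : ∑ v, 2 / 3 * ((1 - z v) * (x v - x v ^ 2) + (1 - z v) * (x v - x v ^ 2)
          + x v * x v) = 2 / 3 * (2 * (∑ v, (x v - x v ^ 2)) + ∑ v, x v ^ 2) := by
      rw [← Finset.mul_sum, Finset.mul_sum _ _ (2 : ℝ), ← Finset.sum_add_distrib]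
      congr 1
      refine Finset.sum_congr rfl fun v _ => ?_
      rw [e0 v]
      ring
    have e3 : ∑ v, (x v - x v ^ 2) = 2 * (d - X) := by
      rw [Finset.sum_sub_distrib, sx, sX]
      ring
    have e4 : ∑ w, (1 - z w) = 2 * (m - q) + 1 := by
      rw [Finset.sum_sub_distrib, hc, sz]
      ring
    rw [e1, e2, e3, e4, sx, sX, e0 f, hxf]
    apply le_of_eq
    ring
  -- the excess
  have hF1 : 0 ≤ m + X + Y - 1 := by
    have h1 : 0 ≤ X := by
      rw [hX]
      have h2 : x f ^ 2 ≤ ∑ v, x v ^ 2 :=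
        Finset.single_le_sum (f := fun v => x v ^ 2) (fun v _ => sq_nonneg _) (Finset.mem_univ f)
      rw [hxf] at h2
      linarith
    have h2 : 0 ≤ Y := by
      rw [hY]
      have : 0 ≤ ∑ v, y v ^ 2 := Finset.sum_nonneg fun v _ => sq_nonneg _
      linarith
    linarith
  have hm7 : (0 : ℝ) ≤ m - 7 / 16 := by linarith
  have hd0 : 0 ≤ d := by
    rw [hd]
    have : 0 ≤ ∑ v, y v := Finset.sum_nonneg fun v _ => hy0 v
    linarith
  have T3 : ∑ v, (l v - min (l v) 1) *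
          Real.sqrt ((m - 7 / 16) * (1 / 2 * (∑ i, l i ^ 2) - l v ^ 2))
      ≤ 2 * d * Real.sqrt ((m - 7 / 16) * (m + X + Y - 1)) := by
    rw [← sy, Finset.sum_mul]
    refine Finset.sum_le_sum fun v _ => ?_
    rw [← hy v, hF]
    rcases (hy0 v).eq_or_lt with h | h
    · rw [← h, zero_mul, zero_mul]
    · refine mul_le_mul_of_nonneg_left (Real.sqrt_le_sqrt ?_) (hy0 v)
      refine mul_le_mul_of_nonneg_left ?_ hm7
      have h2 : 1 ≤ l v := by
        by_contra hh
        rw [hy, min_eq_left (not_le.1 hh).le, sub_self] at h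
        exact lt_irrefl _ h
      nlinarith
  have T3' : 8 / 3 * (d * Real.sqrt ((m - 7 / 16) * (m + X + Y - 1)))
      ≤ 1 / 3 * (m - 7 / 16) * (m + X + Y - 1) + 16 / 3 * d ^ 2 := by
    have h1 := Real.sq_sqrt (mul_nonneg hm7 hF1)
    nlinarith [sq_nonneg (Real.sqrt ((m - 7 / 16) * (m + X + Y - 1)) - 4 * d)]
  have hq0 : 0 ≤ q := by
    rw [hq]
    have : 0 ≤ ∑ v, z v := Finset.sum_nonneg fun v _ => hz0 v
    linarith
  have hp0 : 0 ≤ m - q := by
    have h1 : ∑ v, z v ≤ 2 * m := by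
      have h2 : ∑ v, z v = ∑ v ∈ Finset.univ.erase f, z v := by
        rw [← Finset.add_sum_erase _ _ (Finset.mem_univ f), hz f, hyf, mul_zero,
          min_eq_right (zero_le_one (α := ℝ)), zero_add]
      rw [h2]
      refine (Finset.sum_le_card_nsmul _ _ 1 fun v _ => hz1 v).trans ?_
      rw [Finset.card_erase_of_mem (Finset.mem_univ f), Finset.card_univ, hcard]
      simp
    rw [sz] at h1
    linarith
  have hXd : d ^ 2 ≤ (m - q) * X := by
    -- Cauchy over the indices different from `f`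
    have h1 : ∑ v ∈ Finset.univ.erase f, (1 - z v) * x v = 2 * d := by
      have h2 := Finset.add_sum_erase Finset.univ (fun v => x v) (Finset.mem_univ f)
      simp only [hxf, sx] at h2
      have h3 : ∑ v ∈ Finset.univ.erase f, (1 - z v) * x v
          = ∑ v ∈ Finset.univ.erase f, x v :=
        Finset.sum_congr rfl fun v _ => by linear_combination (-1) * hzx v
      rw [h3]
      linarith
    have h2 := Finset.sum_mul_sq_le_sq_mul_sq (Finset.univ.erase f) (fun v => 1 - z v) x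
    rw [h1] at h2
    have h3 : ∑ v ∈ Finset.univ.erase f, (1 - z v) ^ 2 ≤ 2 * (m - q) := by
      have h4 : ∑ v ∈ Finset.univ.erase f, (1 - z v) ^ 2
          ≤ ∑ v ∈ Finset.univ.erase f, (1 - z v) :=
        Finset.sum_le_sum fun v _ => by nlinarith [hz0 v, hz1 v]
      have h7 : ∑ v, (1 - z v) = 2 * (m - q) + 1 := by
        rw [Finset.sum_sub_distrib, hc, sz]
        ring
      have h5 := Finset.add_sum_erase Finset.univ (fun v => 1 - z v) (Finset.mem_univ f)
      rw [h7] at h5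
      have h6 : z f = 0 := by
        rw [hz f, hyf, mul_zero, min_eq_right (zero_le_one (α := ℝ))]
      simp only [h6] at h5
      linarith
    have h4 : ∑ v ∈ Finset.univ.erase f, x v ^ 2 = 2 * X := by
      have h5 := Finset.add_sum_erase Finset.univ (fun v => x v ^ 2) (Finset.mem_univ f)
      simp only [hxf, sX] at h5
      linarith
    rw [h4] at h2
    have h5 : 0 ≤ 2 * X := by
      rw [← h4]
      exact Finset.sum_nonneg fun v _ => sq_nonneg _
    nlinarith [mul_le_mul_of_nonneg_right h3 h5]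
  have hYμ : ∀ μ : ℝ, 1 / 6 ≤ μ → 2 * μ * d - μ ^ 2 * q ≤ Y := by
    intro μ hμ
    have h1 : ∀ v, 2 * μ * y v - μ ^ 2 * z v ≤ y v ^ 2 := by
      intro v
      have h2 := hy0 v
      rw [hz]
      rcases le_total 1 (12 * y v) with h | h
      · rw [min_eq_left h]
        nlinarith [sq_nonneg (y v - μ)]
      · rw [min_eq_right h]
        have h3 : 0 ≤ y v * (y v + 2 * μ * (6 * μ - 1)) := by
          refine mul_nonneg h2 (add_nonneg h2 (mul_nonneg (by linarith) (by linarith)))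
        nlinarith
    have h2 := Finset.sum_le_sum fun v (_ : v ∈ Finset.univ) => h1 v
    rw [Finset.sum_sub_distrib, ← Finset.mul_sum, ← Finset.mul_sum, sy, sz, sY] at h2
    linarith
  have hX0 : 0 ≤ X := by
    rw [hX]
    have h2 : x f ^ 2 ≤ ∑ v, x v ^ 2 :=
      Finset.single_le_sum (f := fun v => x v ^ 2) (fun v _ => sq_nonneg _) (Finset.mem_univ f)
    rw [hxf] at h2
    linarith
  have hY0 : 0 ≤ Y := by
    rw [hY]
    have : 0 ≤ ∑ v, y v ^ 2 := Finset.sum_nonneg fun v _ => sq_nonneg _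
    linarith
  have key := scal_real m (m - q) q d X Y hm1 (by ring) hp0 hq0 hd0 hXd hX0 hY0 hYμ
  rw [hF] at T3
  rw [hF, T1]
  linarith [T2, T3, T3', key]

/-- The scalar inequality for all the vectors of a basis of `V`, `dim V = 2m+1`: `J` pairs the basis
vectors except `f`, `l v` is the coefficient of the line of `v`, `τ` the mean value. -/
theorem scalar_vec (J : ι → ι) (f : ι) (hf : ∀ i, J i = i ↔ i = f)
    (l : ι → ℝ) (h0 : ∀ i, 0 ≤ l i) (hl : ∀ i, l (J i) = l i) (hlf : l f = 0)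
    (m : ℕ) (hm : 1 ≤ m) (hcard : Fintype.card ι = 2 * m + 1) (τ : ℝ) (hτ : 0 < τ)
    (hS : ∑ i, l i = 2 * m * τ) :
    1 / 3 * (∑ v, ∑ w, (if w = v ∨ w = J v then 0 else l v * l w))
      + 1 / 2 * (∑ v, ∑ w, (if w = v ∨ w = J v then 0 else
          max 0 (2 / 3 * τ ^ 2 + 1 / 3 * (min (l v) τ + min (l w) τ) ^ 2 - l v ^ 2 - l w ^ 2)))
      + 2 / 3 * m * τ ^ 2
      + 4 / 3 * (∑ v, (l v - min (l v) τ) *
          Real.sqrt ((m - 7 / 16) * (1 / 2 * (∑ i, l i ^ 2) - l v ^ 2)))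
      ≤ 24 / 25 * (2 * m - 1) * (1 / 2 * (∑ i, l i ^ 2)) := by
  obtain ⟨k, hk⟩ : ∃ k : ι → ℝ, ∀ v, k v = l v / τ := ⟨_, fun _ => rfl⟩
  have hlk : ∀ v, l v = τ * k v := fun v => by
    rw [hk]; field_simp
  have hk0 : ∀ v, 0 ≤ k v := fun v => by
    rw [hk]; exact div_nonneg (h0 v) hτ.le
  have hkJ : ∀ v, k (J v) = k v := fun v => by rw [hk, hk, hl]
  have hkf : k f = 0 := by rw [hk, hlf, zero_div]
  have hkS : ∑ v, k v = 2 * m := by
    have h1 : ∑ v, l v = τ * ∑ v, k v := by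
      rw [Finset.mul_sum]
      exact Finset.sum_congr rfl fun v _ => hlk v
    rw [hS] at h1
    have h2 : τ * (∑ v, k v) = τ * (2 * m) := by rw [← h1]; ring
    exact mul_left_cancel₀ hτ.ne' h2
  have key := scal_norm J f hf k hk0 hkJ hkf m hm hcard hkS
  have hτ2 : 0 ≤ τ ^ 2 := sq_nonneg _
  have e1 : (∑ v, ∑ w, (if w = v ∨ w = J v then 0 else l v * l w))
      = τ ^ 2 * ∑ v, ∑ w, (if w = v ∨ w = J v then 0 else k v * k w) := by
    rw [Finset.mul_sum]
    refine Finset.sum_congr rfl fun v _ => ?_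
    rw [Finset.mul_sum]
    refine Finset.sum_congr rfl fun w _ => ?_
    split_ifs
    · rw [mul_zero]
    · rw [hlk v, hlk w]; ring
  have hmin : ∀ v, min (l v) τ = τ * min (k v) 1 := fun v => by
    rw [mul_min_of_nonneg _ _ hτ.le, mul_one, ← hlk]
  have e2 : (∑ v, ∑ w, (if w = v ∨ w = J v then 0 else
          max 0 (2 / 3 * τ ^ 2 + 1 / 3 * (min (l v) τ + min (l w) τ) ^ 2 - l v ^ 2 - l w ^ 2)))
      = τ ^ 2 * ∑ v, ∑ w, (if w = v ∨ w = J v then 0 else
          max 0 (2 / 3 + 1 / 3 * (min (k v) 1 + min (k w) 1) ^ 2 - k v ^ 2 - k w ^ 2)) := by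
    rw [Finset.mul_sum]
    refine Finset.sum_congr rfl fun v _ => ?_
    rw [Finset.mul_sum]
    refine Finset.sum_congr rfl fun w _ => ?_
    split_ifs
    · rw [mul_zero]
    · rw [mul_max_of_nonneg _ _ hτ2, mul_zero, hmin v, hmin w, hlk v, hlk w]
      congr 1
      ring
  have e3 : ∑ i, l i ^ 2 = τ ^ 2 * ∑ i, k i ^ 2 := by
    rw [Finset.mul_sum]
    exact Finset.sum_congr rfl fun v _ => by rw [hlk v]; ring
  have e4 : ∑ v, (l v - min (l v) τ) *
          Real.sqrt ((m - 7 / 16) * (1 / 2 * (∑ i, l i ^ 2) - l v ^ 2))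
      = τ ^ 2 * ∑ v, (k v - min (k v) 1) *
          Real.sqrt ((m - 7 / 16) * (1 / 2 * (∑ i, k i ^ 2) - k v ^ 2)) := by
    refine Eq.trans ?_ (Finset.mul_sum _ _ _).symm
    refine Finset.sum_congr rfl fun v _ => ?_
    have h1 : ((m : ℝ) - 7 / 16) * (1 / 2 * (∑ i, l i ^ 2) - l v ^ 2)
        = τ ^ 2 * ((m - 7 / 16) * (1 / 2 * (∑ i, k i ^ 2) - k v ^ 2)) := by
      rw [e3, hlk v]; ring
    rw [h1, Real.sqrt_mul hτ2, Real.sqrt_sq hτ.le, hmin v, hlk v]
    ring
  rw [e1, e2, e4, e3]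
  have h2 := mul_le_mul_of_nonneg_left key hτ2
  linarith

end sums

end Pool.Hopf3.EU
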