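import Pool.Agent.Lib.MP_4a593f_gt.EU.Lines
import Pool.Agent.Lib.MP_4a593f_gt.EU.Scalar

/-!
The total cost in dimension `2m + 2`, in terms of the basis vectors of `V`, by the scalar
inequality.
-/

namespace Pool.Hopf3.EU

open Finset

/-- the sum of all costs is at most `24/25 (2m-1) F` -/
theorem even_scalar {m : ℕ} (hm : 1 ≤ m) {μ : ℕ → ℝ} (hμ : ∀ k, 0 ≤ μ k) {τ : ℝ} (hτ : 0 < τ)
    (hS : ∑ a : Fin m, μ a.val = m * τ) {F : ℝ} (hF : F = ∑ a : Fin m, μ a.val ^ 2) :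
    1 / 2 * (∑ v : Fin (2 * m + 1), ∑ w : Fin (2 * m + 1), (if w = v ∨ w = eJ v then 0 else
        max 0 (2 / 3 * τ ^ 2 + 1 / 3 * (|eS (fun k => min (μ k) τ) v|
          + |eS (fun k => min (μ k) τ) w|) ^ 2 - eS μ v ^ 2 - eS μ w ^ 2)))
      + (∑ v : Fin (2 * m + 1), if eJ v = v then 0 else 1 / 3 * τ ^ 2)
      + 1 / 3 * (∑ v : Fin (2 * m + 1), ∑ w : Fin (2 * m + 1), (if w = v ∨ w = eJ v then 0 else
        |eS μ v| * |eS μ w|))
      + (∑ l : Fin (2 * m + 1), |eS μ l - eS (fun k => min (μ k) τ) l|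
        * (2 * Real.sqrt ((F - eS μ l ^ 2) * (4 / 9 * (((2 * m + 1 - 2) / 2 : ℕ) : ℝ) + 1 / 4))))
      ≤ 24 / 25 * (2 * m - 1) * F := by
  have hfix : ∀ i : Fin (2 * m + 1), eJ i = i ↔ i = lnf := by
    intro i
    constructor
    · intro h
      by_contra hne
      have hlt : i.val < 2 * m := by
        have h1 := i.isLt
        have h2 : i.val ≠ 2 * m := fun hh => hne (Fin.ext hh)
        omega
      unfold eJ at h
      by_cases h1 : i.val % 2 = 0
      · have h2 : i.val + 1 < 2 * m + 1 := by omega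
        rw [if_pos h1, dif_pos h2] at h
        have h3 := congrArg Fin.val h
        simp at h3
      · rw [if_neg h1] at h
        have h3 := congrArg Fin.val h
        simp only at h3
        omega
    · intro h
      rw [h, eJ_lnf]
  have hsum2 : 1 / 2 * ∑ i : Fin (2 * m + 1), |eS μ i| ^ 2 = F := by
    have h := sum_abs (m := m) hμ (fun x => x ^ 2)
    rw [h, hF]
    ring
  have hmain := scalar_vec (eJ : Fin (2 * m + 1) → Fin (2 * m + 1)) lnf hfix
    (fun v => |eS μ v|) (fun v => abs_nonneg _) (fun v => by rw [eS_eJ, abs_neg])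
    (by rw [eS_lnf, abs_zero]) m hm (by simp) τ hτ (by
      have h := sum_abs (m := m) hμ (fun x => x)
      rw [h, hS]
      ring)
  rw [hsum2] at hmain
  -- planes
  have e1 : ∑ v : Fin (2 * m + 1), ∑ w : Fin (2 * m + 1), (if w = v ∨ w = eJ v then 0 else
        max 0 (2 / 3 * τ ^ 2 + 1 / 3 * (|eS (fun k => min (μ k) τ) v|
          + |eS (fun k => min (μ k) τ) w|) ^ 2 - eS μ v ^ 2 - eS μ w ^ 2))
      = ∑ v : Fin (2 * m + 1), ∑ w : Fin (2 * m + 1), (if w = v ∨ w = eJ v then 0 else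
        max 0 (2 / 3 * τ ^ 2 + 1 / 3 * (min |eS μ v| τ + min |eS μ w| τ) ^ 2
          - |eS μ v| ^ 2 - |eS μ w| ^ 2)) := by
    simp only [abs_eS_min hμ hτ.le, sq_abs]
  -- the kernel term
  have e2 : (∑ v : Fin (2 * m + 1), if eJ v = v then 0 else 1 / 3 * τ ^ 2)
      = 2 / 3 * m * τ ^ 2 := by
    have h := sum_abs_ker (m := m) hμ (fun _ => 1 / 3 * τ ^ 2)
    rw [h, Finset.sum_const, Finset.card_univ, Fintype.card_fin, nsmul_eq_mul]
    ring
  -- the excess
  have hN : (((2 * m + 1 - 2) / 2 : ℕ) : ℝ) = (m : ℝ) - 1 := by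
    have h : (2 * m + 1 - 2) / 2 = m - 1 := by omega
    rw [h, Nat.cast_sub hm, Nat.cast_one]
  have hexc : ∀ l : Fin (2 * m + 1), |eS μ l - eS (fun k => min (μ k) τ) l|
      = |eS μ l| - min |eS μ l| τ := by
    intro l
    unfold eS
    by_cases h : l.val % 2 = 0
    · by_cases h2 : l.val + 1 < 2 * m + 1
      · rw [if_pos h, if_pos h2, if_pos h, if_pos h2, abs_of_nonneg (hμ _),
          abs_of_nonneg (sub_nonneg.2 (min_le_left _ _))]
      · rw [if_pos h, if_neg h2, if_pos h, if_neg h2, sub_self, abs_zero, min_eq_left hτ.le,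
          sub_zero]
    · have h1 : - μ (l.val / 2) - - min (μ (l.val / 2)) τ
          = - (μ (l.val / 2) - min (μ (l.val / 2)) τ) := by ring
      rw [if_neg h, if_neg h, h1, abs_neg, abs_neg, abs_of_nonneg (hμ _),
        abs_of_nonneg (sub_nonneg.2 (min_le_left _ _))]
  have e4 : ∀ l : Fin (2 * m + 1), |eS μ l - eS (fun k => min (μ k) τ) l|
        * (2 * Real.sqrt ((F - eS μ l ^ 2) * (4 / 9 * (((2 * m + 1 - 2) / 2 : ℕ) : ℝ) + 1 / 4)))
      = 4 / 3 * ((|eS μ l| - min |eS μ l| τ) *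
          Real.sqrt ((m - 7 / 16) * (F - |eS μ l| ^ 2))) := by
    intro l
    rw [hN, hexc, sq_abs]
    have h1 : (F - eS μ l ^ 2) * (4 / 9 * ((m : ℝ) - 1) + 1 / 4)
        = (2 / 3) ^ 2 * ((m - 7 / 16) * (F - eS μ l ^ 2)) := by ring
    rw [h1, Real.sqrt_mul (by norm_num), Real.sqrt_sq (by norm_num)]
    ring
  rw [e1, e2]
  simp only [e4]
  rw [← Finset.mul_sum]
  linarith

end Pool.Hopf3.EU
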