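import Pool.Agent.Lib.MP_4a593f_gt.EU.W2
import Pool.Agent.Lib.MP_4a593f_gt.P3.NFa
import Pool.Agent.Lib.MP_4a593f_gt.P3.Frame

/-!
Euclidean test form, part X: the coupling of the rest `A - A_t` of a truncation, estimated by the
Euclidean norm of the 2-form `R(e,x,·,·)`.
-/

namespace Pool.Hopf3.EU

open Finset

variable {N : ℕ}

/-- bilinear expansion of `ev4` in the last two slots -/
private theorem exc_ev4_sum {n d : ℕ} (R : Fin n → Fin n → Fin n → Fin n → ℝ)
    (e x : Fin n → ℝ) (b : Fin d → Fin n → ℝ) (p q : Fin d → ℝ) :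
    ev4 R e x (fun a => ∑ i, p i * b i a) (fun a => ∑ i, q i * b i a)
      = ∑ i, ∑ j, ev4 R e x (b i) (b j) * p i * q j := by
  unfold ev4
  simp only [Finset.mul_sum, Finset.sum_mul]
  -- both sides as sums over a b c d i j
  have e1 : ∀ a b' c : Fin n, ∑ l, ∑ i, ∑ i_1, R a b' c l * e a * x b' * (p i_1 * b i_1 c)
        * (q i * b i l)
      = ∑ i, ∑ j, ∑ l, R a b' c l * e a * x b' * b i c * b j l * p i * q j := by
    intro a b' c
    calc ∑ l, ∑ i, ∑ i_1, R a b' c l * e a * x b' * (p i_1 * b i_1 c) * (q i * b i l)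
        = ∑ l, ∑ i_1, ∑ i, R a b' c l * e a * x b' * b i_1 c * b i l * p i_1 * q i := by
          refine Finset.sum_congr rfl fun l _ => ?_
          rw [Finset.sum_comm]
          exact Finset.sum_congr rfl fun i _ => Finset.sum_congr rfl fun j _ => by ring
      _ = ∑ i, ∑ j, ∑ l, R a b' c l * e a * x b' * b i c * b j l * p i * q j := by
          rw [Finset.sum_comm]
          refine Finset.sum_congr rfl fun i _ => ?_
          rw [Finset.sum_comm]
  simp only [e1]
  have e2 : ∀ (f : Fin n → Fin d → ℝ), ∑ c, ∑ i, f c i = ∑ i, ∑ c, f c i := fun f =>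
    Finset.sum_comm
  calc ∑ a, ∑ b', ∑ c, ∑ i, ∑ j, ∑ l, R a b' c l * e a * x b' * b i c * b j l * p i * q j
      = ∑ a, ∑ i, ∑ j, ∑ b', ∑ c, ∑ l, R a b' c l * e a * x b' * b i c * b j l * p i * q j := by
        refine Finset.sum_congr rfl fun a _ => ?_
        calc ∑ b', ∑ c, ∑ i, ∑ j, ∑ l, R a b' c l * e a * x b' * b i c * b j l * p i * q j
            = ∑ b', ∑ i, ∑ j, ∑ c, ∑ l, R a b' c l * e a * x b' * b i c * b j l * p i * q j := by
              refine Finset.sum_congr rfl fun b' _ => ?_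
              rw [Finset.sum_comm]
              refine Finset.sum_congr rfl fun i _ => ?_
              rw [Finset.sum_comm]
          _ = _ := by
              rw [Finset.sum_comm]
              refine Finset.sum_congr rfl fun i _ => ?_
              rw [Finset.sum_comm]
    _ = _ := by
        rw [Finset.sum_comm]
        refine Finset.sum_congr rfl fun i _ => ?_
        rw [Finset.sum_comm]

private theorem exc_dotp_sum {n d : ℕ} {b : Fin d → Fin n → ℝ}
    (hb : ∀ i j, dotp (b i) (b j) = if i = j then 1 else 0) (p q : Fin d → ℝ) :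
    dotp (fun a => ∑ i, p i * b i a) (fun a => ∑ i, q i * b i a) = ∑ i, p i * q i := by
  unfold dotp at hb ⊢
  calc ∑ a, (∑ i, p i * b i a) * ∑ i, q i * b i a
      = ∑ a, ∑ i, ∑ j, p i * q j * (b i a * b j a) := by
        refine Finset.sum_congr rfl fun a _ => ?_
        rw [Finset.sum_mul_sum]
        exact Finset.sum_congr rfl fun i _ => Finset.sum_congr rfl fun j _ => by ring
    _ = ∑ i, ∑ j, p i * q j * ∑ a, b i a * b j a := by
        rw [Finset.sum_comm]
        refine Finset.sum_congr rfl fun i _ => ?_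
        rw [Finset.sum_comm]
        exact Finset.sum_congr rfl fun j _ => by rw [Finset.mul_sum]
    _ = ∑ i, p i * q i := by
        refine Finset.sum_congr rfl fun i _ => ?_
        simp [hb]

private theorem exc_dotp_left {n d : ℕ} {b : Fin d → Fin n → ℝ} {u : Fin n → ℝ}
    (hb : ∀ i, dotp u (b i) = 0) (p : Fin d → ℝ) :
    dotp u (fun a => ∑ i, p i * b i a) = 0 := by
  unfold dotp at hb ⊢
  calc ∑ a, u a * ∑ i, p i * b i a = ∑ i, p i * ∑ a, u a * b i a := by
        simp only [Finset.mul_sum]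
        rw [Finset.sum_comm]
        exact Finset.sum_congr rfl fun i _ => Finset.sum_congr rfl fun a _ => by ring
    _ = 0 := by simp [hb]

private theorem exc_row {d : ℕ} {μ : ℕ → ℝ} {c : ℝ}
    (h : ∀ i j : Fin d, |nf μ i.val j.val| ≤ c) (i : Fin d) :
    ∑ j : Fin d, nf μ i.val j.val ^ 2 ≤ if d ≤ i.val + 1 ∧ i.val % 2 = 0 then 0 else c ^ 2 := by
  -- the only possible nonzero entry
  by_cases hi : i.val % 2 = 0
  · by_cases hd : d ≤ i.val + 1
    · rw [if_pos ⟨hd, hi⟩]
      refine le_of_eq (Finset.sum_eq_zero fun j _ => ?_)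
      have h1 : ¬ (j.val = i.val + 1 ∧ i.val % 2 = 0) := fun hh => by have := j.2; omega
      have h2 : ¬ (i.val = j.val + 1 ∧ j.val % 2 = 0) := fun hh => by omega
      simp [nf, h1, h2]
    · rw [if_neg (fun hh => hd hh.1)]
      push Not at hd
      rw [Finset.sum_eq_single (⟨i.val + 1, hd⟩ : Fin d)]
      · have := h i ⟨i.val + 1, hd⟩
        rw [← sq_abs]
        exact pow_le_pow_left₀ (abs_nonneg _) this 2
      · intro j _ hj
        have h1 : ¬ (j.val = i.val + 1 ∧ i.val % 2 = 0) := fun hh => hj (Fin.ext hh.1)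
        have h2 : ¬ (i.val = j.val + 1 ∧ j.val % 2 = 0) := fun hh => by omega
        simp [nf, h1, h2]
      · intro hh
        exact absurd (Finset.mem_univ _) hh
  · rw [if_neg (fun hh => hi hh.2)]
    have hi1 : 1 ≤ i.val := by omega
    rw [Finset.sum_eq_single (⟨i.val - 1, by omega⟩ : Fin d)]
    · have := h i ⟨i.val - 1, by omega⟩
      rw [← sq_abs]
      exact pow_le_pow_left₀ (abs_nonneg _) this 2
    · intro j _ hj
      have h1 : ¬ (j.val = i.val + 1 ∧ i.val % 2 = 0) := fun hh => hi hh.2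
      have h2 : ¬ (i.val = j.val + 1 ∧ j.val % 2 = 0) := fun hh => hj (Fin.ext (by simp; omega))
      simp [nf, h1, h2]
    · intro hh
      exact absurd (Finset.mem_univ _) hh

private theorem exc_count {d : ℕ} {c : ℝ} :
    ∑ i : Fin d, (if d ≤ i.val + 1 ∧ i.val % 2 = 0 then (0 : ℝ) else c ^ 2)
      = 2 * ((d / 2 : ℕ) : ℝ) * c ^ 2 := by
  rcases Nat.even_or_odd' d with ⟨k, hk | hk⟩
  · have e : ∀ i : Fin d, (if d ≤ i.val + 1 ∧ i.val % 2 = 0 then (0 : ℝ) else c ^ 2) = c ^ 2 := by
      intro i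
      have h1 : ¬ (d ≤ i.val + 1 ∧ i.val % 2 = 0) := fun hh => by have := i.2; omega
      rw [if_neg h1]
    have e2 : d / 2 = k := by omega
    simp only [e, Finset.sum_const, Finset.card_univ, Fintype.card_fin, nsmul_eq_mul, e2]
    rw [hk]
    push_cast
    ring
  · subst hk
    rw [Fin.sum_univ_castSucc]
    have e : ∀ i : Fin (2 * k), (if 2 * k + 1 ≤ (Fin.castSucc i).val + 1 ∧ (Fin.castSucc i).val % 2 = 0
        then (0 : ℝ) else c ^ 2) = c ^ 2 := by
      intro i
      have h1 : ¬ (2 * k + 1 ≤ (Fin.castSucc i).val + 1 ∧ (Fin.castSucc i).val % 2 = 0) :=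
        fun hh => by
          have := i.2
          simp only [Fin.val_castSucc] at hh
          omega
      rw [if_neg h1]
    have e2 : (2 * k + 1) / 2 = k := by omega
    have e3 : (2 * k + 1 ≤ (Fin.last (2 * k)).val + 1 ∧ (Fin.last (2 * k)).val % 2 = 0) := by
      simp
    rw [if_pos e3]
    simp only [e, Finset.sum_const, Finset.card_univ, Fintype.card_fin, nsmul_eq_mul, e2]
    push_cast
    ring

/-- `|R(e,x,·,·)|²` on the span of an orthonormal family orthogonal to `e` and `x`. -/
theorem hs_fam {n d : ℕ} {R : Fin n → Fin n → Fin n → Fin n → ℝ} (hR : IsCurvature R)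
    (hs : SecIn R 0 1) {e x : Fin n → ℝ} (he : dotp e e = 1) (hx : dotp x x = 1)
    (hex : dotp e x = 0) {b : Fin d → Fin n → ℝ}
    (hb : ∀ i j, dotp (b i) (b j) = if i = j then 1 else 0) (heb : ∀ i, dotp e (b i) = 0)
    (hxb : ∀ i, dotp x (b i) = 0) :
    ∑ i, ∑ j, ev4 R e x (b i) (b j) ^ 2 ≤ 2 * ((d / 2 : ℕ) : ℝ) * (2 / 3) ^ 2 := by
  have sy : ∀ x y : Fin n → ℝ, dotp x y = dotp y x := fun x y => by
    unfold dotp; exact Finset.sum_congr rfl fun i _ => mul_comm _ _
  set L : Fin d → Fin d → ℝ := fun i j => ev4 R e x (b i) (b j) with hL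
  have hLs : Skew L := fun i j => by
    simp only [hL]
    exact c4_skew34 hR e x (b i) (b j)
  obtain ⟨O, μ, hO, -, -, -, hnf⟩ := exists_nf d L hLs
  have hbound : ∀ i j : Fin d, |nf μ i.val j.val| ≤ 2 / 3 := by
    intro i j
    rw [← hnf i j]
    by_cases hij : i = j
    · subst hij
      have := pull2_skew hLs O i i
      have h0 : pull2 L O i i = 0 := by linarith
      rw [h0, abs_zero]
      norm_num
    · have e1 : pull2 L O i j
          = ev4 R e x (fun a => ∑ k, O i k * b k a) (fun a => ∑ k, O j k * b k a) := by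
        rw [exc_ev4_sum]
        rfl
      rw [e1]
      have h := berger hR hs ![e, x, fun a => ∑ k, O i k * b k a, fun a => ∑ k, O j k * b k a] (by
        have d1 := exc_dotp_left heb (O i)
        have d2 := exc_dotp_left heb (O j)
        have d3 := exc_dotp_left hxb (O i)
        have d4 := exc_dotp_left hxb (O j)
        have d5 := exc_dotp_sum hb (O i) (O j)
        have d6 := exc_dotp_sum hb (O i) (O i)
        have d7 := exc_dotp_sum hb (O j) (O j)
        rw [hO i j, if_neg hij] at d5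
        rw [hO i i, if_pos rfl] at d6
        rw [hO j j, if_pos rfl] at d7
        have d1' := (sy _ _).trans d1
        have d2' := (sy _ _).trans d2
        have d3' := (sy _ _).trans d3
        have d4' := (sy _ _).trans d4
        have d5' := (sy _ _).trans d5
        have hxe := (sy x e).trans hex
        intro i' j'
        fin_cases i' <;> fin_cases j' <;>
          simp [he, hx, hex, hxe, d1, d2, d3, d4, d5, d6, d7, d1', d2', d3', d4', d5'])
      simpa using h
  have e1 : ∑ i, ∑ j, L i j ^ 2 = ∑ i : Fin d, ∑ j : Fin d, nf μ i.val j.val ^ 2 := by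
    have h := ip2_pull hO L L
    unfold ip2 at h
    have h2 : ∑ i, ∑ j, pull2 L O i j * pull2 L O i j = ∑ i, ∑ j, L i j * L i j := by linarith
    simp only [hnf] at h2
    simp only [sq]
    exact h2.symm
  calc ∑ i, ∑ j, ev4 R e x (b i) (b j) ^ 2 = ∑ i : Fin d, ∑ j : Fin d, nf μ i.val j.val ^ 2 := e1
    _ ≤ ∑ i : Fin d, (if d ≤ i.val + 1 ∧ i.val % 2 = 0 then (0 : ℝ) else (2 / 3) ^ 2) :=
      Finset.sum_le_sum fun i _ => exc_row hbound i
    _ = 2 * ((d / 2 : ℕ) : ℝ) * (2 / 3) ^ 2 := exc_count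

/-- the component `R(e,x,x,w)` -/
private theorem hs_x {n : ℕ} {R : Fin n → Fin n → Fin n → Fin n → ℝ} (hR : IsCurvature R)
    (hs : SecIn R 0 1) {e x w : Fin n → ℝ} (he : dotp e e = 1) (hx : dotp x x = 1)
    (hex : dotp e x = 0) (hew : dotp e w = 0) (hxw : dotp x w = 0) :
    2 * ev4 R e x x w ≤ 1 / 4 + dotp w w := by
  have sy : ∀ x y : Fin n → ℝ, dotp x y = dotp y x := fun x y => by
    unfold dotp; exact Finset.sum_congr rfl fun i _ => mul_comm _ _
  have hxe := (sy x e).trans hex
  have hwe := (sy w e).trans hew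
  have a1 := (hs x ((1 / 2 : ℝ) • e + (-1 : ℝ) • w)).2
  have a2 := (hs x ((1 / 2 : ℝ) • e + (1 : ℝ) • w)).1
  simp only [c4_add2, c4_add4, c4_smul2, c4_smul4,
    c4_dotp_add_left, c4_dotp_add_right, c4_dotp_smul_left, c4_dotp_smul_right, he, hx, hew,
    hxw, hxe, hwe] at a1 a2
  have p1 := c4_pair hR x e x w
  have p2 := c4_skew12 hR x e x w
  linarith

/-- `|R(e_0,e_l,·,·)|²` on the complement of `e_0` and `e_v`. -/
theorem hs_basis {R : Fin (N + 1) → Fin (N + 1) → Fin (N + 1) → Fin (N + 1) → ℝ}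
    (hR : IsCurvature R) (hs : SecIn R 0 1) {l v : Fin N} (hlv : l ≠ v) :
    ∑ i, ∑ j, (if i = v ∨ j = v then 0 else rT R l i j ^ 2)
      ≤ 2 * (4 / 9 * (((N - 2) / 2 : ℕ) : ℝ) + 1 / 4) := by
  have hsk : ∀ i j, rT R l j i = - rT R l i j := fun i j => hR.skew34 _ _ _ _
  have hll : rT R l l l = 0 := by
    have := hsk l l
    linarith
  set g : Fin N → ℝ := fun j => if j = v then 0 else rT R l l j ^ 2 with hg
  have e1 : ∀ i j, (if i = v ∨ j = v then 0 else rT R l i j ^ 2)
      = (if i = l then g j else 0) + (if j = l then g i else 0)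
        + (if (i = v ∨ i = l) ∨ (j = v ∨ j = l) then 0 else rT R l i j ^ 2) := by
    intro i j
    simp only [hg]
    by_cases h1 : i = v
    · subst h1
      simp [hlv.symm]
    · by_cases h2 : j = v
      · subst h2
        simp [hlv.symm]
      · by_cases h3 : i = l
        · subst h3
          by_cases h4 : j = i
          · subst h4
            simp [h1, hll]
          · simp [h1, h2, h4]
        · by_cases h4 : j = l
          · subst h4
            simp only [h1, h2, h3, or_self, if_false, if_true, or_true]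
            rw [hsk j i]
            ring
          · simp [h1, h2, h3, h4]
  have e2 : ∑ i, ∑ j, (if i = v ∨ j = v then 0 else rT R l i j ^ 2)
      = 2 * ∑ j, g j
        + ∑ i, ∑ j, (if (i = v ∨ i = l) ∨ (j = v ∨ j = l) then 0 else rT R l i j ^ 2) := by
    simp only [e1, Finset.sum_add_distrib]
    have e3 : ∑ i : Fin N, ∑ j, (if i = l then g j else 0) = ∑ j, g j := by
      rw [Finset.sum_comm]
      simp
    have e4 : ∑ i : Fin N, ∑ j : Fin N, (if j = l then g i else 0) = ∑ j, g j := by simp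
    rw [e3, e4]
    ring
  -- the row of `l`
  have hrow : ∑ j, g j ≤ 1 / 4 := by
    set w : Fin (N + 1) → ℝ := Fin.cons 0 (fun j => if j = v then 0 else rT R l l j) with hw
    have hw0 : w 0 = 0 := by simp [hw]
    have hws : ∀ j : Fin N, w j.succ = if j = v then 0 else rT R l l j := fun j => by simp [hw]
    have d1 : dotp (bv (0 : Fin (N + 1))) w = 0 := by
      unfold dotp bv
      simp [hw0]
    have d2 : dotp (bv l.succ) w = 0 := by
      unfold dotp bv
      simp [hws, hlv, hll]
    have d3 : dotp w w = ∑ j, g j := by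
      unfold dotp
      rw [Fin.sum_univ_succ, hw0]
      simp only [hws, hg, mul_zero, zero_add]
      refine Finset.sum_congr rfl fun j _ => ?_
      split_ifs <;> ring
    have d4 : ev4 R (bv 0) (bv l.succ) (bv l.succ) w = ∑ j, g j := by
      unfold ev4 bv
      simp only [mul_ite, mul_one, mul_zero, ite_mul, zero_mul]
      simp
      rw [Fin.sum_univ_succ, hw0, mul_zero, zero_add]
      refine Finset.sum_congr rfl fun j _ => ?_
      rw [hws]
      simp only [hg, rT]
      split_ifs <;> ring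
    have h := hs_x hR hs (e := bv 0) (x := bv l.succ) (w := w) (by simp [dotp_bv])
      (by simp [dotp_bv]) (by simp [dotp_bv, (Fin.succ_ne_zero l).symm]) d1 d2
    rw [d3, d4] at h
    linarith
  -- the rest
  have hrest : ∑ i, ∑ j, (if (i = v ∨ i = l) ∨ (j = v ∨ j = l) then 0 else rT R l i j ^ 2)
      ≤ 2 * (((N - 2) / 2 : ℕ) : ℝ) * (2 / 3) ^ 2 := by
    have hcard : Fintype.card {j : Fin N // ¬ (j = v ∨ j = l)} = N - 2 := by
      rw [Fintype.card_subtype_compl, Fintype.card_fin]
      congr 1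
      rw [Fintype.card_subtype]
      have : (Finset.univ.filter fun j : Fin N => j = v ∨ j = l) = {v, l} := by
        ext j
        simp
      rw [this, Finset.card_pair hlv.symm]
    let ε : Fin (N - 2) ≃ {j : Fin N // ¬ (j = v ∨ j = l)} :=
      (finCongr hcard.symm).trans (Fintype.equivFin _).symm
    have hfam := hs_fam hR hs (e := bv 0) (x := bv l.succ) (b := fun i => bv (ε i).1.succ)
      (by simp [dotp_bv]) (by simp [dotp_bv]) (by simp [dotp_bv, (Fin.succ_ne_zero l).symm])
      (by
        intro i j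
        rw [dotp_bv]
        simp only [Fin.succ_inj, Subtype.ext_iff.symm, EmbeddingLike.apply_eq_iff_eq])
      (by
        intro i
        rw [dotp_bv, if_neg (Fin.succ_ne_zero _).symm])
      (by
        intro i
        rw [dotp_bv, if_neg]
        intro hh
        exact (ε i).2 (Or.inr (Fin.succ_inj.1 hh).symm))
    simp only [ev4_bv] at hfam
    refine le_trans (le_of_eq ?_) hfam
    have e5 : ∀ f : Fin N → Fin N → ℝ,
        ∑ i, ∑ j, (if (i = v ∨ i = l) ∨ (j = v ∨ j = l) then 0 else f i j)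
          = ∑ i : Fin (N - 2), ∑ j : Fin (N - 2), f (ε i).1 (ε j).1 := by
      intro f
      have e6 : ∀ h : Fin N → ℝ, ∑ i, (if (i = v ∨ i = l) then 0 else h i)
          = ∑ i : Fin (N - 2), h (ε i).1 := by
        intro h
        rw [Equiv.sum_comp ε (fun i => h i.1)]
        calc ∑ i, (if (i = v ∨ i = l) then 0 else h i)
            = ∑ i, (if ¬ (i = v ∨ i = l) then h i else 0) := by
              refine Finset.sum_congr rfl fun i _ => ?_
              by_cases hi : i = v ∨ i = l
              · rw [if_pos hi, if_neg (not_not.2 hi)]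
              · rw [if_neg hi, if_pos hi]
          _ = ∑ i ∈ Finset.univ.filter (fun i => ¬ (i = v ∨ i = l)), h i :=
              (Finset.sum_filter _ _).symm
          _ = ∑ i : {j : Fin N // ¬ (j = v ∨ j = l)}, h i.1 :=
              Finset.sum_subtype _ (fun i => by simp) h
      calc ∑ i, ∑ j, (if (i = v ∨ i = l) ∨ (j = v ∨ j = l) then 0 else f i j)
          = ∑ i, (if (i = v ∨ i = l) then 0 else
              ∑ j, (if (j = v ∨ j = l) then 0 else f i j)) := by
            refine Finset.sum_congr rfl fun i _ => ?_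
            by_cases hi : i = v ∨ i = l
            · simp [hi]
            · simp only [hi, false_or, if_false]
        _ = _ := by
            rw [e6]
            exact Finset.sum_congr rfl fun i _ => e6 _
    exact e5 _
  rw [e2]
  linarith

/-- The coupling with coefficients `r` (in the pattern `J`): Euclidean estimate. -/
theorem exc_le {R : Fin (N + 1) → Fin (N + 1) → Fin (N + 1) → Fin (N + 1) → ℝ}
    (hR : IsCurvature R) (hs : SecIn R 0 1)
    {χ : Fin (N + 1) → Fin (N + 1) → Fin (N + 1) → ℝ} (h : ETop χ)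
    {J : Fin N → Fin N} {s r : Fin N → ℝ} (hJ : NF J s) (hA : aV χ = nfA J s) (hr : NF J r) :
    |∑ l, ∑ i, ∑ j, ∑ a, rT R l i j * psV χ i j a * nfA J r l a|
      ≤ ∑ l, |r l| * (2 * Real.sqrt ((nA (aV χ) - s l ^ 2)
          * (4 / 9 * (((N - 2) / 2 : ℕ) : ℝ) + 1 / 4))) := by
  have hps : ∀ i j a, psV χ i j a = psV χ a i j := by
    intro i j a
    simp only [psV]
    linarith [h.form.s12 a.succ i.succ j.succ, h.form.s23 i.succ a.succ j.succ]
  have hdiag : ∀ v j, psV χ v v j = 0 := by
    intro v j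
    simp only [psV]
    have := h.form.s12 v.succ v.succ j.succ
    linarith
  have hdiag' : ∀ v j, psV χ v j v = 0 := by
    intro v j
    simp only [psV]
    have := h.form.s23 v.succ v.succ j.succ
    have h2 := hdiag v j
    simp only [psV] at h2
    linarith
  have e1 : ∀ l, ∑ i, ∑ j, ∑ a, rT R l i j * psV χ i j a * nfA J r l a
      = r l * ∑ i, ∑ j, rT R l i j * psV χ (J l) i j := by
    intro l
    rw [Finset.mul_sum]
    refine Finset.sum_congr rfl fun i _ => ?_
    rw [Finset.mul_sum]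
    refine Finset.sum_congr rfl fun j _ => ?_
    rw [Finset.sum_eq_single (J l)]
    · simp only [nfA, if_true]
      rw [hps]
      ring
    · intro a _ ha
      simp [nfA, ha]
    · intro hh
      exact absurd (Finset.mem_univ _) hh
  simp only [e1]
  refine le_trans (Finset.abs_sum_le_sum_abs _ _) (Finset.sum_le_sum fun l _ => ?_)
  rw [abs_mul]
  by_cases hl : J l = l
  · rw [hr.fix hl, abs_zero, zero_mul, zero_mul]
  refine mul_le_mul_of_nonneg_left ?_ (abs_nonneg _)
  set v : Fin N := J l with hv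
  set k : ℝ := 4 / 9 * (((N - 2) / 2 : ℕ) : ℝ) + 1 / 4 with hk
  have hk0 : 0 ≤ k := by positivity
  have hsv : s l ^ 2 = s v ^ 2 := by
    rw [hv, hJ.sgn]
    ring
  -- the norm of the slice
  have htop := h.top (fun u => if u = v then 1 else 0)
  have e2 : ∑ i, ∑ j, psV χ v i j ^ 2 ≤ 2 * (nA (aV χ) - s l ^ 2) := by
    have e3 : ∑ u : Fin N, (if u = v then (1 : ℝ) else 0) ^ 2 = 1 := by simp
    have e4 : ∑ b, (∑ u, (if u = v then (1 : ℝ) else 0) * aV χ u b) ^ 2 = s l ^ 2 := by
      rw [hA, hsv]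
      simp only [ite_mul, one_mul, zero_mul, Finset.sum_ite_eq', Finset.mem_univ, if_true, nfA,
        ite_pow, zero_pow (two_ne_zero)]
    have e5 : ∑ y, ∑ z, (∑ u, (if u = v then (1 : ℝ) else 0) * psV χ u y z) ^ 2
        = ∑ i, ∑ j, psV χ v i j ^ 2 := by simp
    rw [e3, e4, e5] at htop
    linarith
  have hP0 : 0 ≤ ∑ i, ∑ j, psV χ v i j ^ 2 :=
    Finset.sum_nonneg fun i _ => Finset.sum_nonneg fun j _ => sq_nonneg _
  have hF0 : 0 ≤ nA (aV χ) - s l ^ 2 := by linarith
  have hhs := hs_basis hR hs (l := l) (v := v) (fun hh => hl hh.symm)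
  -- Cauchy-Schwarz
  have e6 : ∑ i, ∑ j, rT R l i j * psV χ v i j
      = ∑ p : Fin N × Fin N, (if p.1 = v ∨ p.2 = v then 0 else rT R l p.1 p.2)
          * psV χ v p.1 p.2 := by
    rw [Fintype.sum_prod_type]
    refine Finset.sum_congr rfl fun i _ => Finset.sum_congr rfl fun j _ => ?_
    by_cases h1 : i = v
    · subst h1
      simp [hdiag]
    · by_cases h2 : j = v
      · subst h2
        simp [hdiag']
      · simp [h1, h2]
  have hcs := Finset.sum_mul_sq_le_sq_mul_sq Finset.univ
    (fun p : Fin N × Fin N => if p.1 = v ∨ p.2 = v then 0 else rT R l p.1 p.2)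
    (fun p : Fin N × Fin N => psV χ v p.1 p.2)
  rw [← e6, Fintype.sum_prod_type, Fintype.sum_prod_type] at hcs
  have e7 : ∑ i, ∑ j, (if i = v ∨ j = v then 0 else rT R l i j) ^ 2
      = ∑ i, ∑ j, (if i = v ∨ j = v then 0 else rT R l i j ^ 2) := by
    refine Finset.sum_congr rfl fun i _ => Finset.sum_congr rfl fun j _ => ?_
    split_ifs <;> simp
  simp only at hcs
  rw [e7] at hcs
  have h2 : (∑ i, ∑ j, rT R l i j * psV χ v i j) ^ 2
      ≤ (2 * Real.sqrt ((nA (aV χ) - s l ^ 2) * k)) ^ 2 := by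
    rw [mul_pow, Real.sq_sqrt (mul_nonneg hF0 hk0)]
    calc (∑ i, ∑ j, rT R l i j * psV χ v i j) ^ 2
        ≤ (∑ i, ∑ j, (if i = v ∨ j = v then 0 else rT R l i j ^ 2))
          * ∑ i, ∑ j, psV χ v i j ^ 2 := hcs
      _ ≤ (2 * k) * (2 * (nA (aV χ) - s l ^ 2)) := mul_le_mul hhs e2 hP0 (by positivity)
      _ = _ := by ring
  exact abs_le_of_sq_le_sq h2 (by positivity)

end Pool.Hopf3.EU
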