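import Pool.Agent.Lib.MP_4a593f_gt.EU.Bridge
import Pool.Agent.Lib.MP_4a593f_gt.EU.Cost
import Pool.Agent.Lib.MP_4a593f_gt.EU.Exc
import Pool.Agent.Lib.MP_4a593f_gt.EU.EvenScalar

/-!
The least eigenvalue of the curvature term on 3-forms of `ℝ^(2m+2)` for `0 ≤ sec ≤ 1`.
-/

namespace Pool.Hopf3.EU

open Finset

theorem lam_ge_even {m : ℕ} (hm : 1 ≤ m)
    {R : Fin (2 * m + 1 + 1) → Fin (2 * m + 1 + 1) → Fin (2 * m + 1 + 1) → Fin (2 * m + 1 + 1) → ℝ}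
    (hR : IsCurvature R) (hs : SecIn R 0 1)
    {χ : Fin (2 * m + 1 + 1) → Fin (2 * m + 1 + 1) → Fin (2 * m + 1 + 1) → ℝ} {μ : ℕ → ℝ}
    {lam : ℝ} (h : EuTop χ μ) (heig : ∀ η, Form3 η → wz R χ η = lam * ip3 χ η) :
    - (24 / 25 * (2 * (m : ℝ) - 1)) ≤ lam := by
  have hE : ETop χ := eTop_of_euTop h
  have hA : aV χ = nfA eJ (eS μ) := aV_eq h
  have hF : nA (aV χ) = 1 := nA_eq_one h
  have hwz : wz R χ (eA (aV χ)) = lam := by
    rw [heig _ (eA_form (aV_skew h.form)), ip3_eA h.form, hF, mul_one]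
  have hm' : (1 : ℝ) ≤ m := by exact_mod_cast hm
  have hm0 : (0 : ℝ) < m := by linarith
  -- the coefficients
  have hsum : ∑ a : Fin m, μ a.val ^ 2 = 1 := by
    have h1 := h.sum_sq
    rw [sum_lines] at h1
    simp only [eS_ln0, eS_ln1, eS_lnf] at h1
    have h2 : ∀ a : Fin m, μ a.val ^ 2 + (- μ a.val) ^ 2 = 2 * μ a.val ^ 2 := fun a => by ring
    simp only [h2] at h1
    rw [← Finset.mul_sum] at h1
    linarith
  set τ : ℝ := (∑ a : Fin m, μ a.val) / m with hτ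
  have hS : ∑ a : Fin m, μ a.val = m * τ := by
    rw [hτ]
    field_simp
  have hS0 : 0 < ∑ a : Fin m, μ a.val := by
    rcases (Finset.sum_nonneg (fun a (_ : a ∈ (univ : Finset (Fin m))) =>
      h.nonneg a.val)).eq_or_lt with h0 | h0
    · exfalso
      have h1 := (Finset.sum_eq_zero_iff_of_nonneg (fun a (_ : a ∈ (univ : Finset (Fin m))) =>
        h.nonneg a.val)).1 h0.symm
      have h2 : ∑ a : Fin m, μ a.val ^ 2 = 0 :=
        Finset.sum_eq_zero fun a ha => by rw [h1 a ha]; norm_num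
      rw [hsum] at h2
      norm_num at h2
    · exact h0
  have hτ0 : 0 < τ := div_pos hS0 hm0
  have hsc := even_scalar hm h.nonneg hτ0 hS hsum.symm
  rw [mul_one] at hsc
  -- the truncated coefficients
  set t : Fin (2 * m + 1) → ℝ := eS (fun k => min (μ k) τ) with ht
  have htJ : NF (eJ : Fin (2 * m + 1) → Fin (2 * m + 1)) t := nf_eJ_eS _
  have hr : NF (eJ : Fin (2 * m + 1) → Fin (2 * m + 1)) (fun v => eS μ v - t v) :=
    ⟨eJ_eJ, fun i => by rw [eS_eJ, ht, eS_eJ]; ring⟩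
  have hc := cost hR hs hE (nf_eJ_eS μ) htJ hA (show (0 : ℝ) < 2 by norm_num)
    (show (0 : ℝ) < τ ^ 2 / 2 by positivity)
  have hx := exc_le hR hs hE (nf_eJ_eS μ) hA hr
  rw [hF] at hc hx
  rw [hwz] at hc
  -- no cost on the planes through `e`
  have hsq : ∀ v : Fin (2 * m + 1), eS μ v ^ 2 ≤ 1 := by
    intro v
    have h1 := h.slc_le (fun a => if a = v then 1 else 0)
    have h2 : ∑ i, (1 - eS μ i ^ 2) * (if i = v then (1 : ℝ) else 0) ^ 2 = 1 - eS μ v ^ 2 := by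
      rw [Finset.sum_eq_single v (fun k _ hk => by simp [hk])
        (fun hh => absurd (Finset.mem_univ _) hh)]
      simp
    rw [h2] at h1
    have h3 : 0 ≤ ∑ j, ∑ k, (∑ i, (if i = v then (1 : ℝ) else 0) * psiV χ i j k) ^ 2 :=
      Finset.sum_nonneg fun _ _ => Finset.sum_nonneg fun _ _ => sq_nonneg _
    linarith
  have ht2 : ∀ v : Fin (2 * m + 1), t v ^ 2 ≤ τ ^ 2 := by
    intro v
    have h1 : |t v| ≤ τ := by
      rw [ht, abs_eS_min h.nonneg hτ0.le]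
      exact min_le_right _ _
    have h2 := abs_nonneg (t v)
    rw [← sq_abs (t v)]
    exact pow_le_pow_left₀ h2 h1 2
  have e0 : ∑ v : Fin (2 * m + 1), max ((1 / 6) * ((2 + 2 * t v ^ 2 / (τ ^ 2 / 2))
      * (1 - eS μ v ^ 2)) - (1 - eS μ v ^ 2)) 0 = 0 := by
    refine Finset.sum_eq_zero fun v _ => max_eq_right ?_
    have h1 : 2 * t v ^ 2 / (τ ^ 2 / 2) ≤ 4 := by
      rw [div_le_iff₀ (by positivity)]
      linarith [ht2 v]
    nlinarith [hsq v]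
  rw [e0, zero_add] at hc
  -- the planes
  have e1 : ∀ v w : Fin (2 * m + 1), (if w = v ∨ w = eJ v then 0 else
      max ((4 / 3) * (τ ^ 2 / 2) + 2 / (3 * 2) * (|t v| + |t w|) ^ 2 - eS μ v ^ 2
        - eS μ w ^ 2) 0)
      = (if w = v ∨ w = eJ v then 0 else
        max 0 (2 / 3 * τ ^ 2 + 1 / 3 * (|t v| + |t w|) ^ 2 - eS μ v ^ 2 - eS μ w ^ 2)) := by
    intro v w
    have h1 : (4 / 3) * (τ ^ 2 / 2) + 2 / (3 * 2) * (|t v| + |t w|) ^ 2 - eS μ v ^ 2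
        - eS μ w ^ 2 = 2 / 3 * τ ^ 2 + 1 / 3 * (|t v| + |t w|) ^ 2 - eS μ v ^ 2
        - eS μ w ^ 2 := by ring
    rw [h1, max_comm]
  have e2 : (2 / 3) * (τ ^ 2 / 2) * ∑ v : Fin (2 * m + 1), (if eJ v = v then (0 : ℝ) else 1)
      = ∑ v : Fin (2 * m + 1), if eJ v = v then 0 else 1 / 3 * τ ^ 2 := by
    rw [Finset.mul_sum]
    refine Finset.sum_congr rfl fun v _ => ?_
    split_ifs <;> ring
  simp only [e1] at hc
  rw [e2] at hc
  have hcpl : cpl R χ (nfA eJ (fun v => eS μ v - t v))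
      ≤ ∑ l : Fin (2 * m + 1), |eS μ l - t l|
        * (2 * Real.sqrt ((1 - eS μ l ^ 2) * (4 / 9 * (((2 * m + 1 - 2) / 2 : ℕ) : ℝ) + 1 / 4))) :=
    (le_abs_self _).trans hx
  linarith

end Pool.Hopf3.EU
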