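import Pool.Agent.Lib.MP_4a593f_gt.E83.Defs
import Pool.Agent.Lib.MP_4a593f_gt.P3.NFa

/-!
Euclidean test form `e ∧ i_e φ`, general dimension `n = N + 1`: definitions. In the namespace
`EU`: `χ` a 3-form on `ℝ^(N+1)`, `e` the vector number `0`, `V = ℝ^N` embedded by `Fin.succ`.
-/

namespace Pool.Hopf3

open Finset

/-- `i_w χ` -/
def slc {n : ℕ} (χ : Fin n → Fin n → Fin n → ℝ) (w : Fin n → ℝ) (j k : Fin n) : ℝ :=
  ∑ i, w i * χ i j k

/-- The direction `0` has the largest slice of `χ`, of norm one, and this slice is in normal form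
(`e_1∧e_2, e_3∧e_4, ...` with coefficients `μ 0, μ 1, ...`). -/
structure EuTop {N : ℕ} (χ : Fin (N + 1) → Fin (N + 1) → Fin (N + 1) → ℝ) (μ : ℕ → ℝ) :
    Prop where
  form : Form3 χ
  anti : Antitone μ
  nonneg : ∀ k, 0 ≤ μ k
  zero : ∀ k, N ≤ 2 * k + 1 → μ k = 0
  slice : ∀ i j : Fin N, χ 0 i.succ j.succ = nf μ i.val j.val
  norm : ip2 (χ 0) (χ 0) = 1
  top : ∀ w : Fin (N + 1) → ℝ, ip2 (slc χ w) (slc χ w) ≤ dotp w w

end Pool.Hopf3

namespace Pool.Hopf3.EU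

open Finset

variable {N : ℕ}

/-- `A = i_e χ`, a skew matrix on `V` -/
def aV (χ : Fin (N + 1) → Fin (N + 1) → Fin (N + 1) → ℝ) (v w : Fin N) : ℝ :=
  χ 0 v.succ w.succ

/-- `ψ`, the restriction of `χ` to `V` -/
def psV (χ : Fin (N + 1) → Fin (N + 1) → Fin (N + 1) → ℝ) (u v w : Fin N) : ℝ :=
  χ u.succ v.succ w.succ

/-- the curvature tensor of `V` -/
def rV (R : Fin (N + 1) → Fin (N + 1) → Fin (N + 1) → Fin (N + 1) → ℝ) (u v w z : Fin N) : ℝ :=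
  R u.succ v.succ w.succ z.succ

/-- `R(e,v,e,w)` -/
def rE (R : Fin (N + 1) → Fin (N + 1) → Fin (N + 1) → Fin (N + 1) → ℝ) (v w : Fin N) : ℝ :=
  R 0 v.succ 0 w.succ

/-- `R(e,v,y,w)` -/
def rT (R : Fin (N + 1) → Fin (N + 1) → Fin (N + 1) → Fin (N + 1) → ℝ) (v y w : Fin N) : ℝ :=
  R 0 v.succ y.succ w.succ

/-- the 3-form `e ∧ A` -/
def eA (A : Fin N → Fin N → ℝ) (i j k : Fin (N + 1)) : ℝ :=
  Fin.cases (Fin.cases 0 (fun b => Fin.cases 0 (fun c => A b c) k) j)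
    (fun a => Fin.cases (Fin.cases 0 (fun c => - A a c) k)
      (fun b => Fin.cases (A a b) (fun _ => 0) k) j) i

/-- `F = |A|²` -/
noncomputable def nA (A : Fin N → Fin N → ℝ) : ℝ := 1 / 2 * ∑ v, ∑ w, A v w * A v w

/-- the curvature term of 2-forms on `V` -/
noncomputable def w2 (R : Fin N → Fin N → Fin N → Fin N → ℝ) (A : Fin N → Fin N → ℝ) : ℝ :=
  (∑ v, ∑ w, (∑ u, R v u w u) * ∑ b, A v b * A w b)
    - 1 / 2 * ∑ i, ∑ j, ∑ k, ∑ l, R i j k l * A i j * A k l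

/-- The vector number `0` is a top eigenvector of `|i_v χ|²`. -/
structure ETop (χ : Fin (N + 1) → Fin (N + 1) → Fin (N + 1) → ℝ) : Prop where
  form : Form3 χ
  first : ∀ v : Fin N, ∑ i, ∑ j, psV χ v i j * aV χ i j = 0
  top : ∀ w : Fin N → ℝ, ∑ y, ∑ z, (∑ v, w v * psV χ v y z) ^ 2
    ≤ 2 * nA (aV χ) * (∑ v, w v ^ 2) - 2 * ∑ b, (∑ v, w v * aV χ v b) ^ 2

/-- Normal form data of a skew matrix: `J` pairs the basis vectors (`J i = i` in the kernel),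
`s i` is the entry at `(i, J i)`. -/
structure NF (J : Fin N → Fin N) (s : Fin N → ℝ) : Prop where
  inv : ∀ i, J (J i) = i
  sgn : ∀ i, s (J i) = - s i

/-- the skew matrix with normal form data `J`, `s` -/
def nfA (J : Fin N → Fin N) (s : Fin N → ℝ) (i j : Fin N) : ℝ := if j = J i then s i else 0

/-- The core estimate in `ℝ^(N+1)` with constant `c`. -/
def Core (N : ℕ) (c : ℝ) : Prop :=
  ∀ R : Fin (N + 1) → Fin (N + 1) → Fin (N + 1) → Fin (N + 1) → ℝ, IsCurvature R → SecIn R 0 1 →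
    ∀ χ : Fin (N + 1) → Fin (N + 1) → Fin (N + 1) → ℝ, ETop χ →
      ∀ (J : Fin N → Fin N) (s : Fin N → ℝ), NF J s → aV χ = nfA J s →
        - c * nA (aV χ) ≤ wz R χ (eA (aV χ))

end Pool.Hopf3.EU
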