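import Pool.Agent.Lib.MP_4a593f_gt.EU.Defs
import Pool.Agent.Lib.MP_4a593f_gt.P3.Frame

/-!
Existence of a frame in which a nonzero 3-form is at its top (`EuTop`).
-/

namespace Pool.Hopf3

open Finset

variable {n : ℕ}

private theorem red_compact : IsCompact {O : Fin n → Fin n → ℝ | IsFrame O} := by
  have h1 : IsCompact (Set.univ.pi fun _ : Fin n =>
      (Set.univ.pi fun _ : Fin n => Set.Icc (-1 : ℝ) 1)) :=
    isCompact_univ_pi fun _ => isCompact_univ_pi fun _ => isCompact_Icc
  refine h1.of_isClosed_subset ?_ ?_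
  · have h2 : {O : Fin n → Fin n → ℝ | IsFrame O}
        = ⋂ i, ⋂ j, {O : Fin n → Fin n → ℝ | ∑ a, O i a * O j a = if i = j then 1 else 0} := by
      ext O
      simp [IsFrame]
    rw [h2]
    refine isClosed_iInter fun i => isClosed_iInter fun j => isClosed_eq ?_ continuous_const
    fun_prop
  · intro O hO i _ a _
    have hO' : IsFrame O := hO
    have h2 := hO' i i
    rw [if_pos rfl] at h2
    have h3 : O i a * O i a ≤ 1 := by
      rw [← h2]
      exact Finset.single_le_sum (f := fun a => O i a * O i a) (fun _ _ => mul_self_nonneg _)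
        (Finset.mem_univ a)
    constructor <;> nlinarith

/-- the slice in a direction, after a change of frame -/
theorem slc_pull (χ : Fin n → Fin n → Fin n → ℝ) (P : Fin n → Fin n → ℝ) (w : Fin n → ℝ) :
    slc (pull3 χ P) w = pull2 (slc χ (fun a => ∑ i, w i * P i a)) P := by
  funext j k
  unfold slc pull3 pull2
  simp only [Finset.mul_sum, Finset.sum_mul]
  rw [Finset.sum_comm]
  have e1 : ∀ y : Fin n, ∑ x : Fin n, ∑ i, ∑ z, w x * (χ y i z * P x y * P j i * P k z)
      = ∑ i, ∑ z, ∑ x : Fin n, w x * (χ y i z * P x y * P j i * P k z) := by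
    intro y
    rw [Finset.sum_comm]
    refine Finset.sum_congr rfl fun i _ => ?_
    rw [Finset.sum_comm]
  simp only [e1]
  rw [Finset.sum_comm]
  refine Finset.sum_congr rfl fun b _ => ?_
  rw [Finset.sum_comm]
  refine Finset.sum_congr rfl fun c _ => ?_
  refine Finset.sum_congr rfl fun y _ => Finset.sum_congr rfl fun x _ => ?_
  ring

theorem slc_single (χ : Fin n → Fin n → Fin n → ℝ) (i : Fin n) :
    slc χ (fun a => if a = i then 1 else 0) = χ i := by
  funext j k
  unfold slc
  simp

theorem slc_smul (χ : Fin n → Fin n → Fin n → ℝ) (t : ℝ) (w : Fin n → ℝ) :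
    slc χ (fun a => t * w a) = t • slc χ w := by
  funext j k
  unfold slc
  simp only [Pi.smul_apply, smul_eq_mul, Finset.mul_sum, mul_assoc]

theorem slc_smul_form (χ : Fin n → Fin n → Fin n → ℝ) (t : ℝ) (w : Fin n → ℝ) :
    slc (t • χ) w = t • slc χ w := by
  funext j k
  unfold slc
  simp only [Pi.smul_apply, smul_eq_mul, Finset.mul_sum]
  refine Finset.sum_congr rfl fun i _ => ?_
  ring

theorem ip2_smul_smul (t : ℝ) (L : Fin n → Fin n → ℝ) : ip2 (t • L) (t • L) = t ^ 2 * ip2 L L := by
  unfold ip2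
  simp only [Pi.smul_apply, smul_eq_mul, Finset.mul_sum]
  refine Finset.sum_congr rfl fun i _ => Finset.sum_congr rfl fun j _ => ?_
  ring

/-- a frame with given first vector -/
theorem exists_frame_first {N : ℕ} (w : Fin (N + 1) → ℝ) (hw : dotp w w = 1) :
    ∃ P : Fin (N + 1) → Fin (N + 1) → ℝ, IsFrame P ∧ P 0 = w := by
  by_cases h : w = fun a => if a = 0 then 1 else 0
  · refine ⟨fun i j => if i = j then 1 else 0, ?_, ?_⟩
    · intro i j
      simp
    · rw [h]
      funext a
      simp [eq_comm]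
  · set u : Fin (N + 1) → ℝ := fun a => w a - (if a = 0 then 1 else 0) with hu
    have hwu : dotp w w = 1 := hw
    have hdd : ∑ a, u a * u a = 2 - 2 * w 0 := by
      have e1 : ∀ a, u a * u a = w a * w a + (if a = 0 then (1 - 2 * w a) else 0) := by
        intro a
        rw [hu]
        by_cases ha : a = 0
        · simp only [ha, if_true]; ring
        · simp only [if_neg ha]; ring
      simp only [e1, Finset.sum_add_distrib]
      unfold dotp at hwu
      rw [hwu]
      simp
      ring
    have hd0 : 0 < ∑ a, u a * u a := by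
      by_contra hc
      have h0 : ∑ a, u a * u a = 0 :=
        le_antisymm (not_lt.1 hc) (Finset.sum_nonneg fun a _ => mul_self_nonneg _)
      apply h
      funext a
      have h1 := (Finset.sum_eq_zero_iff_of_nonneg fun a _ => mul_self_nonneg (u a)).1 h0 a
        (Finset.mem_univ a)
      have h2 := mul_self_eq_zero.1 h1
      rw [hu] at h2
      simp only at h2
      linarith
    set d : ℝ := ∑ a, u a * u a with hd
    refine ⟨fun i j => (if i = j then 1 else 0) - 2 / d * (u i * u j), ?_, ?_⟩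
    · intro i j
      have e1 : ∀ a, ((if i = a then (1 : ℝ) else 0) - 2 / d * (u i * u a))
          * ((if j = a then 1 else 0) - 2 / d * (u j * u a))
          = (if i = a then (if j = a then 1 else 0) else 0)
            - 2 / d * (if i = a then u j * u a else 0)
            - 2 / d * (if j = a then u i * u a else 0)
            + (2 / d) ^ 2 * (u i * u j) * (u a * u a) := by
        intro a
        split_ifs <;> ring
      simp only [e1, Finset.sum_add_distrib, Finset.sum_sub_distrib, ← Finset.mul_sum]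
      rw [← hd]
      have e2 : ∑ a, (if i = a then (if j = a then (1 : ℝ) else 0) else 0)
          = if i = j then 1 else 0 := by
        simp [eq_comm]
      rw [e2]
      simp only [Finset.sum_ite_eq, Finset.mem_univ, if_true]
      have hdne : d ≠ 0 := hd0.ne'
      field_simp
      ring
    · funext j
      have hu0 : u 0 = w 0 - 1 := by rw [hu]; simp
      have h2 : 2 / d * u 0 = -1 := by
        rw [div_mul_eq_mul_div, div_eq_iff hd0.ne', hu0, hdd]
        ring
      have h3 : (if (0 : Fin (N + 1)) = j then (1 : ℝ) else 0) - 2 / d * (u 0 * u j)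
          = (if (0 : Fin (N + 1)) = j then (1 : ℝ) else 0) + u j := by
        linear_combination (- u j) * h2
      show (if (0 : Fin (N + 1)) = j then (1 : ℝ) else 0) - 2 / d * (u 0 * u j) = w j
      rw [h3, hu]
      by_cases hj : j = 0
      · subst hj; simp
      · simp [hj, Ne.symm hj]

/-- the block frame `1 ⊕ O` -/
def bfr {N : ℕ} (O : Fin N → Fin N → ℝ) (i j : Fin (N + 1)) : ℝ :=
  Fin.cases (motive := fun _ => ℝ) (if j = 0 then 1 else 0)
    (fun i' => Fin.cases (motive := fun _ => ℝ) 0 (fun j' => O i' j') j) i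

theorem bfr_00 {N : ℕ} (O : Fin N → Fin N → ℝ) : bfr O 0 0 = 1 := by simp [bfr]
theorem bfr_0s {N : ℕ} (O : Fin N → Fin N → ℝ) (j : Fin N) : bfr O 0 j.succ = 0 := by
  simp [bfr, Fin.succ_ne_zero]
theorem bfr_s0 {N : ℕ} (O : Fin N → Fin N → ℝ) (i : Fin N) : bfr O i.succ 0 = 0 := by simp [bfr]
theorem bfr_ss {N : ℕ} (O : Fin N → Fin N → ℝ) (i j : Fin N) : bfr O i.succ j.succ = O i j := by
  simp [bfr]

theorem bfr_frame {N : ℕ} {O : Fin N → Fin N → ℝ} (hO : IsFrame O) : IsFrame (bfr O) := by
  intro i j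
  rw [Fin.sum_univ_succ]
  refine Fin.cases ?_ (fun i' => ?_) i
  · refine Fin.cases ?_ (fun j' => ?_) j
    · simp [bfr_00, bfr_0s]
    · simp [bfr_00, bfr_0s, bfr_s0, (Fin.succ_ne_zero j').symm]
  · refine Fin.cases ?_ (fun j' => ?_) j
    · simp [bfr_0s, bfr_s0, Fin.succ_ne_zero]
    · simp only [bfr_s0, bfr_ss, mul_zero, zero_add]
      rw [hO i' j']
      simp

theorem pull3_bfr {N : ℕ} {χ : Fin (N + 1) → Fin (N + 1) → Fin (N + 1) → ℝ}
    (O : Fin N → Fin N → ℝ) (i j : Fin N) :
    pull3 χ (bfr O) 0 i.succ j.succ = pull2 (fun a b => χ 0 a.succ b.succ) O i j := by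
  unfold pull3 pull2
  rw [Fin.sum_univ_succ]
  simp only [bfr_00, bfr_0s, mul_zero, zero_mul, mul_one, Finset.sum_const_zero, add_zero]
  rw [Fin.sum_univ_succ]
  simp only [bfr_s0, mul_zero, zero_mul, Finset.sum_const_zero, zero_add]
  refine Finset.sum_congr rfl fun a _ => ?_
  rw [Fin.sum_univ_succ]
  simp only [bfr_s0, bfr_ss, mul_zero, zero_add]

/-- In a suitable frame, and after scaling, a nonzero 3-form is at its top. -/
theorem exists_euTop {N : ℕ} {φ : Fin (N + 1) → Fin (N + 1) → Fin (N + 1) → ℝ} (hφ : Form3 φ)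
    (h0 : φ ≠ 0) : ∃ (O : Fin (N + 1) → Fin (N + 1) → ℝ) (t : ℝ) (μ : ℕ → ℝ), IsFrame O ∧
      EuTop (t • pull3 φ O) μ := by
  -- the best direction
  have hne : {O : Fin (N + 1) → Fin (N + 1) → ℝ | IsFrame O}.Nonempty := by
    refine ⟨fun i j => if i = j then 1 else 0, ?_⟩
    intro i j
    simp
  have hc : ContinuousOn (fun O : Fin (N + 1) → Fin (N + 1) → ℝ =>
      ip2 (pull3 φ O 0) (pull3 φ O 0)) {O : Fin (N + 1) → Fin (N + 1) → ℝ | IsFrame O} := by
    apply Continuous.continuousOn
    unfold ip2 pull3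
    fun_prop
  obtain ⟨O1, hO1, hmax⟩ := red_compact.exists_isMaxOn hne hc
  have hO1' : IsFrame O1 := hO1
  set χ1 := pull3 φ O1 with hχ1
  have hf1 : Form3 χ1 := pull3_form hφ O1
  set F : ℝ := ip2 (χ1 0) (χ1 0) with hF
  have hmax2 : ∀ P : Fin (N + 1) → Fin (N + 1) → ℝ, IsFrame P →
      ip2 (pull3 χ1 P 0) (pull3 χ1 P 0) ≤ F := by
    intro P hP
    rw [hχ1, pull3_comp]
    exact hmax (hO1'.comp hP)
  -- the slice inequality for unit vectors
  have htop1 : ∀ w : Fin (N + 1) → ℝ, dotp w w = 1 → ip2 (slc χ1 w) (slc χ1 w) ≤ F := by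
    intro w hw
    obtain ⟨P, hP, hP0⟩ := exists_frame_first w hw
    have e1 : pull3 χ1 P 0 = pull2 (slc χ1 w) P := by
      rw [← slc_single (pull3 χ1 P) 0, slc_pull]
      congr 2
      funext a
      simp [hP0]
    have h := hmax2 P hP
    rw [e1, ip2_pull hP] at h
    exact h
  have htop : ∀ w : Fin (N + 1) → ℝ, ip2 (slc χ1 w) (slc χ1 w) ≤ F * dotp w w := by
    intro w
    rcases (show 0 ≤ dotp w w from Finset.sum_nonneg fun i _ => mul_self_nonneg _).eq_or_lt
      with hz | hz
    · have hw0 : w = 0 := by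
        funext a
        exact mul_self_eq_zero.1 ((Finset.sum_eq_zero_iff_of_nonneg
          fun a _ => mul_self_nonneg (w a)).1 hz.symm a (Finset.mem_univ a))
      rw [← hz, hw0]
      have : slc χ1 0 = 0 := by
        funext j k
        simp [slc]
      rw [this]
      simp [ip2]
    · set s : ℝ := Real.sqrt (dotp w w) with hs
      have hs0 : 0 < s := Real.sqrt_pos.2 hz
      have hss : s * s = dotp w w := Real.mul_self_sqrt hz.le
      have h1 : dotp (fun a => s⁻¹ * w a) (fun a => s⁻¹ * w a) = 1 := by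
        have e : dotp (fun a => s⁻¹ * w a) (fun a => s⁻¹ * w a) = s⁻¹ * s⁻¹ * dotp w w := by
          unfold dotp
          rw [Finset.mul_sum]
          exact Finset.sum_congr rfl fun a _ => by ring
        rw [e, ← hss]
        field_simp
      have h2 := htop1 _ h1
      rw [slc_smul, ip2_smul_smul] at h2
      have h3 : s⁻¹ ^ 2 * ip2 (slc χ1 w) (slc χ1 w) = ip2 (slc χ1 w) (slc χ1 w) / dotp w w := by
        rw [← hss]
        field_simp
      rw [h3, div_le_iff₀ hz] at h2
      exact h2
  -- positivity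
  have hFpos : 0 < F := by
    rcases (ip2_self_nonneg (χ1 0)).eq_or_lt with hz | hz
    · exfalso
      apply h0
      have hz' : F = 0 := by rw [hF]; exact hz.symm
      have hall : χ1 = 0 := by
        funext i j k
        have h1 := htop (fun a => if a = i then 1 else 0)
        rw [slc_single, hz', zero_mul] at h1
        have h2 : ∑ j, ∑ k, χ1 i j k * χ1 i j k = 0 := by
          have h3 := ip2_self_nonneg (χ1 i)
          unfold ip2 at h1 h3
          linarith
        have h3 := (Finset.sum_eq_zero_iff_of_nonneg (fun j _ =>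
          Finset.sum_nonneg fun k _ => mul_self_nonneg (χ1 i j k))).1 h2 j (Finset.mem_univ j)
        have h4 := (Finset.sum_eq_zero_iff_of_nonneg (fun k _ =>
          mul_self_nonneg (χ1 i j k))).1 h3 k (Finset.mem_univ k)
        exact mul_self_eq_zero.1 h4
      have h5 := pull3_transp hO1' φ
      rw [← h5, ← hχ1, hall]
      funext i j k
      simp [pull3]
    · exact hz
  -- the normal form of the slice
  have hsk : Skew (fun a b : Fin N => χ1 0 a.succ b.succ) := by
    intro a b
    exact hf1.s23 _ _ _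
  obtain ⟨O2, μ, hO2, hanti, hnn, hz, hnf⟩ := exists_nf N _ hsk
  have hQ := bfr_frame hO2
  set t : ℝ := (Real.sqrt F)⁻¹ with ht
  have hs0 : 0 < Real.sqrt F := Real.sqrt_pos.2 hFpos
  have ht0 : 0 < t := inv_pos.2 hs0
  have htF : t ^ 2 * F = 1 := by
    rw [ht]
    have h1 : Real.sqrt F * Real.sqrt F = F := Real.mul_self_sqrt hFpos.le
    field_simp
    rw [sq, h1]
  have hcomp : pull3 φ (fun i a => ∑ b, bfr O2 i b * O1 b a) = pull3 χ1 (bfr O2) := by
    rw [hχ1, pull3_comp]
  refine ⟨fun i a => ∑ b, bfr O2 i b * O1 b a, t, fun k => t * μ k, hO1'.comp hQ, ?_⟩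
  rw [hcomp]
  have hdot : ∀ w : Fin (N + 1) → ℝ, dotp (fun a => ∑ i, w i * bfr O2 i a)
      (fun a => ∑ i, w i * bfr O2 i a) = dotp w w := by
    intro w
    unfold dotp
    simp only [Finset.sum_mul_sum]
    rw [Finset.sum_comm]
    have e1 : ∀ i, ∑ a, ∑ j, w i * bfr O2 i a * (w j * bfr O2 j a) = w i * w i := by
      intro i
      rw [Finset.sum_comm]
      have e2 : ∀ j, ∑ a, w i * bfr O2 i a * (w j * bfr O2 j a)
          = if i = j then w i * w j else 0 := by
        intro j
        have e3 : ∀ a, w i * bfr O2 i a * (w j * bfr O2 j a)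
            = w i * w j * (bfr O2 i a * bfr O2 j a) := fun a => by ring
        simp only [e3]
        rw [← Finset.mul_sum, hQ i j]
        split_ifs <;> ring
      simp only [e2]
      simp
    simp only [e1]
  have htop2 : ∀ w : Fin (N + 1) → ℝ, ip2 (slc (pull3 χ1 (bfr O2)) w)
      (slc (pull3 χ1 (bfr O2)) w) ≤ F * dotp w w := by
    intro w
    rw [slc_pull, ip2_pull hQ, ← hdot w]
    exact htop _
  refine ⟨(pull3_form hf1 _).smul t, ?_, ?_, ?_, ?_, ?_, ?_⟩
  · intro a b hab
    exact mul_le_mul_of_nonneg_left (hanti hab) ht0.le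
  · intro k
    exact mul_nonneg ht0.le (hnn k)
  · intro k hk
    rw [hz k hk, mul_zero]
  · intro i j
    simp only [Pi.smul_apply, smul_eq_mul]
    rw [pull3_bfr, hnf]
    unfold nf
    split_ifs <;> ring
  · have e1 : (t • pull3 χ1 (bfr O2)) 0 = t • (pull3 χ1 (bfr O2) 0) := rfl
    have e2 : pull3 χ1 (bfr O2) 0 = pull2 (χ1 0) (bfr O2) := by
      rw [← slc_single (pull3 χ1 (bfr O2)) 0, slc_pull, ← slc_single χ1 0]
      congr 2
      funext a
      simp only [ite_mul, one_mul, zero_mul, Finset.sum_ite_eq', Finset.mem_univ, if_true]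
      refine Fin.cases ?_ (fun a' => ?_) a
      · simp [bfr_00]
      · simp [bfr_0s, Fin.succ_ne_zero]
    rw [e1, ip2_smul_smul, e2, ip2_pull hQ, ← hF]
    exact htF
  · intro w
    rw [slc_smul_form, ip2_smul_smul]
    calc t ^ 2 * ip2 (slc (pull3 χ1 (bfr O2)) w) (slc (pull3 χ1 (bfr O2)) w)
        ≤ t ^ 2 * (F * dotp w w) := mul_le_mul_of_nonneg_left (htop2 w) (sq_nonneg t)
      _ = dotp w w := by rw [← mul_assoc, htF, one_mul]

end Pool.Hopf3
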