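import Mathlib

/-!
The scalar inequality of the Euclidean test form (p = 3, even n = 2 m + 2), constant 39/40.
-/

namespace Pool.HopfEU

open Finset

/-- Pair cost with threshold 1 (twice the overdraft of one unordered pair of lines, half of 4). -/
noncomputable def pairC (a b : ℝ) : ℝ :=
  2 * max 0 (2 / 3 + (1 / 3) * (min a 1 + min b 1) ^ 2 - a ^ 2 - b ^ 2)

/-- Multiplier function (x = l - 1). -/
noncomputable def mulG (x : ℝ) : ℝ :=
  if x ≤ 0 then 3509 / 750 + 487 / 300 * x else 161 / 50 + (161 / 100 - 800 / 153) * x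

lemma pair_le_small {a b : ℝ} (ha : 0 ≤ a) (hb : 0 ≤ b) (ha1 : a ≤ 1) (hb1 : b ≤ 1) :
    pairC a b ≤ 4 / 3 * (1 - a ^ 2 - b ^ 2 + a * b) := by
  unfold pairC
  rw [min_eq_left ha1, min_eq_left hb1]
  have h : 0 ≤ 2 / 3 + (1 / 3) * (a + b) ^ 2 - a ^ 2 - b ^ 2 := by
    rcases le_total a b with h | h
    · nlinarith [mul_nonneg ha (sub_nonneg.mpr h), mul_nonneg hb (sub_nonneg.mpr hb1)]
    · nlinarith [mul_nonneg hb (sub_nonneg.mpr h), mul_nonneg ha (sub_nonneg.mpr ha1)]
  rw [max_eq_right h]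
  nlinarith

lemma pair_mixed {x w : ℝ} (hx : 0 ≤ x) (hw : 0 ≤ w) (hw1 : w ≤ 1) :
    4 / 3 + pairC (1 + x) (1 - w) - 161 / 200 * ((1 + x) ^ 2 + (1 - w) ^ 2)
      + 1 / 2 * (x * (3509 / 750 + 487 / 300 * (-w))
        + (-w) * (161 / 50 + (161 / 100 - 800 / 153) * x)) ≤ 0 := by
  unfold pairC
  rw [min_eq_right (by linarith : (1:ℝ) ≤ 1 + x), min_eq_left (by linarith : 1 - w ≤ (1:ℝ))]
  rcases le_total (2 / 3 + (1 / 3) * (1 + (1 - w)) ^ 2 - (1 + x) ^ 2 - (1 - w) ^ 2) 0 with h | h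
  · rw [max_eq_left h]
    nlinarith [sq_nonneg (w - 62 / 100 * x), sq_nonneg (x - 3 / 4), mul_nonneg hx hw]
  · rw [max_eq_right h]
    nlinarith [mul_nonneg hx hw, mul_nonneg hx (sub_nonneg.mpr hw1), sq_nonneg (w - 31 / 100),
      sq_nonneg x]

lemma pair_ineq {a b : ℝ} (ha : 0 ≤ a) (hb : 0 ≤ b) :
    4 / 3 + pairC a b + 800 / 153 * (max 0 (a - 1) * max 0 (b - 1))
      - 161 / 200 * (a ^ 2 + b ^ 2)
      + 1 / 2 * ((a - 1) * mulG (b - 1) + (b - 1) * mulG (a - 1)) ≤ 0 := by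
  rcases le_or_gt a 1 with ha1 | ha1 <;> rcases le_or_gt b 1 with hb1 | hb1
  · have h := pair_le_small ha hb ha1 hb1
    rw [max_eq_left (by linarith : a - 1 ≤ 0), max_eq_left (by linarith : b - 1 ≤ 0)]
    unfold mulG
    rw [if_pos (by linarith : a - 1 ≤ 0), if_pos (by linarith : b - 1 ≤ 0)]
    nlinarith [sq_nonneg (a - b), sq_nonneg (2 - a - b - 302 / 330)]
  · have h := pair_mixed (x := b - 1) (w := 1 - a) (by linarith) (by linarith) (by linarith)
    have e : pairC a b = pairC (1 + (b - 1)) (1 - (1 - a)) := by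
      unfold pairC
      have e1 : 1 + (b - 1) = b := by ring
      have e2 : 1 - (1 - a) = a := by ring
      rw [e1, e2]; ring_nf
    rw [max_eq_left (by linarith : a - 1 ≤ 0), e]
    unfold mulG
    rw [if_pos (by linarith : a - 1 ≤ 0), if_neg (by linarith : ¬ (b - 1 ≤ 0))]
    nlinarith
  · have h := pair_mixed (x := a - 1) (w := 1 - b) (by linarith) (by linarith) (by linarith)
    have e : pairC a b = pairC (1 + (a - 1)) (1 - (1 - b)) := by
      unfold pairC
      have e1 : 1 + (a - 1) = a := by ring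
      have e2 : 1 - (1 - b) = b := by ring
      rw [e1, e2]
    rw [max_eq_left (by linarith : b - 1 ≤ 0), e]
    unfold mulG
    rw [if_neg (by linarith : ¬ (a - 1 ≤ 0)), if_pos (by linarith : b - 1 ≤ 0)]
    nlinarith
  · have e : pairC a b = 0 := by
      unfold pairC
      rw [min_eq_right ha1.le, min_eq_right hb1.le, max_eq_left (by nlinarith)]
      ring
    rw [e, max_eq_right (by linarith : 0 ≤ a - 1), max_eq_right (by linarith : 0 ≤ b - 1)]
    unfold mulG
    rw [if_neg (by linarith : ¬ (a - 1 ≤ 0)), if_neg (by linarith : ¬ (b - 1 ≤ 0))]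
    nlinarith [sq_nonneg (a - b)]

lemma pairC_comm (a b : ℝ) : pairC a b = pairC b a := by
  unfold pairC; ring_nf

lemma pairC_self (a : ℝ) (ha : 0 ≤ a) :
    pairC a a = 2 * max 0 (2 / 3 + (min a 1) ^ 2 / 3 - a ^ 2) := by
  unfold pairC
  rcases le_or_gt a 1 with h | h
  · rw [min_eq_left h]
    have h1 : 0 ≤ 2 / 3 + (1 / 3) * (a + a) ^ 2 - a ^ 2 - a ^ 2 := by nlinarith
    have h2 : 0 ≤ 2 / 3 + a ^ 2 / 3 - a ^ 2 := by nlinarith
    rw [max_eq_right h1, max_eq_right h2]; ring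
  · rw [min_eq_right h.le, max_eq_left (by nlinarith), max_eq_left (by nlinarith)]

/-- AM-GM for one excess term. -/
lemma excess_term {m1 X d : ℝ} (hm : 0 ≤ m1) (hX : 0 ≤ X) (hd : 0 < d) :
    8 / 3 * (√m1 * √X) ≤ 17 / 50 * m1 * X / d + 800 / 153 * d := by
  have h1 : √m1 * √X * (√m1 * √X) = m1 * X := by
    have e1 := Real.mul_self_sqrt hm
    have e2 := Real.mul_self_sqrt hX
    calc √m1 * √X * (√m1 * √X) = (√m1 * √m1) * (√X * √X) := by ring
      _ = m1 * X := by rw [e1, e2]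
  set A := √m1 * √X with hA
  have h2 : 17 / 50 * m1 * X / d + 800 / 153 * d - 8 / 3 * A
      = 17 / 50 / d * (A - 200 / 51 * d) ^ 2 := by
    field_simp
    nlinarith [h1]
  have h3 : 0 ≤ 17 / 50 / d * (A - 200 / 51 * d) ^ 2 := by positivity
  linarith

/-- The scalar inequality, normalised so that the mean of the l's is 1. -/
theorem scalar_one {m : ℕ} (l : Fin m → ℝ) (hl : ∀ a, 0 ≤ l a) (hm : 1 ≤ m)
    (hS : ∑ a, l a = m) :
    4 / 3 * ((m : ℝ) ^ 2 - ∑ a, l a ^ 2)
      + (∑ a, ∑ b, if a = b then 0 else pairC (l a) (l b))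
      + 2 / 3 * m + 2 * ∑ a, max 0 (2 / 3 + (min (l a) 1) ^ 2 / 3 - l a ^ 2)
      + 8 / 3 * √((m : ℝ) - 7 / 16) * ∑ a, (l a - min (l a) 1) * √((∑ b, l b ^ 2) - l a ^ 2)
    ≤ 39 / 40 * (2 * m - 1) * ∑ a, l a ^ 2 := by
  classical
  have hm' : (1 : ℝ) ≤ m := by exact_mod_cast hm
  set F : ℝ := ∑ a, l a ^ 2 with hF
  set Z : Fin m → ℝ := fun a => max 0 (l a - 1) with hZ
  have hZ0 : ∀ a, 0 ≤ Z a := fun a => le_max_left _ _
  have hZe : ∀ a, l a - min (l a) 1 = Z a := by
    intro a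
    simp only [hZ]
    rcases le_total (l a) 1 with h | h
    · rw [min_eq_left h, max_eq_left (by linarith)]; ring
    · rw [min_eq_right h, max_eq_right (by linarith)]
  set d : ℝ := ∑ a, Z a with hd
  have hd0 : 0 ≤ d := Finset.sum_nonneg fun a _ => hZ0 a
  have hlF : ∀ a, l a ^ 2 ≤ F := fun a =>
    Finset.single_le_sum (f := fun b => l b ^ 2) (fun b _ => sq_nonneg _) (Finset.mem_univ a)
  -- F >= m
  have hFm : (m : ℝ) ≤ F := by
    have h : 0 ≤ ∑ a, (l a - 1) ^ 2 := Finset.sum_nonneg fun a _ => sq_nonneg _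
    have e : ∑ a, (l a - 1) ^ 2 = F - 2 * ∑ a, l a + m := by
      simp only [hF, sub_sq, Finset.sum_add_distrib, Finset.sum_sub_distrib, Finset.mul_sum,
        Finset.sum_const, Finset.card_univ, Fintype.card_fin, nsmul_eq_mul]
      ring_nf
    rw [e, hS] at h
    linarith
  -- the pair sums
  have hpair : (∑ a, ∑ b, if a = b then 0 else pairC (l a) (l b))
      = (∑ a, ∑ b, pairC (l a) (l b)) - ∑ a, pairC (l a) (l a) := by
    rw [← Finset.sum_sub_distrib]
    refine Finset.sum_congr rfl fun a _ => ?_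
    rw [eq_sub_iff_add_eq]
    have e : pairC (l a) (l a) = ∑ b, if a = b then pairC (l a) (l b) else 0 := by
      rw [Finset.sum_ite_eq]; simp
    rw [e, ← Finset.sum_add_distrib]
    refine Finset.sum_congr rfl fun b _ => ?_
    by_cases h : a = b <;> simp [h]
  have hself : (∑ a, pairC (l a) (l a))
      = 2 * ∑ a, max 0 (2 / 3 + (min (l a) 1) ^ 2 / 3 - l a ^ 2) := by
    rw [Finset.mul_sum]
    exact Finset.sum_congr rfl fun a _ => pairC_self _ (hl a)
  -- sum of the pair inequality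
  have hmain : 4 / 3 * (m : ℝ) ^ 2 + (∑ a, ∑ b, pairC (l a) (l b)) + 800 / 153 * d ^ 2
      - 161 / 100 * m * F ≤ 0 := by
    have h : ∑ a, ∑ b, (4 / 3 + pairC (l a) (l b) + 800 / 153 * (Z a * Z b)
      - 161 / 200 * (l a ^ 2 + l b ^ 2)
      + 1 / 2 * ((l a - 1) * mulG (l b - 1) + (l b - 1) * mulG (l a - 1))) ≤ 0 :=
      Finset.sum_nonpos fun a _ => Finset.sum_nonpos fun b _ => pair_ineq (hl a) (hl b)
    have e1 : ∑ a : Fin m, ∑ b : Fin m, (l a - 1) * mulG (l b - 1) = 0 := by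
      rw [← Finset.sum_mul_sum]
      have : ∑ a, (l a - 1) = 0 := by simp [Finset.sum_sub_distrib, hS]
      rw [this, zero_mul]
    have e2 : ∑ a : Fin m, ∑ b : Fin m, (l b - 1) * mulG (l a - 1) = 0 := by
      rw [Finset.sum_comm]; exact e1
    have e3 : ∑ a : Fin m, ∑ b : Fin m, Z a * Z b = d ^ 2 := by
      rw [← Finset.sum_mul_sum, hd]; ring
    have e4 : ∑ a : Fin m, ∑ b : Fin m, (l a ^ 2 + l b ^ 2) = 2 * m * F := by
      simp only [Finset.sum_add_distrib, Finset.sum_const, Finset.card_univ, Fintype.card_fin,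
        nsmul_eq_mul, ← Finset.mul_sum]
      rw [← hF]; ring
    have e5 : ∑ a : Fin m, ∑ b : Fin m, (4 / 3 + pairC (l a) (l b) + 800 / 153 * (Z a * Z b)
      - 161 / 200 * (l a ^ 2 + l b ^ 2)
      + 1 / 2 * ((l a - 1) * mulG (l b - 1) + (l b - 1) * mulG (l a - 1)))
      = 4 / 3 * (m : ℝ) ^ 2 + (∑ a, ∑ b, pairC (l a) (l b)) + 800 / 153 * d ^ 2
      - 161 / 200 * (2 * m * F) + 1 / 2 * (0 + 0) := by
      rw [← e3, ← e4]
      nth_rewrite 1 [← e1]
      rw [← e2]
      simp only [Finset.sum_add_distrib, Finset.sum_sub_distrib, ← Finset.mul_sum,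
        Finset.sum_const, Finset.card_univ, Fintype.card_fin, nsmul_eq_mul]
      ring
    rw [e5] at h
    nlinarith [h]
  -- excess
  have hex : 8 / 3 * √((m : ℝ) - 7 / 16) * ∑ a, (l a - min (l a) 1) * √(F - l a ^ 2)
      ≤ 17 / 50 * (m - 7 / 16) * F - 17 / 50 * (m - 7 / 16) + 800 / 153 * d ^ 2
        ∨ d = 0 := by
    rcases eq_or_lt_of_le hd0 with h | h
    · right; exact h.symm
    · left
      have hm1 : (0 : ℝ) ≤ m - 7 / 16 := by linarith
      have key : ∀ a, 8 / 3 * √((m : ℝ) - 7 / 16) * ((l a - min (l a) 1) * √(F - l a ^ 2))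
          ≤ Z a * (17 / 50 * (m - 7 / 16) * (F - 1) / d + 800 / 153 * d) := by
        intro a
        rw [hZe a]
        have h1 := excess_term hm1 (sub_nonneg.mpr (hlF a)) h
        have h2 : Z a * (17 / 50 * ((m:ℝ) - 7 / 16) * (F - l a ^ 2) / d)
            ≤ Z a * (17 / 50 * (m - 7 / 16) * (F - 1) / d) := by
          rcases le_total (l a) 1 with hh | hh
          · have : Z a = 0 := by simp only [hZ]; exact max_eq_left (by linarith)
            rw [this]; simp
          · apply mul_le_mul_of_nonneg_left _ (hZ0 a)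
            apply div_le_div_of_nonneg_right _ h.le
            apply mul_le_mul_of_nonneg_left _ (by positivity)
            nlinarith
        have h3 := mul_le_mul_of_nonneg_left h1 (hZ0 a)
        calc 8 / 3 * √((m : ℝ) - 7 / 16) * (Z a * √(F - l a ^ 2))
            = Z a * (8 / 3 * (√((m : ℝ) - 7 / 16) * √(F - l a ^ 2))) := by ring
          _ ≤ Z a * (17 / 50 * (m - 7 / 16) * (F - l a ^ 2) / d + 800 / 153 * d) := h3
          _ ≤ _ := by rw [mul_add, mul_add]; linarith
      rw [Finset.mul_sum]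
      refine le_trans (Finset.sum_le_sum fun a _ => key a) ?_
      rw [← Finset.sum_mul, ← hd]
      have : d * (17 / 50 * ((m:ℝ) - 7 / 16) * (F - 1) / d + 800 / 153 * d)
          = 17 / 50 * (m - 7 / 16) * (F - 1) + 800 / 153 * d ^ 2 := by
        field_simp
      rw [this]
      nlinarith
  rcases hex with hex | hd'
  · rw [hpair, hself]
    nlinarith [hex, hmain, hFm]
  · -- all l a = 1
    have hz : ∀ a, Z a = 0 := by
      intro a
      exact (Finset.sum_eq_zero_iff_of_nonneg (fun b _ => hZ0 b)).mp (by rw [← hd]; exact hd') a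
        (Finset.mem_univ a)
    have h1 : ∀ a, l a ≤ 1 := by
      intro a
      have := hz a
      simp only [hZ] at this
      have h2 : l a - 1 ≤ max 0 (l a - 1) := le_max_right _ _
      linarith
    have h2 : ∀ a, l a = 1 := by
      have e : ∑ a, (1 - l a) = 0 := by simp [Finset.sum_sub_distrib, hS]
      intro a
      have := (Finset.sum_eq_zero_iff_of_nonneg (fun b _ => sub_nonneg.mpr (h1 b))).mp e a
        (Finset.mem_univ a)
      linarith
    have hF1 : F = m := by simp [hF, h2]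
    have hp0 : pairC 1 1 = 0 := by
      unfold pairC
      rw [min_self, max_eq_left (by norm_num)]; ring
    have e1 : (∑ a : Fin m, ∑ b : Fin m, if a = b then 0 else pairC (l a) (l b)) = 0 := by
      refine Finset.sum_eq_zero fun a _ => Finset.sum_eq_zero fun b _ => ?_
      rw [h2 a, h2 b, hp0]; simp
    have e2 : ∑ a, max 0 (2 / 3 + (min (l a) 1) ^ 2 / 3 - l a ^ 2) = 0 := by
      refine Finset.sum_eq_zero fun a _ => ?_
      rw [h2 a, min_self, max_eq_left (by norm_num)]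
    have e3 : ∑ a, (l a - min (l a) 1) * √(F - l a ^ 2) = 0 := by
      refine Finset.sum_eq_zero fun a _ => ?_
      rw [h2 a, min_self]; ring
    rw [e1, e2, e3, hF1]
    nlinarith

/-- The scalar inequality for all even n = 2 m + 2, homogeneous form, threshold tau = mean of the
l's, constant 39/40. -/
theorem scalar_even {m : ℕ} (hm : 1 ≤ m) (l : Fin m → ℝ) (hl : ∀ a, 0 ≤ l a) (tau : ℝ)
    (hS : ∑ a, l a = m * tau) :
    4 / 3 * ((∑ a, l a) ^ 2 - ∑ a, l a ^ 2)
      + (∑ a, ∑ b, if a = b then 0 else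
          2 * max 0 (2 / 3 * tau ^ 2 + 1 / 3 * (min (l a) tau + min (l b) tau) ^ 2
            - l a ^ 2 - l b ^ 2))
      + 2 / 3 * m * tau ^ 2
      + 2 * ∑ a, max 0 (2 / 3 * tau ^ 2 + (min (l a) tau) ^ 2 / 3 - l a ^ 2)
      + 8 / 3 * √((m : ℝ) - 7 / 16) *
          ∑ a, (l a - min (l a) tau) * √((∑ b, l b ^ 2) - l a ^ 2)
    ≤ 39 / 40 * (2 * m - 1) * ∑ a, l a ^ 2 := by
  have hm' : (1 : ℝ) ≤ m := by exact_mod_cast hm
  have hS0 : 0 ≤ ∑ a, l a := Finset.sum_nonneg fun a _ => hl a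
  have ht0 : 0 ≤ tau := by
    by_contra h
    push Not at h
    nlinarith
  rcases eq_or_lt_of_le ht0 with ht | ht
  · -- everything vanishes
    have hz : ∀ a, l a = 0 := by
      have : ∑ a, l a = 0 := by rw [hS, ← ht, mul_zero]
      intro a
      exact (Finset.sum_eq_zero_iff_of_nonneg (fun b _ => hl b)).mp this a (Finset.mem_univ a)
    subst ht
    simp [hz]
  · have ht' : tau ≠ 0 := ht.ne'
    set k : Fin m → ℝ := fun a => l a / tau with hk
    have hlk : ∀ a, l a = tau * k a := fun a => by simp only [hk]; field_simp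
    have hk0 : ∀ a, 0 ≤ k a := fun a => div_nonneg (hl a) ht.le
    have hkS : ∑ a, k a = m := by
      simp only [hk]
      rw [← Finset.sum_div, hS]; field_simp
    have h := scalar_one k hk0 hm hkS
    have hmin : ∀ a, min (l a) tau = tau * min (k a) 1 := by
      intro a
      rw [hlk a, mul_min_of_nonneg _ _ ht.le, mul_one]
    have hq : ∑ a, l a ^ 2 = tau ^ 2 * ∑ a, k a ^ 2 := by
      rw [Finset.mul_sum]
      exact Finset.sum_congr rfl fun a _ => by rw [hlk a]; ring
    have hs : ∑ a, l a = tau * m := by rw [hS]; ring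
    have e1 : (∑ a, ∑ b, if a = b then 0 else
          2 * max 0 (2 / 3 * tau ^ 2 + 1 / 3 * (min (l a) tau + min (l b) tau) ^ 2
            - l a ^ 2 - l b ^ 2))
        = tau ^ 2 * ∑ a, ∑ b, if a = b then 0 else pairC (k a) (k b) := by
      rw [Finset.mul_sum]
      refine Finset.sum_congr rfl fun a _ => ?_
      rw [Finset.mul_sum]
      refine Finset.sum_congr rfl fun b _ => ?_
      split_ifs
      · ring
      · unfold pairC
        rw [hmin a, hmin b, hlk a, hlk b]
        have : 2 / 3 * tau ^ 2 + 1 / 3 * (tau * min (k a) 1 + tau * min (k b) 1) ^ 2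
            - (tau * k a) ^ 2 - (tau * k b) ^ 2
            = tau ^ 2 * (2 / 3 + (1 / 3) * (min (k a) 1 + min (k b) 1) ^ 2 - k a ^ 2 - k b ^ 2) := by
          ring
        rw [this]
        have h0 : max 0 (tau ^ 2 * (2 / 3 + (1 / 3) * (min (k a) 1 + min (k b) 1) ^ 2
            - k a ^ 2 - k b ^ 2)) = tau ^ 2 * max 0 (2 / 3 + (1 / 3) *
            (min (k a) 1 + min (k b) 1) ^ 2 - k a ^ 2 - k b ^ 2) := by
          rw [mul_max_of_nonneg _ _ (by positivity), mul_zero]
        rw [h0]; ring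
    have e2 : ∑ a, max 0 (2 / 3 * tau ^ 2 + (min (l a) tau) ^ 2 / 3 - l a ^ 2)
        = tau ^ 2 * ∑ a, max 0 (2 / 3 + (min (k a) 1) ^ 2 / 3 - k a ^ 2) := by
      rw [Finset.mul_sum]
      refine Finset.sum_congr rfl fun a _ => ?_
      rw [hmin a, hlk a, mul_max_of_nonneg _ _ (by positivity), mul_zero]
      congr 1; ring
    have e3 : ∑ a, (l a - min (l a) tau) * √((∑ b, l b ^ 2) - l a ^ 2)
        = tau ^ 2 * ∑ a, (k a - min (k a) 1) * √((∑ b, k b ^ 2) - k a ^ 2) := by
      rw [Finset.mul_sum]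
      refine Finset.sum_congr rfl fun a _ => ?_
      rw [hmin a, hq, hlk a]
      have : tau ^ 2 * ∑ b, k b ^ 2 - (tau * k a) ^ 2 = tau ^ 2 * ((∑ b, k b ^ 2) - k a ^ 2) := by
        ring
      rw [this, Real.sqrt_mul (by positivity), Real.sqrt_sq ht.le]
      ring
    rw [e1, e2, e3, hq, hs]
    have hc := mul_le_mul_of_nonneg_left h (by positivity : (0:ℝ) ≤ tau ^ 2)
    nlinarith [hc]

end Pool.HopfEU
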