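import Pool.Agent.Lib.MP_4a593f_gt.EU.Scalar

/-!
Euclidean test form, the final scalar inequality for the lines, constant `24/25`.
-/

namespace Pool.Hopf3.EU

open Finset

/-- The plane of a line and the kernel vector. -/
theorem scal_ker (x y : ℝ) (hx0 : 0 ≤ x) (hx1 : x ≤ 1) (hy : 0 ≤ y) (hxy : x * y = 0) :
    max 0 (2 / 3 + (1 - x) ^ 2 / 3 - (1 - x + y) ^ 2) ≤ 2 / 3 * (2 * x - x ^ 2) := by
  have h1 : 0 ≤ 2 * x - x ^ 2 := by nlinarith
  refine max_le (by positivity) ?_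
  rcases mul_eq_zero.1 hxy with h | h
  · subst h
    nlinarith
  · subst h
    nlinarith

/-- The scalar inequality for the lines, mean value one. -/
theorem scal_line_norm {m : ℕ} (hm : 1 ≤ m) (l : Fin m → ℝ) (h0 : ∀ a, 0 ≤ l a)
    (hS : ∑ a, l a = m) :
    4 / 3 * ((∑ a, l a) ^ 2 - ∑ a, l a ^ 2)
      + (∑ a, ∑ b, if a = b then 0 else
          2 * max 0 (2 / 3 + 1 / 3 * (min (l a) 1 + min (l b) 1) ^ 2 - l a ^ 2 - l b ^ 2))
      + 2 / 3 * m
      + 2 * ∑ a, max 0 (2 / 3 + (min (l a) 1) ^ 2 / 3 - l a ^ 2)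
      + 8 / 3 * √((m : ℝ) - 7 / 16) *
          ∑ a, (l a - min (l a) 1) * √((∑ b, l b ^ 2) - l a ^ 2)
    ≤ 24 / 25 * (2 * m - 1) * ∑ a, l a ^ 2 := by
  have hm1 : (1 : ℝ) ≤ m := by exact_mod_cast hm
  have hc : ∑ _i : Fin m, (1 : ℝ) = m := by
    rw [Finset.sum_const, Finset.card_univ, Fintype.card_fin]
    simp
  obtain ⟨x, hx⟩ : ∃ x : Fin m → ℝ, ∀ v, x v = 1 - min (l v) 1 := ⟨_, fun _ => rfl⟩
  obtain ⟨y, hy⟩ : ∃ y : Fin m → ℝ, ∀ v, y v = l v - min (l v) 1 := ⟨_, fun _ => rfl⟩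
  obtain ⟨z, hz⟩ : ∃ z : Fin m → ℝ, ∀ v, z v = min 1 (12 * y v) := ⟨_, fun _ => rfl⟩
  have hx0 : ∀ v, 0 ≤ x v := fun v => by
    rw [hx]; have := min_le_right (l v) 1; linarith
  have hx1 : ∀ v, x v ≤ 1 := fun v => by
    rw [hx]; have := le_min (h0 v) (zero_le_one (α := ℝ)); linarith
  have hy0 : ∀ v, 0 ≤ y v := fun v => by
    rw [hy]; have := min_le_left (l v) 1; linarith
  have hxy : ∀ v, x v * y v = 0 := fun v => by
    rw [hx, hy]
    rcases le_total (l v) 1 with h | h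
    · rw [min_eq_left h]; ring
    · rw [min_eq_right h]; ring
  have hlxy : ∀ v, l v = 1 - x v + y v := fun v => by
    rw [hx, hy]; ring
  have hmin : ∀ v, min (l v) 1 = 1 - x v := fun v => by
    rw [hx]; ring
  have hz0 : ∀ v, 0 ≤ z v := fun v => by
    rw [hz]; exact le_min zero_le_one (by linarith [hy0 v])
  have hz1 : ∀ v, z v ≤ 1 := fun v => by
    rw [hz]; exact min_le_left _ _
  have hzx : ∀ v, z v * x v = 0 := fun v => by
    rcases mul_eq_zero.1 (hxy v) with h | h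
    · rw [h, mul_zero]
    · rw [hz, h, mul_zero, min_eq_right (zero_le_one (α := ℝ)), zero_mul]
  obtain ⟨d, hd⟩ : ∃ d : ℝ, d = ∑ v, y v := ⟨_, rfl⟩
  obtain ⟨X, hX⟩ : ∃ X : ℝ, X = ∑ v, x v ^ 2 := ⟨_, rfl⟩
  obtain ⟨Y, hY⟩ : ∃ Y : ℝ, Y = ∑ v, y v ^ 2 := ⟨_, rfl⟩
  obtain ⟨q, hq⟩ : ∃ q : ℝ, q = ∑ v, z v := ⟨_, rfl⟩
  have sx : ∑ v, x v = d := by
    have h1 : ∑ v, l v = ∑ _v : Fin m, (1 : ℝ) - ∑ v, x v + ∑ v, y v := by
      rw [← Finset.sum_sub_distrib, ← Finset.sum_add_distrib]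
      exact Finset.sum_congr rfl fun v _ => hlxy v
    rw [hS, hc, ← hd] at h1
    linarith
  have hF : ∑ i, l i ^ 2 = m + X + Y := by
    have h1 : ∑ v, l v ^ 2 = ∑ _v : Fin m, (1 : ℝ) - 2 * ∑ v, x v + 2 * ∑ v, y v
        + ∑ v, x v ^ 2 + ∑ v, y v ^ 2 := by
      rw [Finset.mul_sum, Finset.mul_sum, ← Finset.sum_sub_distrib, ← Finset.sum_add_distrib,
        ← Finset.sum_add_distrib, ← Finset.sum_add_distrib]
      refine Finset.sum_congr rfl fun v _ => ?_
      rw [hlxy v]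
      linear_combination (-2) * hxy v
    rw [h1, hc, sx, ← hd, ← hX, ← hY]
    ring
  have sg : ∑ v, (x v - x v ^ 2) = d - X := by
    rw [Finset.sum_sub_distrib, sx, ← hX]
  have sp : ∑ w, (1 - z w) = m - q := by
    rw [Finset.sum_sub_distrib, hc, ← hq]
  have e0 : ∀ v, (1 - z v) * (x v - x v ^ 2) = x v - x v ^ 2 := fun v => by
    linear_combination (-1 + x v) * hzx v
  -- the planes between two lines
  have T2 : ∑ a, ∑ b, (if a = b then 0 else
          2 * max 0 (2 / 3 + 1 / 3 * (min (l a) 1 + min (l b) 1) ^ 2 - l a ^ 2 - l b ^ 2))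
      ≤ 4 / 3 * (2 * (m - q) * (d - X) + d ^ 2 - 2 * (d - X) - X) := by
    have h1 : ∀ v w, (if v = w then 0 else
        2 * max 0 (2 / 3 + 1 / 3 * (min (l v) 1 + min (l w) 1) ^ 2 - l v ^ 2 - l w ^ 2))
        ≤ 4 / 3 * (((1 - z w) * (x v - x v ^ 2) + (1 - z v) * (x w - x w ^ 2) + x v * x w)
          - (if v = w then 2 * (x v - x v ^ 2) + x v ^ 2 else 0)) := by
      intro v w
      by_cases hvw : v = w
      · subst hvw
        rw [if_pos rfl, if_pos rfl, e0 v]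
        apply le_of_eq
        ring
      · rw [if_neg hvw, if_neg hvw]
        have h2 := scal_pair (x v) (y v) (x w) (y w) (hx0 v) (hx1 v) (hy0 v) (hxy v) (hx0 w)
          (hx1 w) (hy0 w) (hxy w)
        rw [hmin v, hmin w, hlxy v, hlxy w, hz w, hz v]
        linarith
    refine (Finset.sum_le_sum fun v _ => Finset.sum_le_sum fun w _ => h1 v w).trans ?_
    have a1 : ∑ v, ∑ w, (1 - z w) * (x v - x v ^ 2) = (d - X) * (m - q) := by
      rw [← sg, ← sp, Finset.sum_mul_sum]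
      exact Finset.sum_congr rfl fun v _ => Finset.sum_congr rfl fun w _ => by ring
    have a2 : ∑ v, ∑ w, (1 - z v) * (x w - x w ^ 2) = (d - X) * (m - q) := by
      rw [mul_comm, ← sg, ← sp, Finset.sum_mul_sum]
    have a3 : ∑ v, ∑ w, x v * x w = d ^ 2 := by
      rw [← Finset.sum_mul_sum, sx]; ring
    have a4 : ∑ v, ∑ w, (if v = w then 2 * (x v - x v ^ 2) + x v ^ 2 else 0)
        = 2 * (d - X) + X := by
      simp only [Finset.sum_ite_eq, Finset.mem_univ, if_true]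
      rw [Finset.sum_add_distrib, ← Finset.mul_sum, sg, ← hX]
    apply le_of_eq
    calc ∑ v, ∑ w, 4 / 3 * (((1 - z w) * (x v - x v ^ 2) + (1 - z v) * (x w - x w ^ 2)
            + x v * x w) - (if v = w then 2 * (x v - x v ^ 2) + x v ^ 2 else 0))
        = 4 / 3 * (((∑ v, ∑ w, (1 - z w) * (x v - x v ^ 2))
            + (∑ v, ∑ w, (1 - z v) * (x w - x w ^ 2)) + (∑ v, ∑ w, x v * x w))
            - ∑ v, ∑ w, (if v = w then 2 * (x v - x v ^ 2) + x v ^ 2 else 0)) := by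
          rw [← Finset.sum_add_distrib, ← Finset.sum_add_distrib, ← Finset.sum_sub_distrib,
            Finset.mul_sum]
          refine Finset.sum_congr rfl fun v _ => ?_
          rw [← Finset.sum_add_distrib, ← Finset.sum_add_distrib, ← Finset.sum_sub_distrib,
            Finset.mul_sum]
      _ = 4 / 3 * (2 * (m - q) * (d - X) + d ^ 2 - 2 * (d - X) - X) := by
          rw [a1, a2, a3, a4]; ring
  -- the planes with the kernel vector
  have T4 : ∑ a, max 0 (2 / 3 + (min (l a) 1) ^ 2 / 3 - l a ^ 2) ≤ 2 / 3 * (2 * d - X) := by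
    have h1 : ∀ a, max 0 (2 / 3 + (min (l a) 1) ^ 2 / 3 - l a ^ 2)
        ≤ 2 / 3 * (2 * x a - x a ^ 2) := by
      intro a
      rw [hmin a, hlxy a]
      exact scal_ker (x a) (y a) (hx0 a) (hx1 a) (hy0 a) (hxy a)
    refine (Finset.sum_le_sum fun a _ => h1 a).trans (le_of_eq ?_)
    rw [← Finset.mul_sum, Finset.sum_sub_distrib, ← Finset.mul_sum, sx, ← hX]
  have hX0 : 0 ≤ X := by rw [hX]; exact Finset.sum_nonneg fun v _ => sq_nonneg _
  have hY0 : 0 ≤ Y := by rw [hY]; exact Finset.sum_nonneg fun v _ => sq_nonneg _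
  have hF1 : 0 ≤ m + X + Y - 1 := by linarith
  have hm7 : (0 : ℝ) ≤ m - 7 / 16 := by linarith
  have hd0 : 0 ≤ d := by rw [hd]; exact Finset.sum_nonneg fun v _ => hy0 v
  have T3 : ∑ a, (l a - min (l a) 1) * √((∑ b, l b ^ 2) - l a ^ 2)
      ≤ d * √(m + X + Y - 1) := by
    rw [hd, Finset.sum_mul]
    refine Finset.sum_le_sum fun v _ => ?_
    rw [← hy v, hF]
    rcases (hy0 v).eq_or_lt with h | h
    · rw [← h, zero_mul, zero_mul]
    · refine mul_le_mul_of_nonneg_left (Real.sqrt_le_sqrt ?_) (hy0 v)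
      have h2 : 1 ≤ l v := by
        by_contra hh
        rw [hy, min_eq_left (not_le.1 hh).le, sub_self] at h
        exact lt_irrefl _ h
      nlinarith
  have T3' : 8 / 3 * √((m : ℝ) - 7 / 16) * (d * √(m + X + Y - 1))
      ≤ 1 / 3 * (m - 7 / 16) * (m + X + Y - 1) + 16 / 3 * d ^ 2 := by
    have h1 := Real.sq_sqrt hm7
    have h2 := Real.sq_sqrt hF1
    have h3 : 1 / 3 * ((m : ℝ) - 7 / 16) * (m + X + Y - 1)
        = 1 / 3 * (√((m : ℝ) - 7 / 16) * √(m + X + Y - 1)) ^ 2 := by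
      rw [mul_pow, h1, h2]; ring
    rw [h3]
    nlinarith [sq_nonneg (√((m : ℝ) - 7 / 16) * √(m + X + Y - 1) - 4 * d)]
  have T3'' : 8 / 3 * √((m : ℝ) - 7 / 16) *
          ∑ a, (l a - min (l a) 1) * √((∑ b, l b ^ 2) - l a ^ 2)
      ≤ 8 / 3 * √((m : ℝ) - 7 / 16) * (d * √(m + X + Y - 1)) :=
    mul_le_mul_of_nonneg_left T3 (by positivity)
  have hq0 : 0 ≤ q := by rw [hq]; exact Finset.sum_nonneg fun v _ => hz0 v
  have hp0 : 0 ≤ m - q := by
    rw [← sp]
    exact Finset.sum_nonneg fun v _ => by linarith [hz1 v]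
  have hXd : d ^ 2 ≤ (m - q) * X := by
    have h1 : ∑ v, (1 - z v) * x v = d := by
      rw [← sx]
      exact Finset.sum_congr rfl fun v _ => by linear_combination (-1) * hzx v
    have h2 := Finset.sum_mul_sq_le_sq_mul_sq Finset.univ (fun v => 1 - z v) x
    rw [h1, ← hX] at h2
    have h3 : ∑ v, (1 - z v) ^ 2 ≤ m - q := by
      rw [← sp]
      exact Finset.sum_le_sum fun v _ => by nlinarith [hz0 v, hz1 v]
    exact h2.trans (mul_le_mul_of_nonneg_right h3 hX0)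
  have hYμ : ∀ μ : ℝ, 1 / 6 ≤ μ → 2 * μ * d - μ ^ 2 * q ≤ Y := by
    intro μ hμ
    have h1 : ∀ v, 2 * μ * y v - μ ^ 2 * z v ≤ y v ^ 2 := by
      intro v
      have h2 := hy0 v
      rw [hz]
      rcases le_total 1 (12 * y v) with h | h
      · rw [min_eq_left h]
        nlinarith [sq_nonneg (y v - μ)]
      · rw [min_eq_right h]
        have h3 : 0 ≤ y v * (y v + 2 * μ * (6 * μ - 1)) := by
          refine mul_nonneg h2 (add_nonneg h2 (mul_nonneg (by linarith) (by linarith)))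
        nlinarith
    have h2 := Finset.sum_le_sum fun v (_ : v ∈ Finset.univ) => h1 v
    rw [Finset.sum_sub_distrib, ← Finset.mul_sum, ← Finset.mul_sum, ← hd, ← hq, ← hY] at h2
    exact h2
  have key := scal_real m (m - q) q d X Y hm1 (by ring) hp0 hq0 hd0 hXd hX0 hY0 hYμ
  rw [hF] at T3''
  rw [hF, hS]
  linarith [T2, T4, T3'', T3', key]

/-- The scalar inequality for the lines, `tau` the mean value. -/
theorem scalar_line {m : ℕ} (hm : 1 ≤ m) (l : Fin m → ℝ) (hl : ∀ a, 0 ≤ l a) (tau : ℝ)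
    (hS : ∑ a, l a = m * tau) :
    4 / 3 * ((∑ a, l a) ^ 2 - ∑ a, l a ^ 2)
      + (∑ a, ∑ b, if a = b then 0 else
          2 * max 0 (2 / 3 * tau ^ 2 + 1 / 3 * (min (l a) tau + min (l b) tau) ^ 2
            - l a ^ 2 - l b ^ 2))
      + 2 / 3 * m * tau ^ 2
      + 2 * ∑ a, max 0 (2 / 3 * tau ^ 2 + (min (l a) tau) ^ 2 / 3 - l a ^ 2)
      + 8 / 3 * √((m : ℝ) - 7 / 16) *
          ∑ a, (l a - min (l a) tau) * √((∑ b, l b ^ 2) - l a ^ 2)
    ≤ 24 / 25 * (2 * m - 1) * ∑ a, l a ^ 2 := by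
  have hm' : (1 : ℝ) ≤ m := by exact_mod_cast hm
  have hS0 : 0 ≤ ∑ a, l a := Finset.sum_nonneg fun a _ => hl a
  have ht0 : 0 ≤ tau := by
    by_contra h
    have : (m : ℝ) * tau < 0 := mul_neg_of_pos_of_neg (by linarith) (not_le.1 h)
    linarith
  rcases ht0.eq_or_lt with ht | ht
  · -- all coefficients vanish
    subst ht
    rw [mul_zero] at hS
    have h1 : ∀ a, l a = 0 := fun a =>
      (Finset.sum_eq_zero_iff_of_nonneg (fun a _ => hl a)).1 hS a (Finset.mem_univ a)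
    simp [h1]
  · obtain ⟨k, hk⟩ : ∃ k : Fin m → ℝ, ∀ v, k v = l v / tau := ⟨_, fun _ => rfl⟩
    have hlk : ∀ v, l v = tau * k v := fun v => by
      rw [hk]; field_simp
    have hk0 : ∀ v, 0 ≤ k v := fun v => by
      rw [hk]; exact div_nonneg (hl v) ht.le
    have hsl : ∑ v, l v = tau * ∑ v, k v := by
      rw [Finset.mul_sum]
      exact Finset.sum_congr rfl fun v _ => hlk v
    have hkS : ∑ v, k v = m := by
      rw [hS] at hsl
      have h2 : tau * (∑ v, k v) = tau * m := by rw [← hsl]; ring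
      exact mul_left_cancel₀ ht.ne' h2
    have key := scal_line_norm hm k hk0 hkS
    have hτ2 : 0 ≤ tau ^ 2 := sq_nonneg _
    have hmin : ∀ v, min (l v) tau = tau * min (k v) 1 := fun v => by
      rw [mul_min_of_nonneg _ _ ht.le, mul_one, ← hlk]
    have e3 : ∑ i, l i ^ 2 = tau ^ 2 * ∑ i, k i ^ 2 := by
      rw [Finset.mul_sum]
      exact Finset.sum_congr rfl fun v _ => by rw [hlk v]; ring
    have e2 : (∑ a, ∑ b, if a = b then 0 else
          2 * max 0 (2 / 3 * tau ^ 2 + 1 / 3 * (min (l a) tau + min (l b) tau) ^ 2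
            - l a ^ 2 - l b ^ 2))
        = tau ^ 2 * ∑ a, ∑ b, (if a = b then 0 else
          2 * max 0 (2 / 3 + 1 / 3 * (min (k a) 1 + min (k b) 1) ^ 2 - k a ^ 2 - k b ^ 2)) := by
      rw [Finset.mul_sum]
      refine Finset.sum_congr rfl fun v _ => ?_
      rw [Finset.mul_sum]
      refine Finset.sum_congr rfl fun w _ => ?_
      split_ifs
      · rw [mul_zero]
      · rw [mul_left_comm, mul_max_of_nonneg _ _ hτ2, mul_zero, hmin v, hmin w, hlk v, hlk w]
        congr 2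
        ring
    have e5 : ∑ a, max 0 (2 / 3 * tau ^ 2 + (min (l a) tau) ^ 2 / 3 - l a ^ 2)
        = tau ^ 2 * ∑ a, max 0 (2 / 3 + (min (k a) 1) ^ 2 / 3 - k a ^ 2) := by
      rw [Finset.mul_sum]
      refine Finset.sum_congr rfl fun v _ => ?_
      rw [mul_max_of_nonneg _ _ hτ2, mul_zero, hmin v, hlk v]
      congr 1
      ring
    have e4 : ∑ a, (l a - min (l a) tau) * √((∑ b, l b ^ 2) - l a ^ 2)
        = tau ^ 2 * ∑ a, (k a - min (k a) 1) * √((∑ b, k b ^ 2) - k a ^ 2) := by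
      refine Eq.trans ?_ (Finset.mul_sum _ _ _).symm
      refine Finset.sum_congr rfl fun v _ => ?_
      have h1 : (∑ i, l i ^ 2) - l v ^ 2 = tau ^ 2 * ((∑ i, k i ^ 2) - k v ^ 2) := by
        rw [e3, hlk v]; ring
      rw [h1, Real.sqrt_mul hτ2, Real.sqrt_sq ht.le, hmin v, hlk v]
      ring
    rw [e2, e4, e5, e3, hsl]
    have h2 := mul_le_mul_of_nonneg_left key hτ2
    linarith

end Pool.Hopf3.EU
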